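import Pool.Agent.Helper28.Rank3.High

set_option autoImplicit false
set_option linter.unusedSectionVars false

namespace Pool.Agent.Helper28.Rank3

open Finset

variable {I J : Type*} [Fintype I] [Fintype J] [DecidableEq I] [DecidableEq J]

abbrev PF (V : Finset (I × J)) : Prop := PP (Prod.fst : I × J → I) (Prod.snd : I × J → J) V
abbrev CF (V : Finset (I × J)) : Prop := Cen (Prod.fst : I × J → I) (Prod.snd : I × J → J) V

/-- triples: a generic pair and a further cell outside the spanned rectangle -/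
def TT (I J : Type*) [Fintype I] [Fintype J] [DecidableEq I] [DecidableEq J] :
    Finset ((I × J) × (I × J) × (I × J)) :=
  (univ : Finset ((I × J) × (I × J) × (I × J))).filter (fun t =>
    (t.1.1 ≠ t.2.1.1 ∧ t.1.2 ≠ t.2.1.2) ∧
    t.2.2 ∉ ({t.1, t.2.1, (t.1.1, t.2.1.2), (t.2.1.1, t.1.2)} : Finset (I × J)))

lemma TT_lower (z : I × J → ℝ) (hz : ∀ u, 0 ≤ z u) :
    ∑ t ∈ TT I J, (z t.1 * z t.2.1) ^ 2 * z t.2.2
      ≤ ∑ A : Finset (I × J), if 3 ≤ A.card then
        ww z A * ∑ u ∈ A, ∑ v ∈ A, gg u v * z u * z v else 0 := by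
  have h1 : (∑ A : Finset (I × J), if 3 ≤ A.card then
        ww z A * ∑ u ∈ A, ∑ v ∈ A, gg u v * z u * z v else 0)
      = ∑ p ∈ (univ : Finset (Finset (I × J) × (I × J) × (I × J))),
          (if (3 ≤ p.1.card ∧ p.2.1 ∈ p.1 ∧ p.2.2 ∈ p.1) then
            ww z p.1 * (gg p.2.1 p.2.2 * z p.2.1 * z p.2.2) else 0) := by
    rw [Fintype.sum_prod_type]
    refine Finset.sum_congr rfl fun A _ => ?_
    rw [Fintype.sum_prod_type]
    simp only
    by_cases h : 3 ≤ A.card
    · rw [if_pos h, Finset.mul_sum]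
      rw [← Finset.sum_subset (Finset.subset_univ A)]
      · refine Finset.sum_congr rfl fun u hu => ?_
        rw [Finset.mul_sum]
        rw [← Finset.sum_subset (Finset.subset_univ A)]
        · refine Finset.sum_congr rfl fun v hv => ?_
          rw [if_pos ⟨h, hu, hv⟩]
        · intro v _ hv
          rw [if_neg]; exact fun h' => hv h'.2.2
      · intro u _ hu
        apply Finset.sum_eq_zero
        intro v _
        rw [if_neg]; exact fun h' => hu h'.2.1
    · rw [if_neg h]
      symm
      apply Finset.sum_eq_zero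
      intro u _
      apply Finset.sum_eq_zero
      intro v _
      rw [if_neg]; exact fun h' => h h'.1
  rw [h1]
  apply sum_le_of_inj (TT I J) univ (fun t => (({t.1, t.2.1, t.2.2} : Finset (I × J)), t.1, t.2.1))
  · intro t _; exact Finset.mem_univ _
  · rintro ⟨u, v, y⟩ ht ⟨u', v', y'⟩ ht' h
    simp only [Prod.mk.injEq] at h
    obtain ⟨h2, rfl, rfl⟩ := h
    simp only [TT, Finset.mem_filter, Finset.mem_univ, true_and, Finset.mem_insert,
      Finset.mem_singleton, not_or] at ht ht'
    have : y ∈ ({u, v, y'} : Finset (I × J)) := by rw [← h2]; simp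
    simp only [Finset.mem_insert, Finset.mem_singleton] at this
    rcases this with h3 | h3 | h3
    · exact absurd h3 ht.2.1
    · exact absurd h3 ht.2.2.1
    · rw [h3]
  · rintro ⟨u, v, y⟩ ht
    simp only [TT, Finset.mem_filter, Finset.mem_univ, true_and, Finset.mem_insert,
      Finset.mem_singleton, not_or] at ht
    have huv : u ≠ v := fun h => ht.1.1 (by rw [h])
    have hyu : ¬ y = u := ht.2.1
    have hyv : ¬ y = v := ht.2.2.1
    have hc : ({u, v, y} : Finset (I × J)).card = 3 := by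
      rw [Finset.card_insert_of_notMem, Finset.card_insert_of_notMem, Finset.card_singleton]
      · simp only [Finset.mem_singleton]; exact fun h => hyv h.symm
      · simp only [Finset.mem_insert, Finset.mem_singleton, not_or]
        exact ⟨huv, fun h => hyu h.symm⟩
    have hw : ww z {u, v, y} = z u * z v * z y := by
      unfold ww
      rw [Finset.prod_insert, Finset.prod_insert, Finset.prod_singleton]
      · ring
      · simp only [Finset.mem_singleton]; exact fun h => hyv h.symm
      · simp only [Finset.mem_insert, Finset.mem_singleton, not_or]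
        exact ⟨huv, fun h => hyu h.symm⟩
    have hg : gg u v = 1 := by unfold gg; rw [if_pos ht.1]
    simp only
    rw [if_pos ⟨by omega, by simp, by simp⟩, hw, hg]
    apply le_of_eq; ring
  · rintro ⟨A, u, v⟩ _
    simp only
    split_ifs
    · exact mul_nonneg (ww_nonneg z hz A)
        (mul_nonneg (mul_nonneg (gg_nonneg u v) (hz u)) (hz v))
    · exact le_refl _

lemma TT_invol (z : I × J → ℝ) :
    ∑ t ∈ TT I J, (z (t.1.1, t.2.1.2) * z (t.2.1.1, t.1.2)) ^ 2 * z t.2.2
      = ∑ t ∈ TT I J, (z t.1 * z t.2.1) ^ 2 * z t.2.2 := by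
  refine Finset.sum_nbij' (fun t => ((t.1.1, t.2.1.2), (t.2.1.1, t.1.2), t.2.2))
    (fun t => ((t.1.1, t.2.1.2), (t.2.1.1, t.1.2), t.2.2)) ?_ ?_ ?_ ?_ ?_
  · rintro ⟨⟨a, b⟩, ⟨c, d⟩, y⟩ ht
    simp only [TT, Finset.mem_filter, Finset.mem_univ, true_and, Finset.mem_insert,
      Finset.mem_singleton, not_or] at ht ⊢
    exact ⟨⟨ht.1.1, fun h => ht.1.2 h.symm⟩, ht.2.2.2.1, ht.2.2.2.2, ht.2.1, ht.2.2.1⟩
  · rintro ⟨⟨a, b⟩, ⟨c, d⟩, y⟩ ht
    simp only [TT, Finset.mem_filter, Finset.mem_univ, true_and, Finset.mem_insert,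
      Finset.mem_singleton, not_or] at ht ⊢
    exact ⟨⟨ht.1.1, fun h => ht.1.2 h.symm⟩, ht.2.2.2.1, ht.2.2.2.2, ht.2.1, ht.2.2.1⟩
  · rintro ⟨⟨a, b⟩, ⟨c, d⟩, y⟩ _; rfl
  · rintro ⟨⟨a, b⟩, ⟨c, d⟩, y⟩ _; rfl
  · rintro ⟨⟨a, b⟩, ⟨c, d⟩, y⟩ _; rfl

/-- the five-element set of a triple -/
def tset (t : (I × J) × (I × J) × (I × J)) : Finset (I × J) :=
  {t.1, t.2.1, (t.1.1, t.2.1.2), (t.2.1.1, t.1.2), t.2.2}

lemma ww_tset (z : I × J → ℝ) (t : (I × J) × (I × J) × (I × J)) (ht : t ∈ TT I J) :
    ww z (tset t) = (z t.1 * z t.2.1) * (z (t.1.1, t.2.1.2) * z (t.2.1.1, t.1.2)) * z t.2.2 := by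
  obtain ⟨⟨a, b⟩, ⟨c, d⟩, y⟩ := t
  simp only [TT, Finset.mem_filter, Finset.mem_univ, true_and, Finset.mem_insert,
      Finset.mem_singleton, not_or] at ht
  obtain ⟨⟨h1, h2⟩, h3, h4, h5, h6⟩ := ht
  have h1' : ¬ c = a := fun h => h1 h.symm
  have h2' : ¬ d = b := fun h => h2 h.symm
  have h1'' : ¬ a = c := h1
  have h2'' : ¬ b = d := h2
  unfold ww tset
  simp only
  rw [Finset.prod_insert, Finset.prod_insert, Finset.prod_insert, Finset.prod_insert,
    Finset.prod_singleton]
  · ring
  · simp only [Finset.mem_singleton]; exact fun h => h6 h.symm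
  · simp only [Finset.mem_insert, Finset.mem_singleton, not_or, Prod.mk.injEq, not_and]
    exact ⟨fun h => absurd h h1'', fun h => h5 h.symm⟩
  · simp only [Finset.mem_insert, Finset.mem_singleton, not_or, Prod.mk.injEq, not_and]
    exact ⟨fun h => absurd h h1', fun _ => h2', fun h => h4 h.symm⟩
  · simp only [Finset.mem_insert, Finset.mem_singleton, not_or, Prod.mk.injEq, not_and]
    exact ⟨fun h => absurd h h1'', fun _ => h2'', fun h => absurd h h1'', fun h => h3 h.symm⟩

lemma PP_upper (z : I × J → ℝ) (hz : ∀ u, 0 ≤ z u) [DecidablePred (PF (I := I) (J := J))] :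
    2 * (∑ V : Finset (I × J), if PF V then ww z V else 0)
      ≤ ∑ t ∈ TT I J, ww z (tset t) := by
  have h1 : ∑ t ∈ TT I J, ww z (tset t)
      = ∑ V : Finset (I × J), ∑ t ∈ (TT I J).filter (fun t => tset t = V), ww z (tset t) :=
    (Finset.sum_fiberwise _ _ _).symm
  rw [h1, Finset.mul_sum]
  refine Finset.sum_le_sum fun V _ => ?_
  have h2 : ∑ t ∈ (TT I J).filter (fun t => tset t = V), ww z (tset t)
      = ((TT I J).filter (fun t => tset t = V)).card * ww z V := by
    rw [Finset.sum_congr rfl (g := fun _ => ww z V), Finset.sum_const, nsmul_eq_mul]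
    intro t ht
    rw [Finset.mem_filter] at ht
    rw [ht.2]
  rw [h2]
  by_cases hP : PF V
  · rw [if_pos hP]
    apply mul_le_mul_of_nonneg_right _ (ww_nonneg z hz V)
    have : 1 < ((TT I J).filter (fun t => tset t = V)).card := by
      obtain ⟨u, v, u', v', y, hg, hu', hv', hV, hc⟩ := hP
      have e1 : u' = (u.1, v.2) := Prod.ext hu'.1 hu'.2
      have e2 : v' = (v.1, u.2) := Prod.ext hv'.1 hv'.2
      subst e1 e2
      have hy : y ∉ ({u, v, (u.1, v.2), (v.1, u.2)} : Finset (I × J)) := by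
        intro hy
        have : ({u, v, (u.1, v.2), (v.1, u.2), y} : Finset (I × J))
            = ({u, v, (u.1, v.2), (v.1, u.2)} : Finset (I × J)) := by
          ext x
          simp only [Finset.mem_insert, Finset.mem_singleton] at hy ⊢
          constructor
          · rintro (h | h | h | h | h)
            · simp [h]
            · simp [h]
            · simp [h]
            · simp [h]
            · rw [h]; exact hy
          · rintro (h | h | h | h) <;> simp [h]
        rw [this] at hV
        rw [hV] at hc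
        have h4 : ({u, v, (u.1, v.2), (v.1, u.2)} : Finset (I × J)).card ≤ 4 :=
          Finset.card_le_four
        omega
      rw [Finset.one_lt_card]
      refine ⟨(u, v, y), ?_, (v, u, y), ?_, ?_⟩
      · rw [Finset.mem_filter]
        refine ⟨?_, hV.symm⟩
        simp only [TT, Finset.mem_filter, Finset.mem_univ, true_and]
        exact ⟨hg, hy⟩
      · rw [Finset.mem_filter]
        refine ⟨?_, ?_⟩
        · simp only [TT, Finset.mem_filter, Finset.mem_univ, true_and]
          refine ⟨⟨fun h => hg.1 h.symm, fun h => hg.2 h.symm⟩, ?_⟩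
          simp only [Finset.mem_insert, Finset.mem_singleton, not_or] at hy ⊢
          exact ⟨hy.2.1, hy.1, hy.2.2.2, hy.2.2.1⟩
        · rw [hV]
          unfold tset
          ext x
          simp only [Finset.mem_insert, Finset.mem_singleton]
          tauto
      · intro h
        simp only [Prod.mk.injEq] at h
        exact hg.1 (by rw [h.1])
    exact_mod_cast this
  · rw [if_neg hP]
    have := mul_nonneg (Nat.cast_nonneg (α := ℝ)
      ((TT I J).filter (fun t => tset t = V)).card) (ww_nonneg z hz V)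
    linarith

lemma partC (z : I × J → ℝ) (hz : ∀ u, 0 ≤ z u) [DecidablePred (PF (I := I) (J := J))] :
    2 * (∑ V : Finset (I × J), if PF V then ww z V else 0)
      ≤ ∑ A : Finset (I × J), if 3 ≤ A.card then
        ww z A * ∑ u ∈ A, ∑ v ∈ A, gg u v * z u * z v else 0 := by
  refine (PP_upper z hz).trans (le_trans ?_ (TT_lower z hz))
  have h1 := TT_invol z
  have h2 : ∑ t ∈ TT I J, ww z (tset t) ≤ ∑ t ∈ TT I J,
      ((z t.1 * z t.2.1) ^ 2 * z t.2.2
        + (z (t.1.1, t.2.1.2) * z (t.2.1.1, t.1.2)) ^ 2 * z t.2.2) / 2 := by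
    refine Finset.sum_le_sum fun t ht => ?_
    rw [ww_tset z t ht]
    have := mul_nonneg (sq_nonneg (z t.1 * z t.2.1 - z (t.1.1, t.2.1.2) * z (t.2.1.1, t.1.2)))
      (hz t.2.2)
    nlinarith
  rw [← Finset.sum_div, Finset.sum_add_distrib, h1] at h2
  linarith

end Pool.Agent.Helper28.Rank3
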