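import Mathlib

set_option autoImplicit false
set_option linter.unusedSectionVars false

namespace Pool.Agent.Helper28.Rank3

open Finset

section
variable {U I J : Type*} [DecidableEq U] [DecidableEq I] [DecidableEq J] (r : U → I) (c : U → J)

/-- number of elements of `V` in general position to `u` -/
def deg (V : Finset U) (u : U) : ℕ := (V.filter (fun v => r u ≠ r v ∧ c u ≠ c v)).card

/-- number of ordered pairs in general position -/
def N2 (V : Finset U) : ℕ := ∑ u ∈ V, deg r c V u

def inL (V : Finset U) : Prop := ∀ u ∈ V, ∀ v ∈ V, r u = r v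

instance (V : Finset U) : Decidable (inL r V) := by unfold inL; infer_instance

/-- neither in a row nor in a column -/
def QQ (V : Finset U) : Prop := ¬ inL r V ∧ ¬ inL c V

instance (V : Finset U) : Decidable (QQ r c V) := by unfold QQ; infer_instance

/-- number of elements whose removal leaves a set not contained in a line -/
def qn (V : Finset U) : ℕ := (V.filter (fun x => QQ r c (V.erase x))).card

/-- `V` is contained in the cross of one of its elements -/
def Cen (V : Finset U) : Prop := ∃ a ∈ V, ∀ u ∈ V, r u = r a ∨ c u = c a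

/-- `V` is a rectangle and a further element -/
def PP (V : Finset U) : Prop :=
  ∃ u v u' v' y : U, (r u ≠ r v ∧ c u ≠ c v) ∧ (r u' = r u ∧ c u' = c v) ∧
    (r v' = r v ∧ c v' = c u) ∧ V = {u, v, u', v', y} ∧ V.card = 5

lemma deg_comm (V : Finset U) (u : U) : deg r c V u = deg c r V u := by
  unfold deg; congr 1; ext v; simp [and_comm]

lemma N2_comm (V : Finset U) : N2 r c V = N2 c r V := by
  unfold N2; exact Finset.sum_congr rfl fun u _ => deg_comm r c V u

lemma QQ_comm (V : Finset U) : QQ r c V ↔ QQ c r V := by
  unfold QQ; exact and_comm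

lemma Cen_comm (V : Finset U) : Cen r c V ↔ Cen c r V := by
  unfold Cen
  constructor
  · rintro ⟨a, ha, h⟩; exact ⟨a, ha, fun u hu => (h u hu).symm⟩
  · rintro ⟨a, ha, h⟩; exact ⟨a, ha, fun u hu => (h u hu).symm⟩

lemma PP_comm (V : Finset U) (h : PP c r V) : PP r c V := by
  obtain ⟨u, v, u', v', y, h1, h2, h3, h4, h5⟩ := h
  refine ⟨u, v, v', u', y, ⟨h1.2, h1.1⟩, ⟨h3.2, h3.1⟩, ⟨h2.2, h2.1⟩, ?_, h5⟩
  rw [h4]; ext x; simp; tauto

lemma inL_erase (V : Finset U) (x : U) (h : inL r V) : inL r (V.erase x) :=
  fun u hu v hv => h u (Finset.mem_of_mem_erase hu) v (Finset.mem_of_mem_erase hv)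

lemma qn_eq_zero (V : Finset U) (h : ¬ QQ r c V) : qn r c V = 0 := by
  unfold qn
  rw [Finset.card_eq_zero, Finset.filter_eq_empty_iff]
  intro x _ hx
  apply h
  exact ⟨fun h' => hx.1 (inL_erase r V x h'), fun h' => hx.2 (inL_erase c V x h')⟩

lemma qn_le (V : Finset U) : qn r c V ≤ V.card := Finset.card_filter_le _ _

/-- the basic lower bound for the number of generic pairs using one row -/
lemma line_bound (V : Finset U) (i : I) :
    2 * (∑ d ∈ V.filter (fun u => r u ≠ i), ((V.filter (fun u => r u = i)).filter
        (fun x => c x ≠ c d)).card)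
      + (∑ d ∈ V.filter (fun u => r u ≠ i), deg r c (V.filter (fun u => r u ≠ i)) d)
      ≤ N2 r c V := by
  set X := V.filter (fun u => r u = i) with hX
  set Y := V.filter (fun u => r u ≠ i) with hY
  have hdeg : ∀ u, deg r c V u = deg r c X u + deg r c Y u := by
    intro u
    unfold deg
    rw [hX, hY, Finset.filter_filter, Finset.filter_filter, ← Finset.card_union_of_disjoint]
    · congr 1
      ext v
      simp only [Finset.mem_filter, Finset.mem_union]
      tauto
    · rw [Finset.disjoint_left]
      intro v hv hv'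
      simp only [Finset.mem_filter] at hv hv'
      exact hv'.2.1 hv.2.1
  have hsplit : N2 r c V = ∑ u ∈ X, deg r c V u + ∑ u ∈ Y, deg r c V u := by
    unfold N2
    rw [hX, hY]
    exact (Finset.sum_filter_add_sum_filter_not V (fun u => r u = i) _).symm
  have hdc : ∑ u ∈ X, deg r c Y u = ∑ d ∈ Y, deg r c X d := by
    unfold deg
    have h1 : ∀ (A B : Finset U), ∑ u ∈ A, (B.filter (fun v => r u ≠ r v ∧ c u ≠ c v)).card
        = ∑ u ∈ A, ∑ v ∈ B, if (r u ≠ r v ∧ c u ≠ c v) then 1 else 0 := by
      intro A B
      refine Finset.sum_congr rfl fun u _ => ?_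
      rw [Finset.card_filter]
    rw [h1, h1, Finset.sum_comm]
    refine Finset.sum_congr rfl fun u _ => Finset.sum_congr rfl fun v _ => ?_
    congr 1
    simp only [ne_eq, eq_comm]
  have hXY : ∀ d ∈ Y, deg r c X d = (X.filter (fun x => c x ≠ c d)).card := by
    intro d hd
    unfold deg
    congr 1
    apply Finset.filter_congr
    intro x hx
    rw [hY, Finset.mem_filter] at hd
    rw [hX, Finset.mem_filter] at hx
    constructor
    · rintro ⟨_, h⟩; exact fun h' => h h'.symm
    · intro h
      refine ⟨?_, fun h' => h h'.symm⟩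
      rw [hx.2]; exact hd.2
  have h3 : ∑ d ∈ Y, deg r c X d = ∑ d ∈ Y, (X.filter (fun x => c x ≠ c d)).card :=
    Finset.sum_congr rfl hXY
  rw [← h3, hsplit]
  simp only [hdeg, Finset.sum_add_distrib]
  rw [hdc]
  omega

variable (hinj : ∀ u v, r u = r v → c u = c v → u = v)
include hinj

lemma col_le (X : Finset U) (i : I) (hX : ∀ x ∈ X, r x = i) (d : U) :
    X.card ≤ (X.filter (fun x => c x ≠ c d)).card + 1 := by
  have h1 : (X.filter (fun x => ¬ c x ≠ c d)).card ≤ 1 := by
    rw [Finset.card_le_one]
    intro a ha b hb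
    simp only [ne_eq, not_not, Finset.mem_filter] at ha hb
    exact hinj a b (by rw [hX a ha.1, hX b hb.1]) (by rw [ha.2, hb.2])
  have h2 := Finset.card_filter_add_card_filter_not (s := X) (fun x => c x ≠ c d)
  omega

lemma deg_eq (V : Finset U) (u : U) (hu : u ∈ V) :
    deg r c V u + (V.filter (fun v => r v = r u)).card + (V.filter (fun v => c v = c u)).card
      = V.card + 1 := by
  have h1 := Finset.card_union_add_card_inter (V.filter (fun v => r v = r u))
    (V.filter (fun v => c v = c u))
  have h2 : V.filter (fun v => r v = r u) ∩ V.filter (fun v => c v = c u) = {u} := by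
    ext v
    simp only [Finset.mem_inter, Finset.mem_filter, Finset.mem_singleton]
    constructor
    · rintro ⟨⟨_, h⟩, ⟨_, h'⟩⟩; exact hinj v u h h'
    · rintro rfl; exact ⟨⟨hu, rfl⟩, ⟨hu, rfl⟩⟩
  have h3 : V.filter (fun v => r v = r u) ∪ V.filter (fun v => c v = c u)
      = V.filter (fun v => ¬ (r u ≠ r v ∧ c u ≠ c v)) := by
    ext v
    simp only [Finset.mem_union, Finset.mem_filter, eq_comm (a := r u), eq_comm (a := c u), ne_eq]
    tauto
  have h4 := Finset.card_filter_add_card_filter_not (s := V)
    (fun v => r u ≠ r v ∧ c u ≠ c v)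
  rw [h2, h3, Finset.card_singleton] at h1
  unfold deg
  omega

/-- Case A: a row containing all but at most one of the elements. -/
lemma caseA (V : Finset U) (hV : 5 ≤ V.card) (i : I)
    (hi : V.card ≤ (V.filter (fun u => r u = i)).card + 1) (hQ : QQ r c V)
    (hC : ¬ Cen r c V) : 2 * qn r c V ≤ N2 r c V := by
  have hb := line_bound r c V i
  set X := V.filter (fun u => r u = i) with hX
  set Y := V.filter (fun u => r u ≠ i) with hY
  have hXY : X.card + Y.card = V.card := by
    rw [hX, hY]; exact Finset.card_filter_add_card_filter_not _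
  have hYne : Y.Nonempty := by
    rw [Finset.nonempty_iff_ne_empty]
    intro h
    apply hQ.1
    intro u hu v hv
    have h' : ∀ u ∈ V, r u = i := by
      intro u hu
      by_contra hne
      have : u ∈ Y := by rw [hY, Finset.mem_filter]; exact ⟨hu, hne⟩
      rw [h] at this
      exact absurd this (Finset.notMem_empty _)
    rw [h' u hu, h' v hv]
  have hY1 : Y.card = 1 := by
    have := hYne.card_pos
    omega
  obtain ⟨d, hd⟩ := Finset.card_eq_one.mp hY1
  have hdV : d ∈ V := by
    have : d ∈ Y := by rw [hd]; exact Finset.mem_singleton_self d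
    rw [hY, Finset.mem_filter] at this; exact this.1
  have hdi : r d ≠ i := by
    have : d ∈ Y := by rw [hd]; exact Finset.mem_singleton_self d
    rw [hY, Finset.mem_filter] at this; exact this.2
  rw [hd] at hb
  simp only [Finset.sum_singleton] at hb
  -- q ≤ |V| - 1
  have hq : qn r c V ≤ V.card - 1 := by
    unfold qn
    have : V.filter (fun x => QQ r c (V.erase x)) ⊆ V.erase d := by
      intro x hx
      rw [Finset.mem_filter] at hx
      rw [Finset.mem_erase]
      refine ⟨?_, hx.1⟩
      rintro rfl
      apply hx.2.1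
      have h' : ∀ u ∈ V.erase x, r u = i := by
        intro u hu
        by_contra hne
        rw [Finset.mem_erase] at hu
        have : u ∈ Y := by rw [hY, Finset.mem_filter]; exact ⟨hu.2, hne⟩
        rw [hd, Finset.mem_singleton] at this
        exact hu.1 this
      intro u hu v hv
      rw [h' u hu, h' v hv]
    have := Finset.card_le_card this
    rw [Finset.card_erase_of_mem hdV] at this
    exact this
  have hall : X.filter (fun x => c x ≠ c d) = X := by
    rw [Finset.filter_eq_self]
    intro x hx hxd
    apply hC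
    rw [hX, Finset.mem_filter] at hx
    refine ⟨x, hx.1, ?_⟩
    intro u hu
    by_cases hui : r u = i
    · left; rw [hui, hx.2]
    · right
      have : u ∈ Y := by rw [hY, Finset.mem_filter]; exact ⟨hu, hui⟩
      rw [hd, Finset.mem_singleton] at this
      rw [this, hxd]
  rw [hall] at hb
  omega

/-- Case B: a row containing at least three and at most all but two of the elements. -/
lemma caseB (V : Finset U) (hV : 5 ≤ V.card) (i : I)
    (hi3 : 3 ≤ (V.filter (fun u => r u = i)).card)
    (hi : (V.filter (fun u => r u = i)).card + 2 ≤ V.card)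
    (hC : ¬ Cen r c V) (hP : ¬ PP r c V) : 2 * V.card ≤ N2 r c V := by
  have hb := line_bound r c V i
  set X := V.filter (fun u => r u = i) with hX
  set Y := V.filter (fun u => r u ≠ i) with hY
  have hXY : X.card + Y.card = V.card := by
    rw [hX, hY]; exact Finset.card_filter_add_card_filter_not _
  have hXr : ∀ x ∈ X, r x = i := by
    intro x hx; rw [hX, Finset.mem_filter] at hx; exact hx.2
  have hYr : ∀ x ∈ Y, r x ≠ i := by
    intro x hx; rw [hY, Finset.mem_filter] at hx; exact hx.2
  have hcol : ∀ d, X.card - 1 ≤ (X.filter (fun x => c x ≠ c d)).card := by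
    intro d
    have := col_le r c hinj X i hXr d
    omega
  by_cases h6 : 6 ≤ V.card
  · have h1 : Y.card * (X.card - 1) ≤ ∑ d ∈ Y, (X.filter (fun x => c x ≠ c d)).card := by
      rw [← smul_eq_mul]
      exact Finset.card_nsmul_le_sum _ _ _ fun d _ => hcol d
    obtain ⟨a, ha⟩ : ∃ a, Y.card = a + 2 := ⟨Y.card - 2, by omega⟩
    obtain ⟨b, hb'⟩ : ∃ b, X.card = b + 3 := ⟨X.card - 3, by omega⟩
    have h2 : V.card ≤ Y.card * (X.card - 1) := by
      rw [← hXY, ha, hb']
      have : b + 3 - 1 = b + 2 := rfl
      rw [this]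
      have h7 : 1 ≤ a + b := by omega
      nlinarith [Nat.zero_le (a * b)]
    omega
  · have h5 : V.card = 5 := by omega
    have hX3 : X.card = 3 := by omega
    have hY2 : Y.card = 2 := by omega
    obtain ⟨d, d', hdd, hYd⟩ := Finset.card_eq_two.mp hY2
    rw [hYd, Finset.sum_pair hdd, Finset.sum_pair hdd, ← hYd] at hb
    have hdY : d ∈ Y := by rw [hYd]; simp
    have hdY' : d' ∈ Y := by rw [hYd]; simp
    have k1 := hcol d
    have k2 := hcol d'
    by_contra hlt
    push Not at hlt
    have e1 : (X.filter (fun x => c x ≠ c d)).card ≤ 2 := by omega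
    have e2 : (X.filter (fun x => c x ≠ c d')).card ≤ 2 := by omega
    have e3 : deg r c Y d = 0 ∨ deg r c Y d' = 0 := by omega
    have f1 : ∃ x ∈ X, c x = c d := by
      by_contra hno
      push Not at hno
      have : X.filter (fun x => c x ≠ c d) = X := Finset.filter_eq_self.mpr hno
      rw [this] at e1; omega
    have f2 : ∃ x ∈ X, c x = c d' := by
      by_contra hno
      push Not at hno
      have : X.filter (fun x => c x ≠ c d') = X := Finset.filter_eq_self.mpr hno
      rw [this] at e2; omega
    have hng : ¬ (r d ≠ r d' ∧ c d ≠ c d') := by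
      intro hg
      rcases e3 with e3 | e3
      · unfold deg at e3
        rw [Finset.card_eq_zero, Finset.filter_eq_empty_iff] at e3
        exact e3 hdY' hg
      · unfold deg at e3
        rw [Finset.card_eq_zero, Finset.filter_eq_empty_iff] at e3
        exact e3 hdY ⟨fun h => hg.1 h.symm, fun h => hg.2 h.symm⟩
    obtain ⟨x, hx, hxd⟩ := f1
    obtain ⟨x', hx', hxd'⟩ := f2
    have hxV : x ∈ V := by rw [hX, Finset.mem_filter] at hx; exact hx.1
    have hxV' : x' ∈ V := by rw [hX, Finset.mem_filter] at hx'; exact hx'.1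
    by_cases hcc : c d = c d'
    · apply hC
      refine ⟨x, hxV, ?_⟩
      intro u hu
      by_cases hui : r u = i
      · left; rw [hui, hXr x hx]
      · right
        have : u ∈ Y := by rw [hY, Finset.mem_filter]; exact ⟨hu, hui⟩
        rw [hYd, Finset.mem_insert, Finset.mem_singleton] at this
        rcases this with rfl | rfl
        · exact hxd.symm
        · rw [hxd, hcc]
    · have hrr : r d = r d' := by
        by_contra hne; exact hng ⟨hne, hcc⟩
      apply hP
      have hxx : x ≠ x' := by
        rintro rfl
        exact hcc (by rw [← hxd, ← hxd'])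
      -- the fifth element
      have hne : ((X.erase x).erase x').Nonempty := by
        rw [← Finset.card_pos, Finset.card_erase_of_mem, Finset.card_erase_of_mem hx]
        · omega
        · rw [Finset.mem_erase]; exact ⟨fun h => hxx h.symm, hx'⟩
      obtain ⟨y, hy⟩ := hne
      rw [Finset.mem_erase, Finset.mem_erase] at hy
      obtain ⟨hyx', hyx, hyX⟩ := hy
      have hyV : y ∈ V := by rw [hX, Finset.mem_filter] at hyX; exact hyX.1
      have hdV : d ∈ V := by rw [hY, Finset.mem_filter] at hdY; exact hdY.1
      have hdV' : d' ∈ V := by rw [hY, Finset.mem_filter] at hdY'; exact hdY'.1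
      have hdi : r d ≠ i := hYr d hdY
      have hdi' : r d' ≠ i := hYr d' hdY'
      have hneq : ∀ a ∈ X, ∀ b ∈ Y, a ≠ b := by
        rintro a ha b hb rfl
        exact hYr a hb (hXr a ha)
      refine ⟨d, x', d', x, y, ⟨?_, ?_⟩, ⟨?_, ?_⟩, ⟨?_, ?_⟩, ?_, h5⟩
      · rw [hXr x' hx']; exact hdi
      · rw [hxd']; exact hcc
      · exact hrr.symm
      · exact hxd'.symm
      · rw [hXr x hx, hXr x' hx']
      · exact hxd
      · symm
        apply Finset.eq_of_subset_of_card_le
        · intro t ht
          simp only [Finset.mem_insert, Finset.mem_singleton] at ht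
          rcases ht with rfl | rfl | rfl | rfl | rfl <;> assumption
        · rw [h5]
          have hc5 : ({d, x', d', x, y} : Finset U).card = 5 := by
            rw [Finset.card_insert_of_notMem, Finset.card_insert_of_notMem,
              Finset.card_insert_of_notMem, Finset.card_insert_of_notMem,
              Finset.card_singleton]
            · simp only [Finset.mem_singleton]; exact fun h => hyx h.symm
            · simp only [Finset.mem_insert, Finset.mem_singleton, not_or]
              exact ⟨(hneq x hx d' hdY').symm, (hneq y hyX d' hdY').symm⟩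
            · simp only [Finset.mem_insert, Finset.mem_singleton, not_or]
              exact ⟨hneq x' hx' d' hdY', fun h => hxx h.symm, fun h => hyx' h.symm⟩
            · simp only [Finset.mem_insert, Finset.mem_singleton, not_or]
              exact ⟨(hneq x' hx' d hdY).symm, hdd, (hneq x hx d hdY).symm,
                (hneq y hyX d hdY).symm⟩
          omega

lemma caseA2 (V : Finset U) (hV : 5 ≤ V.card) (i : I)
    (hi : V.card ≤ (V.filter (fun u => r u = i)).card + 1) (hQ : QQ r c V) :
    2 * qn r c V ≤ N2 r c V + 2 := by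
  have hb := line_bound r c V i
  set X := V.filter (fun u => r u = i) with hX
  set Y := V.filter (fun u => r u ≠ i) with hY
  have hXr : ∀ x ∈ X, r x = i := by
    intro x hx; rw [hX, Finset.mem_filter] at hx; exact hx.2
  have hXY : X.card + Y.card = V.card := by
    rw [hX, hY]; exact Finset.card_filter_add_card_filter_not _
  have hYne : Y.Nonempty := by
    rw [Finset.nonempty_iff_ne_empty]
    intro h
    apply hQ.1
    intro u hu v hv
    have h' : ∀ u ∈ V, r u = i := by
      intro u hu
      by_contra hne
      have : u ∈ Y := by rw [hY, Finset.mem_filter]; exact ⟨hu, hne⟩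
      rw [h] at this
      exact absurd this (Finset.notMem_empty _)
    rw [h' u hu, h' v hv]
  have hY1 : Y.card = 1 := by
    have := hYne.card_pos
    omega
  obtain ⟨d, hd⟩ := Finset.card_eq_one.mp hY1
  have hdV : d ∈ V := by
    have : d ∈ Y := by rw [hd]; exact Finset.mem_singleton_self d
    rw [hY, Finset.mem_filter] at this; exact this.1
  rw [hd] at hb
  simp only [Finset.sum_singleton] at hb
  have hq : qn r c V ≤ V.card - 1 := by
    unfold qn
    have : V.filter (fun x => QQ r c (V.erase x)) ⊆ V.erase d := by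
      intro x hx
      rw [Finset.mem_filter] at hx
      rw [Finset.mem_erase]
      refine ⟨?_, hx.1⟩
      rintro rfl
      apply hx.2.1
      have h' : ∀ u ∈ V.erase x, r u = i := by
        intro u hu
        by_contra hne
        rw [Finset.mem_erase] at hu
        have : u ∈ Y := by rw [hY, Finset.mem_filter]; exact ⟨hu.2, hne⟩
        rw [hd, Finset.mem_singleton] at this
        exact hu.1 this
      intro u hu v hv
      rw [h' u hu, h' v hv]
    have := Finset.card_le_card this
    rw [Finset.card_erase_of_mem hdV] at this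
    exact this
  have hcol := col_le r c hinj X i hXr d
  omega

lemma caseB2 (V : Finset U) (hV : 5 ≤ V.card) (i : I)
    (hi3 : 3 ≤ (V.filter (fun u => r u = i)).card)
    (hi : (V.filter (fun u => r u = i)).card + 2 ≤ V.card) :
    2 * V.card ≤ N2 r c V + 2 := by
  have hb := line_bound r c V i
  set X := V.filter (fun u => r u = i) with hX
  set Y := V.filter (fun u => r u ≠ i) with hY
  have hXY : X.card + Y.card = V.card := by
    rw [hX, hY]; exact Finset.card_filter_add_card_filter_not _
  have hXr : ∀ x ∈ X, r x = i := by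
    intro x hx; rw [hX, Finset.mem_filter] at hx; exact hx.2
  have hcol : ∀ d, X.card - 1 ≤ (X.filter (fun x => c x ≠ c d)).card := by
    intro d
    have := col_le r c hinj X i hXr d
    omega
  have h1 : Y.card * (X.card - 1) ≤ ∑ d ∈ Y, (X.filter (fun x => c x ≠ c d)).card := by
    rw [← smul_eq_mul]
    exact Finset.card_nsmul_le_sum _ _ _ fun d _ => hcol d
  obtain ⟨a, ha⟩ : ∃ a, Y.card = a + 2 := ⟨Y.card - 2, by omega⟩
  obtain ⟨b, hb'⟩ : ∃ b, X.card = b + 3 := ⟨X.card - 3, by omega⟩
  have h2 : V.card ≤ Y.card * (X.card - 1) + 1 := by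
    rw [← hXY, ha, hb']
    have : b + 3 - 1 = b + 2 := rfl
    rw [this]
    nlinarith [Nat.zero_le (a * b)]
  omega

/-- The weak counting lemma. -/
lemma count_weak (V : Finset U) (hV : 5 ≤ V.card) : 2 * qn r c V ≤ N2 r c V + 2 := by
  by_cases hQ : QQ r c V
  swap
  · rw [qn_eq_zero r c V hQ]; omega
  have hinj' : ∀ u v, c u = c v → r u = r v → u = v := fun u v h1 h2 => hinj u v h2 h1
  by_cases hA : ∃ i, V.card ≤ (V.filter (fun u => r u = i)).card + 1
  · obtain ⟨i, hi⟩ := hA
    exact caseA2 r c hinj V hV i hi hQ
  by_cases hA' : ∃ j, V.card ≤ (V.filter (fun u => c u = j)).card + 1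
  · obtain ⟨j, hj⟩ := hA'
    have := caseA2 c r hinj' V hV j hj ((QQ_comm r c V).mp hQ)
    rw [N2_comm]
    have hqc : qn r c V = qn c r V := by
      unfold qn; congr 1; ext x; simp [QQ_comm r c]
    rw [hqc]; exact this
  by_cases hB : ∃ i, 3 ≤ (V.filter (fun u => r u = i)).card
  · obtain ⟨i, hi⟩ := hB
    push Not at hA
    have := hA i
    have := caseB2 r c hinj V hV i hi (by omega)
    have := qn_le r c V
    omega
  by_cases hB' : ∃ j, 3 ≤ (V.filter (fun u => c u = j)).card
  · obtain ⟨j, hj⟩ := hB'
    push Not at hA'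
    have := hA' j
    have := caseB2 c r hinj' V hV j hj (by omega)
    rw [N2_comm]
    have := qn_le r c V
    omega
  · push Not at hB hB'
    have h1 : ∀ u ∈ V, V.card - 3 ≤ deg r c V u := by
      intro u hu
      have h1 := deg_eq r c hinj V u hu
      have h2 := hB (r u)
      have h3 := hB' (c u)
      omega
    have h2 : V.card * (V.card - 3) ≤ N2 r c V := by
      unfold N2
      rw [← smul_eq_mul]
      exact Finset.card_nsmul_le_sum _ _ _ h1
    have h3 := qn_le r c V
    have h4 : V.card * 2 ≤ V.card * (V.card - 3) := Nat.mul_le_mul_left _ (by omega)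
    omega

/-- The main counting lemma. -/
lemma count_main (V : Finset U) (hV : 5 ≤ V.card) (hC : ¬ (QQ r c V ∧ Cen r c V))
    (hP : ¬ PP r c V) : 2 * qn r c V ≤ N2 r c V := by
  by_cases hQ : QQ r c V
  swap
  · rw [qn_eq_zero r c V hQ]; omega
  have hC' : ¬ Cen r c V := fun h => hC ⟨hQ, h⟩
  have hinj' : ∀ u v, c u = c v → r u = r v → u = v := fun u v h1 h2 => hinj u v h2 h1
  by_cases hA : ∃ i, V.card ≤ (V.filter (fun u => r u = i)).card + 1
  · obtain ⟨i, hi⟩ := hA
    exact caseA r c hinj V hV i hi hQ hC'
  by_cases hA' : ∃ j, V.card ≤ (V.filter (fun u => c u = j)).card + 1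
  · obtain ⟨j, hj⟩ := hA'
    have := caseA c r hinj' V hV j hj ((QQ_comm r c V).mp hQ)
      (fun h => hC' ((Cen_comm r c V).mpr h))
    rw [N2_comm]
    have hqc : qn r c V = qn c r V := by
      unfold qn; congr 1; ext x; simp [QQ_comm r c]
    rw [hqc]; exact this
  by_cases hB : ∃ i, 3 ≤ (V.filter (fun u => r u = i)).card
  · obtain ⟨i, hi⟩ := hB
    push Not at hA
    have := hA i
    have := caseB r c hinj V hV i hi (by omega) hC' hP
    have := qn_le r c V
    omega
  by_cases hB' : ∃ j, 3 ≤ (V.filter (fun u => c u = j)).card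
  · obtain ⟨j, hj⟩ := hB'
    push Not at hA'
    have := hA' j
    have := caseB c r hinj' V hV j hj (by omega) (fun h => hC' ((Cen_comm r c V).mpr h))
      (fun h => hP (PP_comm r c V h))
    rw [N2_comm]
    have := qn_le r c V
    omega
  · push Not at hB hB'
    have h1 : ∀ u ∈ V, V.card - 3 ≤ deg r c V u := by
      intro u hu
      have h1 := deg_eq r c hinj V u hu
      have h2 := hB (r u)
      have h3 := hB' (c u)
      omega
    have h2 : V.card * (V.card - 3) ≤ N2 r c V := by
      unfold N2
      rw [← smul_eq_mul]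
      exact Finset.card_nsmul_le_sum _ _ _ h1
    have h3 := qn_le r c V
    have h4 : V.card * 2 ≤ V.card * (V.card - 3) := Nat.mul_le_mul_left _ (by omega)
    omega

end

end Pool.Agent.Helper28.Rank3
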