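import Pool.Agent.Helper28.Rank3.Core

set_option autoImplicit false
set_option linter.unusedSectionVars false

namespace Pool.Agent.Helper28.Rank3

open Finset

variable {I J : Type*} [Fintype I] [Fintype J] [DecidableEq I] [DecidableEq J]

/-- pairs (row set, column set) of total size at least five -/
def PT (I J : Type*) [Fintype I] [Fintype J] [DecidableEq I] [DecidableEq J] :
    Finset (Finset (I × J) × Finset (I × J)) :=
  univ.filter (fun p => (2 ≤ p.1.card ∧ inL (Prod.fst : I × J → I) p.1) ∧
    (2 ≤ p.2.card ∧ inL (Prod.snd : I × J → J) p.2) ∧ 5 ≤ p.1.card + p.2.card)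

def XX (z : I × J → ℝ) : ℝ := ∑ p ∈ PT I J, ww z p.1 * ww z p.2

/-- row part of `V` through `x` -/
def rp (V : Finset (I × J)) (x : I × J) : Finset (I × J) := V.filter (fun v => v.1 = x.1)
def cp (V : Finset (I × J)) (x : I × J) : Finset (I × J) := V.filter (fun v => v.2 = x.2)

lemma rp_inter_cp (V : Finset (I × J)) (x : I × J) (hx : x ∈ V) : rp V x ∩ cp V x = {x} := by
  ext v
  simp only [rp, cp, Finset.mem_inter, Finset.mem_filter, Finset.mem_singleton]
  constructor
  · rintro ⟨⟨_, h⟩, ⟨_, h'⟩⟩; exact Prod.ext h h'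
  · rintro rfl; exact ⟨⟨hx, rfl⟩, ⟨hx, rfl⟩⟩

/-- `x` is a centre of `V` -/
def ctr (V : Finset (I × J)) (x : I × J) : Prop := x ∈ V ∧ ∀ u ∈ V, u.1 = x.1 ∨ u.2 = x.2

instance (V : Finset (I × J)) (x : I × J) : Decidable (ctr V x) := by
  unfold ctr; infer_instance

lemma rp_union_cp (V : Finset (I × J)) (x : I × J) (hx : ctr V x) : rp V x ∪ cp V x = V := by
  ext v
  simp only [rp, cp, Finset.mem_union, Finset.mem_filter]
  constructor
  · rintro (h | h) <;> exact h.1
  · intro h
    rcases hx.2 v h with h' | h'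
    · left; exact ⟨h, h'⟩
    · right; exact ⟨h, h'⟩

lemma rp_inL (V : Finset (I × J)) (x : I × J) : inL (Prod.fst : I × J → I) (rp V x) := by
  intro u hu v hv
  simp only [rp, Finset.mem_filter] at hu hv
  rw [hu.2, hv.2]

lemma cp_inL (V : Finset (I × J)) (x : I × J) : inL (Prod.snd : I × J → J) (cp V x) := by
  intro u hu v hv
  simp only [cp, Finset.mem_filter] at hu hv
  rw [hu.2, hv.2]

lemma rp_card (V : Finset (I × J)) (x : I × J) (hx : ctr V x) (hQ : QF V) :
    2 ≤ (rp V x).card := by
  have hmem : x ∈ rp V x := by simp [rp, hx.1]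
  by_contra hlt
  push Not at hlt
  have h1 : (rp V x).card ≤ 1 := by omega
  have h2 : rp V x = {x} := by
    symm
    apply Finset.eq_of_subset_of_card_le (Finset.singleton_subset_iff.mpr hmem)
    rw [Finset.card_singleton]; exact h1
  apply hQ.2
  have h3 : ∀ u ∈ V, u.2 = x.2 := by
    intro u hu
    rcases hx.2 u hu with h | h
    · have : u ∈ rp V x := by simp [rp, hu, h]
      rw [h2, Finset.mem_singleton] at this
      rw [this]
    · exact h
  intro u hu v hv
  rw [h3 u hu, h3 v hv]

lemma cp_card (V : Finset (I × J)) (x : I × J) (hx : ctr V x) (hQ : QF V) :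
    2 ≤ (cp V x).card := by
  have hmem : x ∈ cp V x := by simp [cp, hx.1]
  by_contra hlt
  push Not at hlt
  have h1 : (cp V x).card ≤ 1 := by omega
  have h2 : cp V x = {x} := by
    symm
    apply Finset.eq_of_subset_of_card_le (Finset.singleton_subset_iff.mpr hmem)
    rw [Finset.card_singleton]; exact h1
  apply hQ.1
  have h3 : ∀ u ∈ V, u.1 = x.1 := by
    intro u hu
    rcases hx.2 u hu with h | h
    · exact h
    · have : u ∈ cp V x := by simp [cp, hu, h]
      rw [h2, Finset.mem_singleton] at this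
      rw [this]
  intro u hu v hv
  rw [h3 u hu, h3 v hv]

lemma rpcp_card (V : Finset (I × J)) (x : I × J) (hx : ctr V x) :
    (rp V x).card + (cp V x).card = V.card + 1 := by
  have h := Finset.card_union_add_card_inter (rp V x) (cp V x)
  rw [rp_union_cp V x hx, rp_inter_cp V x hx.1, Finset.card_singleton] at h
  omega

/-- first part of the lower bound for `XX` -/
lemma XX1 (z : I × J → ℝ) (hz : ∀ u, 0 ≤ z u) :
    (∑ V : Finset (I × J), if 4 ≤ V.card then
        ww z V * ∑ x ∈ V, (if (QF V ∧ ctr V x) then z x else 0) else 0)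
      ≤ ∑ p ∈ (PT I J).filter (fun p => (p.1 ∩ p.2).Nonempty), ww z p.1 * ww z p.2 := by
  have h1 : (∑ V : Finset (I × J), if 4 ≤ V.card then
        ww z V * ∑ x ∈ V, (if (QF V ∧ ctr V x) then z x else 0) else 0)
      = ∑ p ∈ (univ : Finset (Finset (I × J) × (I × J))).filter
          (fun p => 4 ≤ p.1.card ∧ QF p.1 ∧ ctr p.1 p.2), ww z p.1 * z p.2 := by
    rw [Finset.sum_filter, Fintype.sum_prod_type]
    refine Finset.sum_congr rfl fun V _ => ?_
    simp only
    by_cases h : 4 ≤ V.card
    · rw [if_pos h, Finset.mul_sum]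
      rw [← Finset.sum_subset (Finset.subset_univ V)]
      · refine Finset.sum_congr rfl fun x _ => ?_
        by_cases h' : QF V ∧ ctr V x
        · rw [if_pos h', if_pos ⟨h, h'.1, h'.2⟩]
        · rw [if_neg h', if_neg (fun h'' => h' h''.2), mul_zero]
      · intro x _ hx
        rw [if_neg]; exact fun h' => hx h'.2.2.1
    · rw [if_neg h]
      symm
      apply Finset.sum_eq_zero
      intro x _
      rw [if_neg]; exact fun h' => h h'.1
  rw [h1]
  apply sum_le_of_inj _ _ (fun p => (rp p.1 p.2, cp p.1 p.2))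
  · rintro ⟨V, x⟩ hp
    simp only [Finset.mem_filter, Finset.mem_univ, true_and] at hp
    obtain ⟨h4, hQ, hx⟩ := hp
    simp only [PT, Finset.mem_filter, Finset.mem_univ, true_and]
    have hc := rpcp_card V x hx
    refine ⟨⟨⟨rp_card V x hx hQ, rp_inL V x⟩, ⟨cp_card V x hx hQ, cp_inL V x⟩, by omega⟩, ?_⟩
    rw [rp_inter_cp V x hx.1]
    exact Finset.singleton_nonempty x
  · rintro ⟨V, x⟩ hp ⟨V', x'⟩ hp' h
    simp only [Finset.mem_filter, Finset.mem_univ, true_and] at hp hp'
    obtain ⟨h4, hQ, hx⟩ := hp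
    obtain ⟨h4', hQ', hx'⟩ := hp'
    simp only [Prod.mk.injEq] at h
    have e1 : V = V' := by rw [← rp_union_cp V x hx, ← rp_union_cp V' x' hx', h.1, h.2]
    have e2 : ({x} : Finset (I × J)) = {x'} := by
      rw [← rp_inter_cp V x hx.1, ← rp_inter_cp V' x' hx'.1, h.1, h.2]
    rw [Finset.singleton_inj] at e2
    rw [e1, e2]
  · rintro ⟨V, x⟩ hp
    simp only [Finset.mem_filter, Finset.mem_univ, true_and] at hp
    obtain ⟨h4, hQ, hx⟩ := hp
    simp only
    apply le_of_eq
    have h := Finset.prod_union_inter (s₁ := rp V x) (s₂ := cp V x) (f := z)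
    rw [rp_union_cp V x hx, rp_inter_cp V x hx.1, Finset.prod_singleton] at h
    unfold ww
    exact h
  · rintro ⟨A, B⟩ _
    exact mul_nonneg (ww_nonneg z hz A) (ww_nonneg z hz B)

/-- second part of the lower bound for `XX` -/
lemma XX2 (z : I × J → ℝ) (hz : ∀ u, 0 ≤ z u) [DecidablePred (CF (I := I) (J := J))] :
    (∑ V : Finset (I × J), if 5 ≤ V.card then (if (QF V ∧ CF V) then ww z V else 0) else 0)
      ≤ ∑ p ∈ (PT I J).filter (fun p => ¬ (p.1 ∩ p.2).Nonempty), ww z p.1 * ww z p.2 := by
  classical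
  have h1 : (∑ V : Finset (I × J), if 5 ≤ V.card then
        (if (QF V ∧ CF V) then ww z V else 0) else 0)
      = ∑ V ∈ (univ : Finset (Finset (I × J))).filter
          (fun V => 5 ≤ V.card ∧ QF V ∧ CF V), ww z V := by
    rw [Finset.sum_filter]
    refine Finset.sum_congr rfl fun V _ => ?_
    by_cases h : 5 ≤ V.card
    · by_cases h' : QF V ∧ CF V
      · rw [if_pos h, if_pos h', if_pos ⟨h, h'⟩]
      · rw [if_pos h, if_neg h', if_neg (fun h'' => h' h''.2)]
    · rw [if_neg h, if_neg (fun h'' => h h''.1)]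
  rw [h1]
  -- the chosen centre
  have hcen : ∀ V : Finset (I × J), ∃ x : Option (I × J), CF V → ∃ y, x = some y ∧ ctr V y := by
    intro V
    by_cases h : CF V
    · obtain ⟨a, ha, h'⟩ := h
      exact ⟨some a, fun _ => ⟨a, rfl, ha, h'⟩⟩
    · exact ⟨none, fun h' => absurd h' h⟩
  choose cen hcen using hcen
  let Φ : Finset (I × J) → Finset (I × J) × Finset (I × J) := fun V =>
    match cen V with
    | none => (∅, ∅)
    | some x => if 3 ≤ (rp V x).card then ((rp V x).erase x, cp V x)
        else (rp V x, (cp V x).erase x)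
  -- key properties
  have key : ∀ V : Finset (I × J), 5 ≤ V.card → QF V → CF V →
      Φ V ∈ (PT I J).filter (fun p => ¬ (p.1 ∩ p.2).Nonempty) ∧
        (Φ V).1 ∪ (Φ V).2 = V ∧ (Φ V).1 ∩ (Φ V).2 = ∅ := by
    intro V h5 hQ hC
    obtain ⟨x, hx, hctr⟩ := hcen V hC
    have hΦ : Φ V = if 3 ≤ (rp V x).card then ((rp V x).erase x, cp V x)
        else (rp V x, (cp V x).erase x) := by
      simp only [Φ]
      rw [hx]
    have hc := rpcp_card V x hctr
    have hr2 := rp_card V x hctr hQ
    have hc2 := cp_card V x hctr hQ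
    have hi := rp_inter_cp V x hctr.1
    have hu := rp_union_cp V x hctr
    have hxr : x ∈ rp V x := by simp [rp, hctr.1]
    have hxc : x ∈ cp V x := by simp [cp, hctr.1]
    by_cases h3 : 3 ≤ (rp V x).card
    · rw [if_pos h3] at hΦ
      have hint : (rp V x).erase x ∩ cp V x = ∅ := by
        rw [Finset.erase_inter, hi]; simp
      have hun : (rp V x).erase x ∪ cp V x = V := by
        refine Eq.trans ?_ hu
        ext v
        simp only [Finset.mem_union, Finset.mem_erase]
        constructor
        · rintro (h | h)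
          · left; exact h.2
          · right; exact h
        · rintro (h | h)
          · by_cases hv : v = x
            · right; rw [hv]; exact hxc
            · left; exact ⟨hv, h⟩
          · right; exact h
      rw [hΦ]
      refine ⟨?_, hun, hint⟩
      rw [Finset.mem_filter]
      simp only
      refine ⟨?_, by rw [hint]; simp⟩
      simp only [PT, Finset.mem_filter, Finset.mem_univ, true_and]
      have hce : ((rp V x).erase x).card = (rp V x).card - 1 := Finset.card_erase_of_mem hxr
      refine ⟨⟨by omega, inL_erase _ _ _ (rp_inL V x)⟩, ⟨hc2, cp_inL V x⟩, by omega⟩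
    · rw [if_neg h3] at hΦ
      have hint : rp V x ∩ (cp V x).erase x = ∅ := by
        rw [Finset.inter_erase, hi]; simp
      have hun : rp V x ∪ (cp V x).erase x = V := by
        refine Eq.trans ?_ hu
        ext v
        simp only [Finset.mem_union, Finset.mem_erase]
        constructor
        · rintro (h | h)
          · left; exact h
          · right; exact h.2
        · rintro (h | h)
          · left; exact h
          · by_cases hv : v = x
            · left; rw [hv]; exact hxr
            · right; exact ⟨hv, h⟩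
      rw [hΦ]
      refine ⟨?_, hun, hint⟩
      rw [Finset.mem_filter]
      simp only
      refine ⟨?_, by rw [hint]; simp⟩
      simp only [PT, Finset.mem_filter, Finset.mem_univ, true_and]
      have hce : ((cp V x).erase x).card = (cp V x).card - 1 := Finset.card_erase_of_mem hxc
      refine ⟨⟨hr2, rp_inL V x⟩, ⟨by omega, inL_erase _ _ _ (cp_inL V x)⟩, by omega⟩
  apply sum_le_of_inj _ _ Φ
  · intro V hV
    simp only [Finset.mem_filter, Finset.mem_univ, true_and] at hV
    exact (key V hV.1 hV.2.1 hV.2.2).1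
  · intro V hV V' hV' h
    simp only [Finset.mem_filter, Finset.mem_univ, true_and] at hV hV'
    rw [← (key V hV.1 hV.2.1 hV.2.2).2.1, ← (key V' hV'.1 hV'.2.1 hV'.2.2).2.1, h]
  · intro V hV
    simp only [Finset.mem_filter, Finset.mem_univ, true_and] at hV
    apply le_of_eq
    have hk := key V hV.1 hV.2.1 hV.2.2
    have h := Finset.prod_union_inter (s₁ := (Φ V).1) (s₂ := (Φ V).2) (f := z)
    rw [hk.2.1, hk.2.2, Finset.prod_empty, mul_one] at h
    unfold ww
    exact h
  · rintro ⟨A, B⟩ _
    exact mul_nonneg (ww_nonneg z hz A) (ww_nonneg z hz B)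

lemma dg_ctr (V : Finset (I × J)) (x : I × J) (hx : x ∈ V) (h : dg V x = 0) : ctr V x := by
  refine ⟨hx, fun u hu => ?_⟩
  by_contra hno
  push Not at hno
  unfold dg deg at h
  rw [Finset.card_eq_zero, Finset.filter_eq_empty_iff] at h
  exact h hu ⟨fun h' => hno.1 h'.symm, fun h' => hno.2 h'.symm⟩

/-- The part of degree at least five. -/
theorem high (z : I × J → ℝ) (hz : ∀ u, 0 ≤ z u) :
    Q4 z * (∑ u, z u) ≤ XX z + NN z * E3 z := by
  classical
  have hX : XX z = (∑ p ∈ (PT I J).filter (fun p => (p.1 ∩ p.2).Nonempty), ww z p.1 * ww z p.2)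
      + ∑ p ∈ (PT I J).filter (fun p => ¬ (p.1 ∩ p.2).Nonempty), ww z p.1 * ww z p.2 := by
    unfold XX
    exact (Finset.sum_filter_add_sum_filter_not (PT I J) _ _).symm
  have h1 := XX1 z hz
  have h2 := XX2 z hz
  have h3 := partC z hz
  have h4 := NE3 z
  have h5 := Q4s z
  -- termwise comparison in degree 4 sums
  have h6 : (∑ V : Finset (I × J), if 4 ≤ V.card then
        ww z V * ∑ x ∈ V, (if QF V then z x else 0) else 0)
      ≤ (∑ V : Finset (I × J), if 4 ≤ V.card then
        ww z V * ∑ x ∈ V, (if (QF V ∧ ctr V x) then z x else 0) else 0)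
        + ∑ V : Finset (I × J), if 4 ≤ V.card then
          ww z V * ∑ x ∈ V, z x * (dg V x : ℝ) else 0 := by
    rw [← Finset.sum_add_distrib]
    refine Finset.sum_le_sum fun V _ => ?_
    by_cases h : 4 ≤ V.card
    · rw [if_pos h, if_pos h, if_pos h, ← mul_add, ← Finset.sum_add_distrib]
      apply mul_le_mul_of_nonneg_left _ (ww_nonneg z hz V)
      refine Finset.sum_le_sum fun x hx => ?_
      by_cases hQ : QF V
      · by_cases hd : dg V x = 0
        · rw [if_pos hQ, if_pos ⟨hQ, dg_ctr V x hx hd⟩, hd]; simp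
        · rw [if_pos hQ]
          have hd1 : (1 : ℝ) ≤ (dg V x : ℝ) := by exact_mod_cast Nat.one_le_iff_ne_zero.mpr hd
          have : z x * 1 ≤ z x * (dg V x : ℝ) := mul_le_mul_of_nonneg_left hd1 (hz x)
          split_ifs
          · linarith [hz x]
          · linarith
      · rw [if_neg hQ, if_neg (fun h' => hQ h'.1)]
        have := mul_nonneg (hz x) (Nat.cast_nonneg (α := ℝ) (dg V x))
        linarith
    · simp [h]
  -- termwise comparison of the square free parts
  have h7 : 2 * (∑ V : Finset (I × J), if 5 ≤ V.card then ww z V * (qqn V : ℝ) else 0)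
      ≤ (∑ V : Finset (I × J), if 5 ≤ V.card then ww z V * (nn2 V : ℝ) else 0)
        + 2 * (∑ V : Finset (I × J), if 5 ≤ V.card then
            (if (QF V ∧ CF V) then ww z V else 0) else 0)
        + 2 * (∑ V : Finset (I × J), if PF V then ww z V else 0) := by
    rw [Finset.mul_sum, Finset.mul_sum, Finset.mul_sum, ← Finset.sum_add_distrib,
      ← Finset.sum_add_distrib]
    refine Finset.sum_le_sum fun V _ => ?_
    have hw := ww_nonneg z hz V
    have hPn : (0 : ℝ) ≤ if PF V then ww z V else 0 := by split_ifs <;> simp [hw]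
    by_cases h : 5 ≤ V.card
    · rw [if_pos h, if_pos h, if_pos h]
      have hinj : ∀ u v : I × J, u.1 = v.1 → u.2 = v.2 → u = v := fun u v h1 h2 => Prod.ext h1 h2
      by_cases hC : QF V ∧ CF V
      · have hcw : 2 * qqn V ≤ nn2 V + 2 := count_weak Prod.fst Prod.snd hinj V h
        have hcw' : (2 : ℝ) * (qqn V : ℝ) ≤ (nn2 V : ℝ) + 2 := by exact_mod_cast hcw
        rw [if_pos hC]
        have := mul_le_mul_of_nonneg_left hcw' hw
        linarith
      · rw [if_neg hC]
        by_cases hP : PF V
        · have hcw : 2 * qqn V ≤ nn2 V + 2 := count_weak Prod.fst Prod.snd hinj V h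
          have hcw' : (2 : ℝ) * (qqn V : ℝ) ≤ (nn2 V : ℝ) + 2 := by exact_mod_cast hcw
          rw [if_pos hP]
          have := mul_le_mul_of_nonneg_left hcw' hw
          linarith
        · have hcw : 2 * qqn V ≤ nn2 V := count_main Prod.fst Prod.snd hinj V h hC hP
          have hcw' : (2 : ℝ) * (qqn V : ℝ) ≤ (nn2 V : ℝ) := by exact_mod_cast hcw
          rw [if_neg hP]
          have := mul_le_mul_of_nonneg_left hcw' hw
          linarith
    · rw [if_neg h, if_neg h, if_neg h]; linarith
  linarith

end Pool.Agent.Helper28.Rank3
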