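import Mathlib

set_option autoImplicit false
set_option linter.unusedSectionVars false

namespace Pool.Agent.Helper28.Rank3

open Finset

variable {I J : Type*} [Fintype I] [Fintype J] [DecidableEq I] [DecidableEq J]

/-- indicator of being in the same row -/
def rr (u v : I × J) : ℝ := if u.1 = v.1 then 1 else 0

/-- indicator of being in the same column -/
def cc (u v : I × J) : ℝ := if u.2 = v.2 then 1 else 0

/-- row sum through a cell -/
def ra (z : I × J → ℝ) (u : I × J) : ℝ := ∑ v, z v * rr u v

/-- column sum through a cell -/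
def ca (z : I × J → ℝ) (u : I × J) : ℝ := ∑ v, z v * cc u v

/-- triple sum -/
def EE (z : I × J → ℝ) (m : I × J → I × J → I × J → ℝ) : ℝ :=
  ∑ u, ∑ v, ∑ w, z u * z v * z w * m u v w

lemma EE_add (z : I × J → ℝ) (m n : I × J → I × J → I × J → ℝ) :
    EE z (fun u v w => m u v w + n u v w) = EE z m + EE z n := by
  simp only [EE, mul_add, Finset.sum_add_distrib]

lemma EE_sub (z : I × J → ℝ) (m n : I × J → I × J → I × J → ℝ) :
    EE z (fun u v w => m u v w - n u v w) = EE z m - EE z n := by
  simp only [EE, mul_sub, Finset.sum_sub_distrib]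

lemma EE_smul (z : I × J → ℝ) (c : ℝ) (m : I × J → I × J → I × J → ℝ) :
    EE z (fun u v w => c * m u v w) = c * EE z m := by
  simp only [EE, Finset.mul_sum]
  refine Finset.sum_congr rfl fun u _ => Finset.sum_congr rfl fun v _ =>
    Finset.sum_congr rfl fun w _ => by ring

lemma EE_swap12 (z : I × J → ℝ) (m : I × J → I × J → I × J → ℝ) :
    EE z (fun u v w => m v u w) = EE z m := by
  unfold EE
  rw [Finset.sum_comm]
  refine Finset.sum_congr rfl fun u _ => Finset.sum_congr rfl fun v _ =>
    Finset.sum_congr rfl fun w _ => by ring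

lemma EE_swap23 (z : I × J → ℝ) (m : I × J → I × J → I × J → ℝ) :
    EE z (fun u v w => m u w v) = EE z m := by
  unfold EE
  refine Finset.sum_congr rfl fun u _ => ?_
  rw [Finset.sum_comm]
  refine Finset.sum_congr rfl fun v _ =>
    Finset.sum_congr rfl fun w _ => by ring

/-- product form, centred at `u` -/
lemma EE_center (z : I × J → ℝ) (f : I × J → ℝ) (g h : I × J → I × J → ℝ) :
    EE z (fun u v w => f u * g u v * h u w)
      = ∑ u, z u * f u * (∑ v, z v * g u v) * (∑ w, z w * h u w) := by
  unfold EE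
  refine Finset.sum_congr rfl fun u _ => ?_
  have h1 : ∀ v : I × J, ∑ w, z u * z v * z w * (f u * g u v * h u w)
      = z u * f u * (z v * g u v) * ∑ w, z w * h u w := by
    intro v
    rw [Finset.mul_sum]
    refine Finset.sum_congr rfl fun w _ => by ring
  simp only [h1]
  rw [← Finset.sum_mul, ← Finset.mul_sum]

lemma rr_comm (u v : I × J) : rr u v = rr v u := by
  unfold rr; simp only [eq_comm]

lemma cc_comm (u v : I × J) : cc u v = cc v u := by
  unfold cc; simp only [eq_comm]

lemma sum_rrcc (z : I × J → ℝ) (u : I × J) : ∑ v, z v * (rr u v * cc u v) = z u := by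
  rw [Finset.sum_eq_single u]
  · simp [rr, cc]
  · intro v _ hv
    have : ¬ (u.1 = v.1 ∧ u.2 = v.2) := by
      rintro ⟨h1, h2⟩
      exact hv (Prod.ext h1.symm h2.symm)
    unfold rr cc
    by_cases h1 : u.1 = v.1
    · have h2 : u.2 ≠ v.2 := fun h => this ⟨h1, h⟩
      simp [h2]
    · simp [h1]
  · simp

lemma ind3 {K : Type*} [DecidableEq K] (a b c : K) :
    (0 : ℝ) ≤ 1 - (if a = b then 1 else 0) - (if a = c then 1 else 0) - (if b = c then 1 else 0)
      + 2 * ((if a = b then 1 else 0) * (if a = c then 1 else 0)) := by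
  by_cases h1 : a = b
  · subst h1
    by_cases h2 : a = c
    · subst h2; simp; norm_num
    · simp [h2]
  · by_cases h2 : a = c
    · subst h2
      have h3 : ¬ b = a := fun h => h1 h.symm
      simp [h1, h3]
    · by_cases h3 : b = c
      · subst h3; simp [h1]
      · simp [h1, h2, h3]

lemma EE_cen2 (z : I × J → ℝ) (g h : I × J → I × J → ℝ) :
    EE z (fun u v w => g u v * h u w)
      = ∑ u, z u * (∑ v, z v * g u v) * (∑ w, z w * h u w) := by
  have := EE_center z (fun _ => 1) g h
  simp only [mul_one, one_mul] at this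
  exact this

lemma EE_one (z : I × J → ℝ) : EE z (fun _ _ _ => 1) = (∑ u, z u) ^ 3 := by
  have := EE_center z (fun _ => 1) (fun _ _ => 1) (fun _ _ => 1)
  simp only [mul_one] at this
  rw [this, ← Finset.sum_mul, ← Finset.sum_mul]; ring

lemma EE_p12 (z : I × J → ℝ) (g : I × J → I × J → ℝ) :
    EE z (fun u v _ => g u v) = (∑ u, z u) * ∑ u, z u * (∑ v, z v * g u v) := by
  have := EE_center z (fun _ => 1) g (fun _ _ => 1)
  simp only [mul_one, one_mul] at this
  rw [this, ← Finset.sum_mul]; ring

lemma EE_p13 (z : I × J → ℝ) (g : I × J → I × J → ℝ) :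
    EE z (fun u _ w => g u w) = (∑ u, z u) * ∑ u, z u * (∑ v, z v * g u v) := by
  rw [← EE_p12 z g]
  exact EE_swap23 z (fun u v _ => g u v)

lemma EE_p23 (z : I × J → ℝ) (g : I × J → I × J → ℝ) :
    EE z (fun _ v w => g v w) = (∑ u, z u) * ∑ u, z u * (∑ v, z v * g u v) := by
  rw [← EE_p13 z g]
  exact EE_swap12 z (fun u _ w => g u w)

lemma EE_t1 (z : I × J → ℝ) (g h : I × J → I × J → ℝ) :
    EE z (fun u v w => g u w * h u v)
      = ∑ u, z u * (∑ v, z v * h u v) * (∑ w, z w * g u w) := by
  rw [← EE_cen2 z h g]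
  congr 1; funext u v w; ring

lemma EE_d1 (z : I × J → ℝ) : EE z (fun u v w => (rr v w * cc v w) * cc v u)
    = ∑ u, z u * z u * ca z u := by
  have := EE_swap12 z (fun u v w => (rr u w * cc u w) * cc u v)
  rw [this, EE_t1 z (fun u w => rr u w * cc u w) (fun u v => cc u v)]
  simp only [sum_rrcc]
  refine Finset.sum_congr rfl fun u _ => ?_
  rw [ca]; ring

lemma EE_d2 (z : I × J → ℝ) : EE z (fun u v w => (rr v w * cc v w) * rr v u)
    = ∑ u, z u * z u * ra z u := by
  have := EE_swap12 z (fun u v w => (rr u w * cc u w) * rr u v)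
  rw [this, EE_t1 z (fun u w => rr u w * cc u w) (fun u v => rr u v)]
  simp only [sum_rrcc]
  refine Finset.sum_congr rfl fun u _ => ?_
  rw [ra]; ring

/-- Number of pairwise generic ordered triples is nonnegative, in closed form. -/
lemma T3g_nonneg (z : I × J → ℝ) (hz : ∀ u, 0 ≤ z u) :
    0 ≤ (∑ u, z u) ^ 3 - 3 * (∑ u, z u) * (∑ u, z u * ra z u)
        - 3 * (∑ u, z u) * (∑ u, z u * ca z u)
        + 2 * (∑ u, z u * ra z u ^ 2) + 2 * (∑ u, z u * ca z u ^ 2)
        + 3 * (∑ u, z u) * (∑ u, z u * z u)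
        + 6 * (∑ u, z u * ra z u * ca z u)
        - 6 * (∑ u, z u * z u * ra z u) - 6 * (∑ u, z u * z u * ca z u)
        + 4 * (∑ u, z u * z u * z u) := by
  have hE : 0 ≤ EE z (fun u v w =>
      (1 - rr u v - rr u w - rr v w + 2 * (rr u v * rr u w)) *
          (1 - cc u v - cc u w - cc v w + 2 * (cc u v * cc u w))) := by
    unfold EE
    refine Finset.sum_nonneg fun u _ => Finset.sum_nonneg fun v _ => Finset.sum_nonneg fun w _ => ?_
    exact mul_nonneg (mul_nonneg (mul_nonneg (hz u) (hz v)) (hz w))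
      (mul_nonneg (ind3 u.1 v.1 w.1) (ind3 u.2 v.2 w.2))
  -- basic evaluations
  have e1 : EE z (fun _ _ _ => 1) = (∑ u, z u) ^ 3 := by
    have := EE_center z (fun _ => 1) (fun _ _ => 1) (fun _ _ => 1)
    simp only [mul_one] at this
    rw [this, ← Finset.sum_mul, ← Finset.sum_mul]; ring
  have cen : ∀ g : I × J → I × J → ℝ,
      EE z (fun u v _ => g u v) = (∑ u, z u) * ∑ u, z u * (∑ v, z v * g u v) := by
    intro g
    have := EE_center z (fun _ => 1) g (fun _ _ => 1)
    simp only [mul_one, one_mul] at this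
    rw [this, ← Finset.sum_mul]; ring
  have cen2 : ∀ g h : I × J → I × J → ℝ,
      EE z (fun u v w => g u v * h u w)
        = ∑ u, z u * (∑ v, z v * g u v) * (∑ w, z w * h u w) := by
    intro g h
    have := EE_center z (fun _ => 1) g h
    simp only [mul_one, one_mul] at this
    exact this
  -- pair terms, three positions
  have pair12 : ∀ g : I × J → I × J → ℝ,
      EE z (fun u v _ => g u v) = (∑ u, z u) * ∑ u, z u * (∑ v, z v * g u v) := cen
  have pair13 : ∀ g : I × J → I × J → ℝ,
      EE z (fun u _ w => g u w) = (∑ u, z u) * ∑ u, z u * (∑ v, z v * g u v) := by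
    intro g
    rw [← cen g]
    exact EE_swap23 z (fun u v _ => g u v)
  have pair23 : ∀ g : I × J → I × J → ℝ,
      EE z (fun _ v w => g v w) = (∑ u, z u) * ∑ u, z u * (∑ v, z v * g u v) := by
    intro g
    rw [← pair13 g]
    exact EE_swap12 z (fun u _ w => g u w)
  -- two-pair terms
  have t1 : ∀ g h : I × J → I × J → ℝ,
      EE z (fun u v w => g u w * h u v)
        = ∑ u, z u * (∑ v, z v * h u v) * (∑ w, z w * g u w) := by
    intro g h
    rw [← cen2 h g]
    congr 1; funext u v w; ring
  have t2 : ∀ g h : I × J → I × J → ℝ,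
      EE z (fun u v w => g v u * h v w)
        = ∑ u, z u * (∑ v, z v * g u v) * (∑ w, z w * h u w) := by
    intro g h
    rw [← cen2 g h]
    exact EE_swap12 z (fun u v w => g u v * h u w)
  have t3 : ∀ g h : I × J → I × J → ℝ,
      EE z (fun u v w => g w u * h w v)
        = ∑ u, z u * (∑ v, z v * g u v) * (∑ w, z w * h u w) := by
    intro g h
    rw [← t2 g h]
    exact EE_swap23 z (fun u v w => g v u * h v w)
  have expand : (fun u v w : I × J =>
      (1 - rr u v - rr u w - rr v w + 2 * (rr u v * rr u w)) *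
          (1 - cc u v - cc u w - cc v w + 2 * (cc u v * cc u w)))
      = fun u v w : I × J =>
        (1 - cc u v - cc u w - cc v w - rr u v - rr u w - rr v w)
        + ((rr u v * cc u v) + (rr u w * cc u w) + (rr v w * cc v w))
        + ((rr u v * cc u w) + (rr u w * cc u v))
        + ((rr v u * cc v w) + (cc v u * rr v w))
        + ((rr w u * cc w v) + (cc w u * rr w v))
        + 2 * (rr u v * rr u w) + 2 * (cc u v * cc u w)
        - 2 * ((rr u v * cc u v) * cc u w) - 2 * (cc u v * (rr u w * cc u w))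
        - 2 * ((rr u v * cc u v) * rr u w) - 2 * (rr u v * (rr u w * cc u w))
        - 2 * (rr v w * (cc u v * cc u w)) - 2 * (cc v w * (rr u v * rr u w))
        + 4 * ((rr u v * cc u v) * (rr u w * cc u w)) := by
    funext u v w
    rw [rr_comm v u, cc_comm v u, rr_comm w u, cc_comm w u, rr_comm w v, cc_comm w v]
    ring
  have hrr : ∀ u v w : I × J, rr v w * (cc u v * cc u w) = (rr v w * cc v w) * cc v u := by
    intro u v w
    unfold cc
    by_cases h1 : u.2 = v.2
    · simp [h1]
    · have h2 : ¬ v.2 = u.2 := fun h => h1 h.symm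
      simp [h1, h2]
  have hcc : ∀ u v w : I × J, cc v w * (rr u v * rr u w) = (rr v w * cc v w) * rr v u := by
    intro u v w
    unfold rr
    by_cases h1 : u.1 = v.1
    · simp [h1]
    · have h2 : ¬ v.1 = u.1 := fun h => h1 h.symm
      simp [h1, h2]
  rw [expand] at hE
  simp only [hrr, hcc] at hE
  simp only [EE_add, EE_sub, EE_smul] at hE
  have c1 : EE z (fun u v w => (rr v w * cc v w) * cc v u)
      = ∑ u, z u * z u * ca z u := by
    have := EE_swap12 z (fun u v w => (rr u w * cc u w) * cc u v)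
    rw [this, t1 (fun u w => rr u w * cc u w) (fun u v => cc u v)]
    simp only [sum_rrcc]
    refine Finset.sum_congr rfl fun u _ => ?_
    rw [ca]; ring
  have c2 : EE z (fun u v w => (rr v w * cc v w) * rr v u)
      = ∑ u, z u * z u * ra z u := by
    have := EE_swap12 z (fun u v w => (rr u w * cc u w) * rr u v)
    rw [this, t1 (fun u w => rr u w * cc u w) (fun u v => rr u v)]
    simp only [sum_rrcc]
    refine Finset.sum_congr rfl fun u _ => ?_
    rw [ra]; ring
  rw [c1, c2, e1, pair12 cc, pair13 cc, pair23 cc, pair12 rr, pair13 rr, pair23 rr,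
    pair12 (fun u v => rr u v * cc u v), pair13 (fun u v => rr u v * cc u v),
    pair23 (fun u v => rr u v * cc u v), cen2 rr cc, t1 rr cc, t2 rr cc, t2 cc rr,
    t3 rr cc, t3 cc rr, cen2 rr rr, cen2 cc cc, cen2 (fun u v => rr u v * cc u v) cc,
    cen2 cc (fun u v => rr u v * cc u v), cen2 (fun u v => rr u v * cc u v) rr,
    cen2 rr (fun u v => rr u v * cc u v),
    cen2 (fun u v => rr u v * cc u v) (fun u v => rr u v * cc u v)] at hE
  simp only [sum_rrcc] at hE
  have hra : ∀ u, ∑ v, z v * rr u v = ra z u := fun u => rfl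
  have hca : ∀ u, ∑ v, z v * cc u v = ca z u := fun u => rfl
  simp only [hra, hca] at hE
  have n1 : ∑ u, z u * ca z u * ra z u = ∑ u, z u * ra z u * ca z u :=
    Finset.sum_congr rfl fun u _ => by ring
  have n2 : ∑ u, z u * ra z u * ra z u = ∑ u, z u * ra z u ^ 2 :=
    Finset.sum_congr rfl fun u _ => by ring
  have n3 : ∑ u, z u * ca z u * ca z u = ∑ u, z u * ca z u ^ 2 :=
    Finset.sum_congr rfl fun u _ => by ring
  have n4 : ∑ u, z u * ca z u * z u = ∑ u, z u * z u * ca z u :=
    Finset.sum_congr rfl fun u _ => by ring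
  have n5 : ∑ u, z u * ra z u * z u = ∑ u, z u * z u * ra z u :=
    Finset.sum_congr rfl fun u _ => by ring
  simp only [n1, n2, n3, n4, n5] at hE
  linarith

end Pool.Agent.Helper28.Rank3
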