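import Pool.Agent.Helper28.Rank3.Reduce

set_option autoImplicit false
set_option linter.unusedSectionVars false

namespace Pool.Agent.Helper28.Rank3

open Finset

section
variable {α K : Type*} [DecidableEq α] [Fintype K] [DecidableEq K]

lemma merge_if (π : α → K) (z : α → ℝ) (S : Finset α) (φ : Finset K → Prop) [DecidablePred φ] :
    ∑ B ∈ S.powerset, (if φ (B.image π) then ∏ p ∈ B, z p else 0)
      = ∑ A : Finset K, if φ A then ∏ u ∈ A, Zc π z S u else 0 := by
  have := merge π z S (fun A => if φ A then 1 else 0)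
  simpa only [ite_mul, one_mul, zero_mul] using this

lemma prod_identity (S : Finset α) (z : α → ℝ) (a b : α → Prop) [DecidablePred a]
    [DecidablePred b] : (∏ p ∈ S, (1 + z p)) * ∏ p ∈ S.filter (fun p => a p ∧ b p), (1 + z p)
      = (∏ p ∈ S.filter (fun p => a p), (1 + z p)) * (∏ p ∈ S.filter (fun p => b p), (1 + z p))
        * ∏ p ∈ S.filter (fun p => ¬ a p ∧ ¬ b p), (1 + z p) := by
  rw [Finset.prod_filter, Finset.prod_filter, Finset.prod_filter, Finset.prod_filter,
    ← Finset.prod_mul_distrib, ← Finset.prod_mul_distrib, ← Finset.prod_mul_distrib]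
  refine Finset.prod_congr rfl fun p _ => ?_
  by_cases h1 : a p <;> by_cases h2 : b p <;> simp [h1, h2]

/-- the final arithmetic -/
lemma final_arith (P s N y a a0 a1 a2 a3 ρ κ nb : ℝ) (hP : 0 ≤ P) (hs : 0 ≤ s) (hN : 0 ≤ N)
    (hy0 : 0 ≤ y) (ha : 0 < a) (ha1 : 0 < a1) (ha2 : 0 < a2) (ha3 : 0 < a3) (hρ : 0 ≤ ρ)
    (hκ : 0 ≤ κ) (hprod : a * a0 = a1 * a2 * a3) (hy : (1 - y) * a3 ≤ 1)
    (hmat : P * (s - N) ≤ ρ * κ) (hnb : N * a0 + s * (y * a0) ≤ nb) :
    P * a * (s * a0 - nb) ≤ ρ * a1 * (κ * a2) := by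
  have step : P * a * (s * a0 - nb) ≤ P * a * (s * a0 - (N * a0 + s * (y * a0))) := by
    apply mul_le_mul_of_nonneg_left _ (mul_nonneg hP ha.le)
    linarith
  refine step.trans ?_
  have e1 : P * a * (s * a0 - (N * a0 + s * (y * a0)))
      = (a1 * a2) * (P * (a3 * (s - N - s * y))) := by
    calc P * a * (s * a0 - (N * a0 + s * (y * a0)))
        = P * (a * a0) * (s - N - s * y) := by ring
      _ = P * (a1 * a2 * a3) * (s - N - s * y) := by rw [hprod]
      _ = _ := by ring
  have e2 : ρ * a1 * (κ * a2) = (a1 * a2) * (ρ * κ) := by ring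
  rw [e1, e2]
  apply mul_le_mul_of_nonneg_left _ (mul_nonneg ha1.le ha2.le)
  rcases le_or_gt (s - N - s * y) 0 with hneg | hpos
  · have : P * (a3 * (s - N - s * y)) ≤ 0 :=
      mul_nonpos_of_nonneg_of_nonpos hP (mul_nonpos_of_nonneg_of_nonpos ha3.le hneg)
    exact this.trans (mul_nonneg hρ hκ)
  · have hsN : 0 ≤ s - N := by
      have := mul_nonneg hs hy0
      linarith
    refine le_trans ?_ hmat
    apply mul_le_mul_of_nonneg_left _ hP
    have h1 : s - N - s * y ≤ (s - N) * (1 - y) := by
      have := mul_nonneg hN hy0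
      nlinarith
    calc a3 * (s - N - s * y) ≤ a3 * ((s - N) * (1 - y)) :=
          mul_le_mul_of_nonneg_left h1 ha3.le
      _ = (s - N) * ((1 - y) * a3) := by ring
      _ ≤ (s - N) * 1 := mul_le_mul_of_nonneg_left hy hsN
      _ = s - N := mul_one _

lemma Zc_nonneg (π : α → K) (z : α → ℝ) (hz : ∀ p, 0 ≤ z p) (S : Finset α) (u : K) :
    0 ≤ Zc π z S u := by
  unfold Zc
  have : (1 : ℝ) ≤ ∏ p ∈ S.filter (fun p => π p = u), (1 + z p) := by
    calc (1 : ℝ) = ∏ p ∈ S.filter (fun p => π p = u), 1 := by simp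
      _ ≤ _ := Finset.prod_le_prod (fun _ _ => zero_le_one) (fun p _ => by linarith [hz p])
  linarith

end

section
variable {α : Type*} [Fintype α] [DecidableEq α] (M : Matroid α)

open Classical in
/-- Rank three: the core inequality. -/
lemma core3 (hE : M.E = Set.univ) (h3 : M.eRank = 3) {e f : α} (hef : M.Indep {e, f})
    (hne : e ≠ f) (z : α → ℝ) (hz : ∀ x, 0 ≤ z x) :
    (∑ A ∈ ((univ.erase e).erase f).powerset,
        if M.Spanning (insert e (insert f (A : Set α))) then ∏ p ∈ A, z p else 0) *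
      ((∑ A ∈ ((univ.erase e).erase f).powerset,
          if (M.Spanning (insert e (insert f (A : Set α))) ∧ ¬ M.Spanning (insert e (A : Set α))
            ∧ ¬ M.Spanning (insert f (A : Set α))) then ∏ p ∈ A, z p else 0)
        - ∑ A ∈ ((univ.erase e).erase f).powerset,
          if (M.Spanning (insert e (A : Set α)) ∧ M.Spanning (insert f (A : Set α))
            ∧ ¬ M.Spanning (A : Set α)) then ∏ p ∈ A, z p else 0)
      ≤ (∑ A ∈ ((univ.erase e).erase f).powerset,
          if (M.Spanning (insert e (insert f (A : Set α))) ∧ ¬ M.Spanning (insert e (A : Set α)))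
            then ∏ p ∈ A, z p else 0)
        * (∑ A ∈ ((univ.erase e).erase f).powerset,
          if (M.Spanning (insert e (insert f (A : Set α))) ∧ ¬ M.Spanning (insert f (A : Set α)))
            then ∏ p ∈ A, z p else 0) := by
  set E' := (univ.erase e).erase f with hE'
  set L := M.closure {e, f} with hL
  set O := E'.filter (fun p => p ∉ L) with hO
  set K := E'.filter (fun p => ¬ p ∉ L) with hK
  have hOK : O ∪ K = E' := Finset.filter_union_filter_not_eq _ _
  have hdis : Disjoint O K := Finset.disjoint_filter_filter_not _ _ _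
  have hfe : M.Indep {f, e} := by rw [Set.pair_comm]; exact hef
  have hLc : M.closure {f, e} = L := by rw [Set.pair_comm]
  set K0 := K.filter (fun p => p ∈ M.closure {e} ∧ p ∈ M.closure {f}) with hK0
  set K1 := K.filter (fun p => p ∈ M.closure {e}) with hK1
  set K2 := K.filter (fun p => p ∈ M.closure {f}) with hK2
  set K3 := K.filter (fun p => p ∉ M.closure {e} ∧ p ∉ M.closure {f}) with hK3
  have memO : ∀ p ∈ O, p ∉ L := fun p hp => (Finset.mem_filter.mp hp).2
  have memK : ∀ p ∈ K, p ∈ L := fun p hp => not_not.mp (Finset.mem_filter.mp hp).2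
  set π : α → Set α × Set α := fun p => (M.closure {e, p}, M.closure {f, p}) with hπ
  set Z := Zc π z O with hZ
  have hZ0 : ∀ u, 0 ≤ Z u := fun u => Zc_nonneg π z hz O u
  -- characterisations
  have cs : ∀ (B C : Finset α), ((B ∪ C : Finset α) : Set α) = (B : Set α) ∪ (C : Set α) :=
    fun B C => Finset.coe_union B C
  have k1 : ∀ B ∈ O.powerset, ∀ C ∈ K.powerset,
      (M.Spanning (insert e (insert f ((B ∪ C : Finset α) : Set α))) ↔ B.Nonempty) := by
    intro B hB C hC
    rw [Finset.mem_powerset] at hB hC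
    rw [span_both hE h3 hef hne]
    constructor
    · rintro ⟨p, hp, hp'⟩
      rw [Finset.mem_coe, Finset.mem_union] at hp
      rcases hp with hp | hp
      · exact ⟨p, hp⟩
      · exact absurd (memK p (hC hp)) hp'
    · rintro ⟨p, hp⟩
      exact ⟨p, by simp [hp], memO p (hB hp)⟩
  have k2 : ∀ B ∈ O.powerset, ∀ C ∈ K.powerset, B.Nonempty →
      (¬ M.Spanning (insert e ((B ∪ C : Finset α) : Set α)) ↔
        (inL (Prod.fst : Set α × Set α → Set α) (B.image π) ∧ C ⊆ K1)) := by
    intro B hB C hC hBne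
    rw [Finset.mem_powerset] at hB hC
    obtain ⟨p, hp⟩ := hBne
    rw [not_span_insert hE h3 hef hne (p := p) (by simp [hp]) (memO p (hB hp))]
    constructor
    · intro h
      constructor
      · have key : ∀ u ∈ B.image π, u.1 = M.closure {e, p} := by
          intro u hu
          rw [Finset.mem_image] at hu
          obtain ⟨q, hq, rfl⟩ := hu
          exact (row_iff hE hef hne (memO p (hB hp)) (memO q (hB hq))).mp (h (by simp [hq]))
        intro u hu v hv
        rw [key u hu, key v hv]
      · intro q hq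
        rw [hK1, Finset.mem_filter]
        exact ⟨hC hq, on_line hE hef hne (memO p (hB hp)) (memK q (hC hq)) (h (by simp [hq]))⟩
    · rintro ⟨h, h'⟩ q hq
      rw [Finset.mem_coe, Finset.mem_union] at hq
      rcases hq with hq | hq
      · rw [row_iff hE hef hne (memO p (hB hp)) (memO q (hB hq))]
        exact h (π q) (Finset.mem_image_of_mem _ hq) (π p) (Finset.mem_image_of_mem _ hp)
      · have := h' hq
        rw [hK1, Finset.mem_filter] at this
        exact M.closure_subset_closure (by simp) this.2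
  have k3 : ∀ B ∈ O.powerset, ∀ C ∈ K.powerset, B.Nonempty →
      (¬ M.Spanning (insert f ((B ∪ C : Finset α) : Set α)) ↔
        (inL (Prod.snd : Set α × Set α → Set α) (B.image π) ∧ C ⊆ K2)) := by
    intro B hB C hC hBne
    rw [Finset.mem_powerset] at hB hC
    obtain ⟨p, hp⟩ := hBne
    have memO' : ∀ p ∈ O, p ∉ M.closure {f, e} := by rw [hLc]; exact memO
    rw [not_span_insert hE h3 hfe hne.symm (p := p) (by simp [hp]) (memO' p (hB hp))]
    constructor
    · intro h
      constructor
      · have key : ∀ u ∈ B.image π, u.2 = M.closure {f, p} := by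
          intro u hu
          rw [Finset.mem_image] at hu
          obtain ⟨q, hq, rfl⟩ := hu
          exact (row_iff hE hfe hne.symm (memO' p (hB hp)) (memO' q (hB hq))).mp (h (by simp [hq]))
        intro u hu v hv
        rw [key u hu, key v hv]
      · intro q hq
        rw [hK2, Finset.mem_filter]
        exact ⟨hC hq, on_line hE hfe hne.symm (memO' p (hB hp)) (by rw [hLc]; exact memK q (hC hq))
          (h (by simp [hq]))⟩
    · rintro ⟨h, h'⟩ q hq
      rw [Finset.mem_coe, Finset.mem_union] at hq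
      rcases hq with hq | hq
      · rw [row_iff hE hfe hne.symm (memO' p (hB hp)) (memO' q (hB hq))]
        exact h (π q) (Finset.mem_image_of_mem _ hq) (π p) (Finset.mem_image_of_mem _ hp)
      · have := h' hq
        rw [hK2, Finset.mem_filter] at this
        exact M.closure_subset_closure (by simp) this.2
  have hK0K : K0 ⊆ K := Finset.filter_subset _ _
  have hK1K : K1 ⊆ K := Finset.filter_subset _ _
  have hK2K : K2 ⊆ K := Finset.filter_subset _ _
  have hK3K : K3 ⊆ K := Finset.filter_subset _ _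
  have hK012 : ∀ C : Finset α, (C ⊆ K1 ∧ C ⊆ K2) ↔ C ⊆ K0 := by
    intro C
    rw [hK0, hK1, hK2]
    constructor
    · rintro ⟨h1, h2⟩ x hx
      have a1 := h1 hx
      have a2 := h2 hx
      rw [Finset.mem_filter] at a1 a2 ⊢
      exact ⟨a1.1, a1.2, a2.2⟩
    · intro h
      constructor
      · intro x hx
        have a1 := h hx
        rw [Finset.mem_filter] at a1 ⊢
        exact ⟨a1.1, a1.2.1⟩
      · intro x hx
        have a1 := h hx
        rw [Finset.mem_filter] at a1 ⊢
        exact ⟨a1.1, a1.2.2⟩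
  -- nonempty images
  have hone : ∀ B : Finset α, B.Nonempty ↔ (B.image π).Nonempty := by
    intro B; rw [Finset.image_nonempty]
  -- generic factorisation
  have fac : ∀ (Φ : Finset (Set α × Set α) → Prop) (Ψ : Finset α → Prop) (R : Finset α → Prop)
      [DecidablePred Φ] [DecidablePred Ψ] [DecidablePred R],
      (∀ B ∈ O.powerset, ∀ C ∈ K.powerset, (R (B ∪ C) ↔ (Φ (B.image π) ∧ Ψ C))) →
      (∑ A ∈ E'.powerset, if R A then ∏ p ∈ A, z p else 0)
        = (∑ A : Finset (Set α × Set α), if Φ A then ww Z A else 0)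
          * ∑ C ∈ K.powerset, if Ψ C then ∏ p ∈ C, z p else 0 := by
    intro Φ Ψ R _ _ _ hR
    rw [← hOK, sum_powerset_union O K hdis]
    have e1 : ∑ B ∈ O.powerset, ∑ C ∈ K.powerset, (if R (B ∪ C) then ∏ p ∈ B ∪ C, z p else 0)
        = ∑ B ∈ O.powerset, ∑ C ∈ K.powerset,
          (if (Φ (B.image π) ∧ Ψ C) then ∏ p ∈ B ∪ C, z p else 0) := by
      refine Finset.sum_congr rfl fun B hB => Finset.sum_congr rfl fun C hC => ?_
      have := hR B hB C hC
      simp only [this]
    rw [e1, factor z O K hdis (fun B => Φ (B.image π)) Ψ, merge_if π z O Φ]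
    rfl
  -- lower bound version
  have fac_le : ∀ (Φ : Finset (Set α × Set α) → Prop) (Ψ : Finset α → Prop)
      (Φ' : Finset (Set α × Set α) → Prop) (Ψ' : Finset α → Prop) (R : Finset α → Prop)
      [DecidablePred Φ] [DecidablePred Ψ] [DecidablePred Φ'] [DecidablePred Ψ'] [DecidablePred R],
      (∀ B ∈ O.powerset, ∀ C ∈ K.powerset, ((Φ (B.image π) ∧ Ψ C) → R (B ∪ C))) →
      (∀ B ∈ O.powerset, ∀ C ∈ K.powerset, ((Φ' (B.image π) ∧ Ψ' C) → R (B ∪ C))) →
      (∀ A, Φ A → ¬ Φ' A) →
      (∑ A : Finset (Set α × Set α), if Φ A then ww Z A else 0)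
          * (∑ C ∈ K.powerset, if Ψ C then ∏ p ∈ C, z p else 0)
        + (∑ A : Finset (Set α × Set α), if Φ' A then ww Z A else 0)
          * (∑ C ∈ K.powerset, if Ψ' C then ∏ p ∈ C, z p else 0)
      ≤ ∑ A ∈ E'.powerset, if R A then ∏ p ∈ A, z p else 0 := by
    intro Φ Ψ Φ' Ψ' R _ _ _ _ _ h1 h2 h12
    have m1 := merge_if π z O Φ
    have m2 := merge_if π z O Φ'
    have m1' : (∑ A : Finset (Set α × Set α), if Φ A then ww Z A else 0)
        = ∑ B ∈ O.powerset, (if Φ (B.image π) then ∏ p ∈ B, z p else 0) := m1.symm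
    have m2' : (∑ A : Finset (Set α × Set α), if Φ' A then ww Z A else 0)
        = ∑ B ∈ O.powerset, (if Φ' (B.image π) then ∏ p ∈ B, z p else 0) := m2.symm
    rw [m1', m2', ← factor z O K hdis (fun B => Φ (B.image π)) Ψ,
      ← factor z O K hdis (fun B => Φ' (B.image π)) Ψ', ← hOK, sum_powerset_union O K hdis,
      ← Finset.sum_add_distrib]
    refine Finset.sum_le_sum fun B hB => ?_
    rw [← Finset.sum_add_distrib]
    refine Finset.sum_le_sum fun C hC => ?_
    have hw : 0 ≤ ∏ p ∈ B ∪ C, z p := Finset.prod_nonneg fun p _ => hz p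
    have a1 := h1 B hB C hC
    have a2 := h2 B hB C hC
    have a3 := h12 (B.image π)
    by_cases c1 : Φ (B.image π) ∧ Ψ C
    · have c3 : ¬ (Φ' (B.image π) ∧ Ψ' C) := fun h => a3 c1.1 h.1
      rw [if_pos c1, if_neg c3, if_pos (a1 c1), add_zero]
    · rw [if_neg c1, zero_add]
      by_cases c2 : Φ' (B.image π) ∧ Ψ' C
      · rw [if_pos c2, if_pos (a2 c2)]
      · rw [if_neg c2]
        split_ifs
        · exact hw
        · exact le_refl _
  -- the five sums
  have hT := fac (fun A => A.Nonempty) (fun _ => True)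
    (fun A => M.Spanning (insert e (insert f (A : Set α)))) (by
      intro B hB C hC
      rw [k1 B hB C hC, hone B]; simp)
  have hTe := fac (fun A => A.Nonempty ∧ inL (Prod.fst : Set α × Set α → Set α) A)
    (fun C => C ⊆ K1) (fun A => M.Spanning (insert e (insert f (A : Set α)))
      ∧ ¬ M.Spanning (insert e (A : Set α))) (by
      intro B hB C hC
      rw [k1 B hB C hC]
      constructor
      · rintro ⟨h1, h2⟩
        have := (k2 B hB C hC h1).mp h2
        exact ⟨⟨(hone B).mp h1, this.1⟩, this.2⟩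
      · rintro ⟨⟨h1, h2⟩, h3'⟩
        have h1' := (hone B).mpr h1
        exact ⟨h1', (k2 B hB C hC h1').mpr ⟨h2, h3'⟩⟩)
  have hTf := fac (fun A => A.Nonempty ∧ inL (Prod.snd : Set α × Set α → Set α) A)
    (fun C => C ⊆ K2) (fun A => M.Spanning (insert e (insert f (A : Set α)))
      ∧ ¬ M.Spanning (insert f (A : Set α))) (by
      intro B hB C hC
      rw [k1 B hB C hC]
      constructor
      · rintro ⟨h1, h2⟩
        have := (k3 B hB C hC h1).mp h2
        exact ⟨⟨(hone B).mp h1, this.1⟩, this.2⟩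
      · rintro ⟨⟨h1, h2⟩, h3'⟩
        have h1' := (hone B).mpr h1
        exact ⟨h1', (k3 B hB C hC h1').mpr ⟨h2, h3'⟩⟩)
  have card1 : ∀ A : Finset (Set α × Set α), (A.Nonempty ∧
      inL (Prod.fst : Set α × Set α → Set α) A ∧ inL (Prod.snd : Set α × Set α → Set α) A)
      ↔ A.card = 1 := by
    intro A
    constructor
    · rintro ⟨h1, h2, h3'⟩
      have h4 : A.card ≤ 1 := by
        rw [Finset.card_le_one]
        intro a ha b hb
        exact Prod.ext (h2 a ha b hb) (h3' a ha b hb)
      have h5 := Finset.card_pos.mpr h1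
      omega
    · intro h
      obtain ⟨a, rfl⟩ := Finset.card_eq_one.mp h
      refine ⟨Finset.singleton_nonempty a, ?_, ?_⟩ <;>
      · intro u hu v hv
        rw [Finset.mem_singleton] at hu hv
        rw [hu, hv]
  have hnn := fac (fun A => A.card = 1) (fun C => C ⊆ K0)
    (fun A => M.Spanning (insert e (insert f (A : Set α)))
      ∧ ¬ M.Spanning (insert e (A : Set α)) ∧ ¬ M.Spanning (insert f (A : Set α))) (by
      intro B hB C hC
      rw [k1 B hB C hC, ← card1, ← hK012]
      constructor
      · rintro ⟨h1, h2, h2'⟩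
        have a1 := (k2 B hB C hC h1).mp h2
        have a2 := (k3 B hB C hC h1).mp h2'
        exact ⟨⟨(hone B).mp h1, a1.1, a2.1⟩, a1.2, a2.2⟩
      · rintro ⟨⟨h1, h2, h2'⟩, h3', h4⟩
        have h1' := (hone B).mpr h1
        exact ⟨h1', (k2 B hB C hC h1').mpr ⟨h2, h3'⟩, (k3 B hB C hC h1').mpr ⟨h2', h4⟩⟩)
  have sameCell : ∀ p ∈ O, ∀ x, π x = π p → x ∈ M.closure {p} := by
    intro p hp x hx
    rw [hπ] at hx
    simp only [Prod.mk.injEq] at hx
    apply meet hE hef hne (memO p hp)
    · rw [← hx.1]; exact mem_self_cl hE hef hne x _ (by simp)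
    · rw [← hx.2]; exact mem_self_cl hE hef hne x _ (by simp)
  have memK0 : ∀ x ∈ K0, x ∈ M.closure ∅ := by
    intro x hx
    rw [hK0, Finset.mem_filter] at hx
    exact inter_cl hE hef hne hx.2.1 hx.2.2
  have hnb := fac_le (fun A => A.card = 2 ∧ QF A) (fun C => C ⊆ K0)
    (fun A => A.card = 1) (fun C => ∃ p ∈ K3, p ∈ C ∧ ∀ x ∈ C, x ∈ K0 ∨ x = p)
    (fun A => M.Spanning (insert e (A : Set α)) ∧ M.Spanning (insert f (A : Set α))
      ∧ ¬ M.Spanning (A : Set α)) (by
      rintro B hB C hC ⟨⟨h2, hQ⟩, hC0⟩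
      have hBne : B.Nonempty := by
        rw [hone, ← Finset.card_pos]; omega
      refine ⟨?_, ?_, ?_⟩
      · by_contra h
        exact hQ.1 ((k2 B hB C hC hBne).mp h).1
      · by_contra h
        exact hQ.2 ((k3 B hB C hC hBne).mp h).1
      · obtain ⟨u, v, huv, himg⟩ := Finset.card_eq_two.mp h2
        have hu : u ∈ B.image π := by rw [himg]; simp
        have hv : v ∈ B.image π := by rw [himg]; simp
        rw [Finset.mem_image] at hu hv
        obtain ⟨p, hp, hpu⟩ := hu
        obtain ⟨q, hq, hqv⟩ := hv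
        rw [Finset.mem_powerset] at hB
        apply not_span_of_subset hE h3 (a := p) (b := q)
        intro x hx
        rw [Finset.mem_coe, Finset.mem_union] at hx
        rcases hx with hx | hx
        · have hxi : π x ∈ B.image π := Finset.mem_image_of_mem _ hx
          rw [himg, Finset.mem_insert, Finset.mem_singleton] at hxi
          rcases hxi with h | h
          · exact M.closure_subset_closure (by simp) (sameCell p (hB hp) x (by rw [h, hpu]))
          · exact M.closure_subset_closure (by simp) (sameCell q (hB hq) x (by rw [h, hqv]))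
        · exact M.closure_subset_closure (Set.empty_subset _) (memK0 x (hC0 hx))) (by
      rintro B hB C hC ⟨h1, p3, hp3, hp3C, hall⟩
      have hBne : B.Nonempty := by
        rw [hone, ← Finset.card_pos]; omega
      have hp3' := hp3
      rw [hK3, Finset.mem_filter] at hp3'
      refine ⟨?_, ?_, ?_⟩
      · by_contra h
        have := ((k2 B hB C hC hBne).mp h).2 hp3C
        rw [hK1, Finset.mem_filter] at this
        exact hp3'.2.1 this.2
      · by_contra h
        have := ((k3 B hB C hC hBne).mp h).2 hp3C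
        rw [hK2, Finset.mem_filter] at this
        exact hp3'.2.2 this.2
      · obtain ⟨u, himg⟩ := Finset.card_eq_one.mp h1
        have hu : u ∈ B.image π := by rw [himg]; simp
        rw [Finset.mem_image] at hu
        obtain ⟨p, hp, hpu⟩ := hu
        rw [Finset.mem_powerset] at hB
        apply not_span_of_subset hE h3 (a := p) (b := p3)
        intro x hx
        rw [Finset.mem_coe, Finset.mem_union] at hx
        rcases hx with hx | hx
        · have hxi : π x ∈ B.image π := Finset.mem_image_of_mem _ hx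
          rw [himg, Finset.mem_singleton] at hxi
          exact M.closure_subset_closure (by simp) (sameCell p (hB hp) x (by rw [hxi, hpu]))
        · rcases hall x hx with h | h
          · exact M.closure_subset_closure (Set.empty_subset _) (memK0 x h)
          · rw [h]; exact mem_self_cl hE hef hne p3 _ (by simp)) (by
      rintro A ⟨h, _⟩ h'
      omega)
  have one3 := sum_one z hz K K0 K3 hK0K hK3K (by
      rw [Finset.disjoint_left]
      intro x hx hx'
      rw [hK0, Finset.mem_filter] at hx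
      rw [hK3, Finset.mem_filter] at hx'
      exact hx'.2.1 hx.2.1) (fun C => ∃ p ∈ K3, p ∈ C ∧ ∀ x ∈ C, x ∈ K0 ∨ x = p)
      (fun C _ h => h)
  have sub0 := sum_sub z K K0 hK0K
  have sub1 := sum_sub z K K1 hK1K
  have sub2 := sum_sub z K K2 hK2K
  have subT : (∑ C ∈ K.powerset, if True then ∏ p ∈ C, z p else 0) = ∏ p ∈ K, (1 + z p) := by
    rw [Finset.prod_one_add]; simp
  have hPe : (∑ A : Finset (Set α × Set α), if A.Nonempty then ww Z A else 0)
      = ∏ u, (1 + Z u) - 1 := by
    rw [prod_eq_sum_ww, eq_sub_iff_add_eq]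
    rw [← Finset.add_sum_erase univ _ (Finset.mem_univ (∅ : Finset (Set α × Set α))),
      ← Finset.add_sum_erase univ (fun A : Finset (Set α × Set α) => if A ⊆ univ then ww Z A else 0)
        (Finset.mem_univ ∅)]
    have e1 : (if (∅ : Finset (Set α × Set α)).Nonempty then ww Z ∅ else 0) = 0 := by simp
    have e2 : (if (∅ : Finset (Set α × Set α)) ⊆ univ then ww Z ∅ else 0) = 1 := by simp [ww]
    have e3 : ∑ A ∈ univ.erase (∅ : Finset (Set α × Set α)), (if A.Nonempty then ww Z A else 0)
        = ∑ A ∈ univ.erase (∅ : Finset (Set α × Set α)), (if A ⊆ univ then ww Z A else 0) := by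
      refine Finset.sum_congr rfl fun A hA => ?_
      rw [Finset.mem_erase] at hA
      rw [if_pos (Finset.nonempty_iff_ne_empty.mpr hA.1), if_pos (Finset.subset_univ A)]
    rw [e1, e2, e3]; ring
  have hNe : (∑ A : Finset (Set α × Set α), if (A.card = 2 ∧ QF A) then ww Z A else 0)
      = NN Z := by
    unfold NN
    refine Finset.sum_congr rfl fun A _ => ?_
    rw [ite_and]
  have hmat := matrix_ineq Z hZ0
  rw [rowsum_eq, colsum_eq] at hmat
  have hρ : (∑ A : Finset (Set α × Set α),
      if (A.Nonempty ∧ inL (Prod.fst : Set α × Set α → Set α) A) then ww Z A else 0)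
      = rowsum Z := rfl
  have hκ : (∑ A : Finset (Set α × Set α),
      if (A.Nonempty ∧ inL (Prod.snd : Set α × Set α → Set α) A) then ww Z A else 0)
      = colsum Z := rfl
  rw [hPe, subT] at hT
  rw [hρ, sub1] at hTe
  rw [hκ, sub2] at hTf
  rw [← s_eq, sub0] at hnn
  rw [← s_eq, sub0, hNe] at hnb
  -- product identity
  have hprod : (∏ p ∈ K, (1 + z p)) * ∏ p ∈ K0, (1 + z p)
      = (∏ p ∈ K1, (1 + z p)) * (∏ p ∈ K2, (1 + z p)) * ∏ p ∈ K3, (1 + z p) := by
    exact prod_identity K z (fun p => p ∈ M.closure {e}) (fun p => p ∈ M.closure {f})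
  have hy := one_sub_mul_prod_le z hz K3
  have pos : ∀ S : Finset α, 0 < ∏ p ∈ S, (1 + z p) := fun S =>
    Finset.prod_pos fun p _ => by linarith [hz p]
  have hs0 : 0 ≤ ∑ u, Z u := Finset.sum_nonneg fun u _ => hZ0 u
  have hN0 : 0 ≤ NN Z := by
    unfold NN
    refine Finset.sum_nonneg fun A _ => ?_
    split_ifs
    · exact ww_nonneg Z hZ0 A
    · exact le_refl _
    · exact le_refl _
  have hP0 : 0 ≤ ∏ u, (1 + Z u) - 1 := by
    rw [← hPe]
    refine Finset.sum_nonneg fun A _ => ?_
    split_ifs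
    · exact ww_nonneg Z hZ0 A
    · exact le_refl _
  have hρ0 : 0 ≤ rowsum Z := by
    unfold rowsum
    refine Finset.sum_nonneg fun A _ => ?_
    split_ifs
    · exact ww_nonneg Z hZ0 A
    · exact le_refl _
  have hκ0 : 0 ≤ colsum Z := by
    unfold colsum
    refine Finset.sum_nonneg fun A _ => ?_
    split_ifs
    · exact ww_nonneg Z hZ0 A
    · exact le_refl _
  rw [hT, hTe, hTf, hnn]
  have hsum3 : (∑ u, Z u) * ((∑ p ∈ K3, z p) * ∏ p ∈ K0, (1 + z p))
      ≤ (∑ u, Z u) * ∑ C ∈ K.powerset,
          (if (∃ p ∈ K3, p ∈ C ∧ ∀ x ∈ C, x ∈ K0 ∨ x = p) then ∏ p ∈ C, z p else 0) :=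
    mul_le_mul_of_nonneg_left one3 hs0
  exact final_arith _ _ (NN Z) (∑ p ∈ K3, z p) _ _ _ _ (∏ p ∈ K3, (1 + z p)) _ _ _ hP0 hs0 hN0
    (Finset.sum_nonneg fun p _ => hz p) (pos K) (pos K1) (pos K2) (pos K3) hρ0 hκ0 hprod hy hmat
    (by linarith [hnb, hsum3])

end

end Pool.Agent.Helper28.Rank3
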