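import Pool.Agent.Helper28.Rank3.Sums

set_option autoImplicit false
set_option linter.unusedSectionVars false

namespace Pool.Agent.Helper28.Rank3

open Finset

lemma sum_le_of_inj {α β : Type*} [DecidableEq β] (s : Finset α) (t : Finset β) (Φ : α → β)
    (hΦ : ∀ a ∈ s, Φ a ∈ t) (hinj : ∀ a ∈ s, ∀ b ∈ s, Φ a = Φ b → a = b)
    (f : α → ℝ) (g : β → ℝ) (hfg : ∀ a ∈ s, f a ≤ g (Φ a)) (hg : ∀ b ∈ t, 0 ≤ g b) :
    ∑ a ∈ s, f a ≤ ∑ b ∈ t, g b := by
  calc ∑ a ∈ s, f a ≤ ∑ a ∈ s, g (Φ a) := Finset.sum_le_sum hfg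
    _ = ∑ b ∈ s.image Φ, g b := by
        rw [Finset.sum_image]
        intro a ha b hb h
        exact hinj a ha b hb h
    _ ≤ ∑ b ∈ t, g b := by
        apply Finset.sum_le_sum_of_subset_of_nonneg
        · intro b hb
          rw [Finset.mem_image] at hb
          obtain ⟨a, ha, rfl⟩ := hb
          exact hΦ a ha
        · intro b hb _
          exact hg b hb

variable {I J : Type*} [Fintype I] [Fintype J] [DecidableEq I] [DecidableEq J]

abbrev dg (V : Finset (I × J)) (u : I × J) : ℕ :=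
  deg (Prod.fst : I × J → I) (Prod.snd : I × J → J) V u
abbrev nn2 (V : Finset (I × J)) : ℕ := N2 (Prod.fst : I × J → I) (Prod.snd : I × J → J) V
abbrev qqn (V : Finset (I × J)) : ℕ := qn (Prod.fst : I × J → I) (Prod.snd : I × J → J) V

/-- generic indicator -/
def gg (u v : I × J) : ℝ := if (u.1 ≠ v.1 ∧ u.2 ≠ v.2) then 1 else 0

lemma gg_self (u : I × J) : gg u u = 0 := by unfold gg; simp

lemma gg_comm (u v : I × J) : gg u v = gg v u := by
  unfold gg; congr 1; simp only [ne_eq, eq_comm]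

lemma gg_nonneg (u v : I × J) : 0 ≤ gg u v := by unfold gg; split_ifs <;> norm_num

lemma sum_gg (V : Finset (I × J)) (u : I × J) : ∑ v ∈ V, gg u v = (dg V u : ℝ) := by
  unfold gg dg deg
  rw [Finset.card_filter]
  push_cast
  rfl

def E3 (z : I × J → ℝ) : ℝ := ∑ A : Finset (I × J), if 3 ≤ A.card then ww z A else 0
def Q4 (z : I × J → ℝ) : ℝ := ∑ A : Finset (I × J), if 4 ≤ A.card then
  (if QF A then ww z A else 0) else 0

lemma ww_erase (z : I × J → ℝ) (V : Finset (I × J)) (x : I × J) (hx : x ∈ V) :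
    ww z (V.erase x) * z x = ww z V := by
  unfold ww
  exact Finset.prod_erase_mul V z hx

lemma ww_nonneg (z : I × J → ℝ) (hz : ∀ u, 0 ≤ z u) (V : Finset (I × J)) : 0 ≤ ww z V :=
  Finset.prod_nonneg fun u _ => hz u

lemma Q4s (z : I × J → ℝ) : Q4 z * ∑ u, z u
    = (∑ V : Finset (I × J), if 4 ≤ V.card then
        ww z V * ∑ x ∈ V, (if QF V then z x else 0) else 0)
      + ∑ V : Finset (I × J), if 5 ≤ V.card then ww z V * (qqn V : ℝ) else 0 := by
  have h1 : Q4 z * ∑ u, z u = ∑ A : Finset (I × J),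
      ((if 4 ≤ A.card then ww z A * ∑ x ∈ A, (if QF A then z x else 0) else 0)
        + ∑ x ∈ Aᶜ, (if 4 ≤ A.card then (if QF A then ww z A else 0) else 0) * z x) := by
    unfold Q4
    rw [Finset.sum_mul]
    refine Finset.sum_congr rfl fun A _ => ?_
    rw [← Finset.sum_add_sum_compl A z, mul_add, ← Finset.mul_sum]
    congr 1
    by_cases h : 4 ≤ A.card
    · by_cases h' : QF A
      · simp [h, h']
      · simp [h, h']
    · simp [h]
  rw [h1, Finset.sum_add_distrib]
  congr 1
  rw [sum_compl_eq (fun A x => (if 4 ≤ A.card then (if QF A then ww z A else 0) else 0) * z x)]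
  refine Finset.sum_congr rfl fun V _ => ?_
  by_cases h : 5 ≤ V.card
  · rw [if_pos h]
    unfold qqn qn
    rw [Finset.card_filter]
    push_cast
    rw [Finset.mul_sum]
    refine Finset.sum_congr rfl fun x hx => ?_
    have hc : 4 ≤ (V.erase x).card := by rw [Finset.card_erase_of_mem hx]; omega
    rw [if_pos hc]
    by_cases hq : QF (V.erase x)
    · rw [if_pos hq, if_pos hq, ww_erase z V x hx, mul_one]
    · rw [if_neg hq, if_neg hq]; simp
  · rw [if_neg h]
    apply Finset.sum_eq_zero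
    intro x hx
    have hc : ¬ 4 ≤ (V.erase x).card := by rw [Finset.card_erase_of_mem hx]; omega
    rw [if_neg hc]; simp

lemma NN_gg (z : I × J → ℝ) : 2 * NN z = ∑ u, ∑ v, gg u v * z u * z v := by
  unfold NN
  rw [ord2 (fun A => if QF A then ww z A else 0)]
  refine Finset.sum_congr rfl fun u _ => Finset.sum_congr rfl fun v _ => ?_
  simp only [QF, QQ, inL_pair, gg]
  by_cases h : u = v
  · subst h; simp
  · rw [if_pos h, ww_pair z u v h]
    by_cases h' : (¬ u.1 = v.1 ∧ ¬ u.2 = v.2)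
    · rw [if_pos h', if_pos h']; ring
    · rw [if_neg h', if_neg h']; ring

lemma NE3 (z : I × J → ℝ) : 2 * NN z * E3 z
    = (∑ A : Finset (I × J), if 3 ≤ A.card then
        ww z A * ∑ u ∈ A, ∑ v ∈ A, gg u v * z u * z v else 0)
      + 2 * (∑ V : Finset (I × J), if 4 ≤ V.card then
          ww z V * ∑ x ∈ V, z x * (dg V x : ℝ) else 0)
      + ∑ V : Finset (I × J), if 5 ≤ V.card then ww z V * (nn2 V : ℝ) else 0 := by
  have h1 : 2 * NN z * E3 z = ∑ A : Finset (I × J),
      ((if 3 ≤ A.card then ww z A * ∑ u ∈ A, ∑ v ∈ A, gg u v * z u * z v else 0)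
        + 2 * (∑ v ∈ Aᶜ, (if 3 ≤ A.card then ww z A * z v * ∑ u ∈ A, gg v u * z u else 0))
        + ∑ v ∈ Aᶜ, (if 3 ≤ A.card then ww z A * z v * ∑ u ∈ Aᶜ, gg v u * z u else 0)) := by
    rw [NN_gg]
    unfold E3
    rw [Finset.mul_sum]
    refine Finset.sum_congr rfl fun A _ => ?_
    by_cases h : 3 ≤ A.card
    · simp only [if_pos h]
      have hs : ∑ u, ∑ v, gg u v * z u * z v
          = (∑ u ∈ A, ∑ v ∈ A, gg u v * z u * z v)
            + 2 * (∑ v ∈ Aᶜ, z v * ∑ u ∈ A, gg v u * z u)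
            + ∑ v ∈ Aᶜ, z v * ∑ u ∈ Aᶜ, gg v u * z u := by
        rw [← Finset.sum_add_sum_compl A (fun u => ∑ v, gg u v * z u * z v)]
        have h2 : ∀ u, ∑ v, gg u v * z u * z v
            = (∑ v ∈ A, gg u v * z u * z v) + ∑ v ∈ Aᶜ, gg u v * z u * z v :=
          fun u => (Finset.sum_add_sum_compl A _).symm
        simp only [h2, Finset.sum_add_distrib]
        have h3 : ∑ u ∈ A, ∑ v ∈ Aᶜ, gg u v * z u * z v = ∑ v ∈ Aᶜ, z v * ∑ u ∈ A, gg v u * z u := by
          rw [Finset.sum_comm]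
          refine Finset.sum_congr rfl fun v _ => ?_
          rw [Finset.mul_sum]
          refine Finset.sum_congr rfl fun u _ => ?_
          rw [gg_comm]; ring
        have h4 : ∑ u ∈ Aᶜ, ∑ v ∈ A, gg u v * z u * z v = ∑ v ∈ Aᶜ, z v * ∑ u ∈ A, gg v u * z u := by
          refine Finset.sum_congr rfl fun v _ => ?_
          rw [Finset.mul_sum]
          refine Finset.sum_congr rfl fun u _ => ?_
          ring
        have h5 : ∑ u ∈ Aᶜ, ∑ v ∈ Aᶜ, gg u v * z u * z v
            = ∑ v ∈ Aᶜ, z v * ∑ u ∈ Aᶜ, gg v u * z u := by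
          refine Finset.sum_congr rfl fun v _ => ?_
          rw [Finset.mul_sum]
          refine Finset.sum_congr rfl fun u _ => ?_
          ring
        rw [h3, h4, h5]; ring
      rw [hs]
      have h6 : ∑ v ∈ Aᶜ, ww z A * z v * ∑ u ∈ A, gg v u * z u
          = ww z A * ∑ v ∈ Aᶜ, z v * ∑ u ∈ A, gg v u * z u := by
        rw [Finset.mul_sum]
        refine Finset.sum_congr rfl fun v _ => by ring
      have h7 : ∑ v ∈ Aᶜ, ww z A * z v * ∑ u ∈ Aᶜ, gg v u * z u
          = ww z A * ∑ v ∈ Aᶜ, z v * ∑ u ∈ Aᶜ, gg v u * z u := by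
        rw [Finset.mul_sum]
        refine Finset.sum_congr rfl fun v _ => by ring
      rw [h6, h7]; ring
    · simp [h]
  rw [h1, Finset.sum_add_distrib, Finset.sum_add_distrib, ← Finset.mul_sum]
  have h2 : ∑ A : Finset (I × J), ∑ v ∈ Aᶜ,
      (if 3 ≤ A.card then ww z A * z v * ∑ u ∈ A, gg v u * z u else 0)
      = ∑ V : Finset (I × J), if 4 ≤ V.card then
          ww z V * ∑ x ∈ V, z x * (dg V x : ℝ) else 0 := by
    rw [sum_compl_eq (fun A v => if 3 ≤ A.card then
      ww z A * z v * ∑ u ∈ A, gg v u * z u else 0)]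
    refine Finset.sum_congr rfl fun V _ => ?_
    by_cases h : 4 ≤ V.card
    · rw [if_pos h]
      have h3 : ∀ v ∈ V, (if 3 ≤ (V.erase v).card then
          ww z (V.erase v) * z v * ∑ u ∈ V.erase v, gg v u * z u else 0)
          = ww z V * ∑ u ∈ V, gg v u * z u := by
        intro v hv
        have hc : 3 ≤ (V.erase v).card := by rw [Finset.card_erase_of_mem hv]; omega
        rw [if_pos hc, ww_erase z V v hv]
        congr 1
        rw [← Finset.add_sum_erase V _ hv, gg_self]; ring
      rw [Finset.sum_congr rfl h3, ← Finset.mul_sum]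
      congr 1
      rw [Finset.sum_comm]
      refine Finset.sum_congr rfl fun x _ => ?_
      rw [← sum_gg, Finset.mul_sum]
      refine Finset.sum_congr rfl fun v _ => ?_
      rw [gg_comm]; ring
    · rw [if_neg h]
      apply Finset.sum_eq_zero
      intro x hx
      have hc : ¬ 3 ≤ (V.erase x).card := by rw [Finset.card_erase_of_mem hx]; omega
      rw [if_neg hc]
  have h3 : ∑ A : Finset (I × J), ∑ v ∈ Aᶜ,
      (if 3 ≤ A.card then ww z A * z v * ∑ u ∈ Aᶜ, gg v u * z u else 0)
      = ∑ V : Finset (I × J), if 5 ≤ V.card then ww z V * (nn2 V : ℝ) else 0 := by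
    rw [sum_compl_eq (fun A v => if 3 ≤ A.card then
      ww z A * z v * ∑ u ∈ Aᶜ, gg v u * z u else 0)]
    have h4 : ∀ V : Finset (I × J), ∑ v ∈ V, (if 3 ≤ (V.erase v).card then
          ww z (V.erase v) * z v * ∑ u ∈ (V.erase v)ᶜ, gg v u * z u else 0)
          = ∑ u ∈ Vᶜ, (if 4 ≤ V.card then ww z V * z u * ∑ v ∈ V, gg u v else 0) := by
      intro V
      by_cases h : 4 ≤ V.card
      · have h3 : ∀ v ∈ V, (if 3 ≤ (V.erase v).card then
            ww z (V.erase v) * z v * ∑ u ∈ (V.erase v)ᶜ, gg v u * z u else 0)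
            = ww z V * ∑ u ∈ Vᶜ, gg v u * z u := by
          intro v hv
          have hc : 3 ≤ (V.erase v).card := by rw [Finset.card_erase_of_mem hv]; omega
          rw [if_pos hc, ww_erase z V v hv]
          congr 1
          rw [Finset.compl_erase, Finset.sum_insert (by simp [hv]), gg_self]; ring
        rw [Finset.sum_congr rfl h3, ← Finset.mul_sum, Finset.sum_comm, Finset.mul_sum]
        refine Finset.sum_congr rfl fun u _ => ?_
        rw [if_pos h, ← Finset.sum_mul]
        have : ∑ i ∈ V, gg i u = ∑ v ∈ V, gg u v :=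
          Finset.sum_congr rfl fun v _ => gg_comm v u
        rw [this]; ring
      · have h5 : ∑ v ∈ V, (if 3 ≤ (V.erase v).card then
          ww z (V.erase v) * z v * ∑ u ∈ (V.erase v)ᶜ, gg v u * z u else 0) = 0 := by
          apply Finset.sum_eq_zero
          intro x hx
          have hc : ¬ 3 ≤ (V.erase x).card := by rw [Finset.card_erase_of_mem hx]; omega
          rw [if_neg hc]
        rw [h5]; simp [h]
    simp only [h4]
    rw [sum_compl_eq (fun V u => if 4 ≤ V.card then ww z V * z u * ∑ v ∈ V, gg u v else 0)]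
    refine Finset.sum_congr rfl fun V _ => ?_
    by_cases h : 5 ≤ V.card
    · rw [if_pos h]
      have h5 : ∀ u ∈ V, (if 4 ≤ (V.erase u).card then
          ww z (V.erase u) * z u * ∑ v ∈ V.erase u, gg u v else 0) = ww z V * (dg V u : ℝ) := by
        intro u hu
        have hc : 4 ≤ (V.erase u).card := by rw [Finset.card_erase_of_mem hu]; omega
        rw [if_pos hc, ww_erase z V u hu, ← sum_gg, ← Finset.add_sum_erase V _ hu, gg_self]
        ring
      rw [Finset.sum_congr rfl h5, ← Finset.mul_sum]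
      congr 1
      unfold nn2 N2
      push_cast
      rfl
    · rw [if_neg h]
      apply Finset.sum_eq_zero
      intro x hx
      have hc : ¬ 4 ≤ (V.erase x).card := by rw [Finset.card_erase_of_mem hx]; omega
      rw [if_neg hc]
  rw [h2, h3]

end Pool.Agent.Helper28.Rank3
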