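import Pool.Agent.Helper28.Rank3.Merge

set_option autoImplicit false
set_option linter.unusedSectionVars false

namespace Pool.Agent.Helper28.Rank3

open Set

variable {α : Type*} [Fintype α] [DecidableEq α] {M : Matroid α}

/-- closures of pairs are proper in rank three -/
lemma closure_pair_ne (hE : M.E = univ) (h3 : M.eRank = 3) (a b : α) :
    M.closure {a, b} ≠ univ := by
  intro h
  have h1 : M.eRk {a, b} = 3 := by
    rw [← h3, ← M.eRk_closure_eq, h, M.eRk_univ_eq]
  have h2 : M.eRk {a, b} ≤ 2 := by
    refine (M.eRk_le_encard _).trans ((encard_insert_le _ _).trans ?_)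
    rw [encard_singleton]; norm_num
  rw [h1] at h2
  exact absurd h2 (by decide)

lemma span_triple (hE : M.E = univ) (h3 : M.eRank = 3) {a b c : α} (hab : M.Indep {a, b})
    (hne : a ≠ b) (hc : c ∉ M.closure {a, b}) {X : Set α} (ha' : a ∈ X) (hb' : b ∈ X)
    (hc' : c ∈ X) : M.Spanning X := by
  have hcE : c ∈ M.E := by rw [hE]; trivial
  have h1 : M.Indep (insert c {a, b}) := by
    rw [hab.insert_indep_iff]
    left
    exact ⟨hcE, hc⟩
  have hcn : c ∉ ({a, b} : Set α) := by
    intro h
    exact hc (M.mem_closure_of_mem h (by rw [hE]; exact subset_univ _))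
  have h2 : (insert c {a, b} : Set α).encard = 3 := by
    rw [encard_insert_of_notMem hcn, encard_pair hne]; norm_num
  have h4 : M.IsBase (insert c {a, b}) := by
    apply h1.isBase_of_eRk_ge (toFinite _)
    rw [h1.eRk_eq_encard, h2, h3]
  apply h4.spanning_of_superset
  · intro x hx
    rcases hx with rfl | rfl | rfl
    · exact hc'
    · exact ha'
    · exact hb'

lemma not_span_of_subset (hE : M.E = univ) (h3 : M.eRank = 3) {a b : α} {X : Set α}
    (hX : X ⊆ M.closure {a, b}) : ¬ M.Spanning X := by
  intro h
  apply closure_pair_ne hE h3 a b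
  have h1 := h.closure_eq
  have h2 : M.closure X ⊆ M.closure {a, b} := M.closure_subset_closure_of_subset_closure hX
  rw [h1, hE] at h2
  exact Set.univ_subset_iff.mp h2

lemma pair_indep (hE : M.E = univ) {a b : α} (ha : a ∉ M.closure ∅) (hb : b ∉ M.closure {a}) :
    M.Indep {a, b} := by
  have h1 : M.Indep {a} := by
    rw [M.indep_singleton]
    have : ¬ M.IsLoop a := ha
    exact Matroid.isNonloop_iff_mem_compl_loops.mpr ⟨by rw [hE]; trivial, ha⟩
  have h2 : M.Indep (insert b {a}) := by
    rw [h1.insert_indep_iff]
    left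
    exact ⟨by rw [hE]; trivial, hb⟩
  rw [pair_comm]; exact h2

section
variable {e f : α} (hE : M.E = univ) (hef : M.Indep {e, f}) (hne : e ≠ f)
include hE hef hne

lemma e_notMem : e ∉ M.closure {f} := by
  have := hef.notMem_closure_sdiff_of_mem (e := e) (by simp)
  have h2 : ({e, f} \ {e} : Set α) = {f} := by
    ext x; simp only [mem_sdiff, mem_insert_iff, mem_singleton_iff]
    constructor
    · rintro ⟨h | h, h'⟩
      · exact absurd h h'
      · exact h
    · rintro rfl; exact ⟨Or.inr rfl, hne.symm⟩
  rwa [h2] at this

lemma f_notMem : f ∉ M.closure {e} := by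
  have := hef.notMem_closure_sdiff_of_mem (e := f) (by simp)
  have h2 : ({e, f} \ {f} : Set α) = {e} := by
    ext x; simp only [mem_sdiff, mem_insert_iff, mem_singleton_iff]
    constructor
    · rintro ⟨h | h, h'⟩
      · exact h
      · exact absurd h h'
    · rintro rfl; exact ⟨Or.inl rfl, hne⟩
  rwa [h2] at this

lemma inter_cl {x : α} (hx : x ∈ M.closure {e}) (hx' : x ∈ M.closure {f}) :
    x ∈ M.closure ∅ := by
  by_contra h
  have h1 : e ∈ M.closure (insert x ∅) := M.mem_closure_insert h (by simpa using hx)
  have h2 : M.closure (insert x ∅) ⊆ M.closure {f} :=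
    M.closure_subset_closure_of_subset_closure (by
      intro y hy; simp only [insert_empty_eq, mem_singleton_iff] at hy; rw [hy]; exact hx')
  exact e_notMem hE hef hne (h2 h1)

lemma mem_self_cl (x : α) (X : Set α) (h : x ∈ X) : x ∈ M.closure X :=
  M.mem_closure_of_mem h (by rw [hE]; exact subset_univ _)

/-- points outside the line `ef`: same row iff in the line -/
lemma row_iff {p q : α} (hp : p ∉ M.closure {e, f}) (hq : q ∉ M.closure {e, f}) :
    q ∈ M.closure {e, p} ↔ M.closure {e, q} = M.closure {e, p} := by
  constructor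
  · intro h
    have hqe : q ∉ M.closure {e} := fun h' => hq (M.closure_subset_closure (by simp) h')
    have h1 : q ∈ M.closure (insert p {e}) \ M.closure {e} := ⟨by rwa [pair_comm] at h, hqe⟩
    have := M.closure_insert_congr h1
    rw [pair_comm e q, pair_comm e p]; exact this
  · intro h
    rw [← h]
    exact mem_self_cl hE hef hne q _ (by simp)

lemma on_line {p q : α} (hp : p ∉ M.closure {e, f}) (hq : q ∈ M.closure {e, f})
    (h : q ∈ M.closure {e, p}) : q ∈ M.closure {e} := by
  by_contra hqe
  apply hp
  have h1 : p ∈ M.closure (insert q {e}) := M.mem_closure_insert hqe (by rwa [pair_comm] at h)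
  have h2 : M.closure (insert q {e}) ⊆ M.closure {e, f} := by
    apply M.closure_subset_closure_of_subset_closure
    intro y hy
    simp only [mem_insert_iff, mem_singleton_iff] at hy
    rcases hy with rfl | rfl
    · exact hq
    · exact mem_self_cl hE hef hne y _ (by simp)
  exact h2 h1

/-- modularity: the two lines meet in the point -/
lemma meet {p x : α} (hp : p ∉ M.closure {e, f}) (hx : x ∈ M.closure {e, p})
    (hx' : x ∈ M.closure {f, p}) : x ∈ M.closure {p} := by
  by_contra h
  have h1 : e ∈ M.closure (insert x {p}) := M.mem_closure_insert h hx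
  have h2 : M.closure (insert x {p}) ⊆ M.closure {f, p} := by
    apply M.closure_subset_closure_of_subset_closure
    intro y hy
    simp only [mem_insert_iff, mem_singleton_iff] at hy
    rcases hy with rfl | rfl
    · exact hx'
    · exact mem_self_cl hE hef hne y _ (by simp)
  have h3 : e ∈ M.closure (insert p {f}) := by rw [pair_comm p f]; exact h2 h1
  have h4 := M.mem_closure_insert (e_notMem hE hef hne) h3
  exact hp h4

end

/-- spanning sets containing `e` -/
lemma not_span_insert (hE : M.E = univ) (h3 : M.eRank = 3) {e f : α} (hef : M.Indep {e, f})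
    (hne : e ≠ f) {p : α} {A : Set α} (hpA : p ∈ A) (hp : p ∉ M.closure {e, f}) :
    ¬ M.Spanning (insert e A) ↔ A ⊆ M.closure {e, p} := by
  have hee : e ∉ M.closure ∅ := fun h =>
    e_notMem hE hef hne (M.closure_subset_closure (empty_subset _) h)
  have hpe : p ∉ M.closure {e} := fun h' => hp (M.closure_subset_closure (by simp) h')
  have hep : e ≠ p := by
    rintro rfl
    exact hpe (M.mem_closure_of_mem rfl (by rw [hE]; exact subset_univ _))
  constructor
  · intro h q hq
    by_contra hqn
    exact h (span_triple hE h3 (pair_indep hE hee hpe) hep hqn (by simp)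
      (mem_insert_of_mem _ hpA) (mem_insert_of_mem _ hq))
  · intro h
    apply not_span_of_subset hE h3 (a := e) (b := p)
    intro x hx
    rcases hx with rfl | hx
    · exact M.mem_closure_of_mem (by simp) (by rw [hE]; exact subset_univ _)
    · exact h hx

lemma span_both (hE : M.E = univ) (h3 : M.eRank = 3) {e f : α} (hef : M.Indep {e, f})
    (hne : e ≠ f) {A : Set α} :
    M.Spanning (insert e (insert f A)) ↔ ∃ p ∈ A, p ∉ M.closure {e, f} := by
  constructor
  · intro h
    by_contra hno
    push Not at hno
    refine not_span_of_subset hE h3 (a := e) (b := f) ?_ h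
    intro x hx
    rcases hx with rfl | rfl | hx
    · exact M.mem_closure_of_mem (by simp) (by rw [hE]; exact subset_univ _)
    · exact M.mem_closure_of_mem (by simp) (by rw [hE]; exact subset_univ _)
    · exact hno x hx
  · rintro ⟨p, hpA, hp⟩
    exact span_triple hE h3 hef hne hp (by simp) (by simp) (by simp [hpA])

end Pool.Agent.Helper28.Rank3
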