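import Pool.Agent.Helper28.Rank3.Cross

set_option autoImplicit false
set_option linter.unusedSectionVars false

namespace Pool.Agent.Helper28.Rank3

open Finset

variable {I J : Type*} [Fintype I] [Fintype J] [DecidableEq I] [DecidableEq J]

lemma prod_eq_sum_ww (z : I × J → ℝ) (S : Finset (I × J)) :
    ∏ u ∈ S, (1 + z u) = ∑ A : Finset (I × J), if A ⊆ S then ww z A else 0 := by
  rw [Finset.prod_one_add, ← Finset.sum_filter]
  refine Finset.sum_congr ?_ fun A _ => rfl
  ext A; simp

def rowsum (z : I × J → ℝ) : ℝ :=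
  ∑ A : Finset (I × J), if (A.Nonempty ∧ inL (Prod.fst : I × J → I) A) then ww z A else 0
def colsum (z : I × J → ℝ) : ℝ :=
  ∑ A : Finset (I × J), if (A.Nonempty ∧ inL (Prod.snd : I × J → J) A) then ww z A else 0

lemma line_sum {K : Type*} [Fintype K] [DecidableEq K] (r : I × J → K) (z : I × J → ℝ) :
    ∑ k : K, (∏ u ∈ univ.filter (fun u => r u = k), (1 + z u) - 1)
      = ∑ A : Finset (I × J), if (A.Nonempty ∧ inL r A) then ww z A else 0 := by
  have h1 : ∀ k : K, (∏ u ∈ univ.filter (fun u => r u = k), (1 + z u) - 1)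
      = ∑ A : Finset (I × J), if (A.Nonempty ∧ ∀ u ∈ A, r u = k) then ww z A else 0 := by
    intro k
    rw [prod_eq_sum_ww]
    rw [← Finset.add_sum_erase univ _ (Finset.mem_univ (∅ : Finset (I × J)))]
    rw [← Finset.add_sum_erase univ (fun A : Finset (I × J) =>
      if (A.Nonempty ∧ ∀ u ∈ A, r u = k) then ww z A else 0) (Finset.mem_univ ∅)]
    have e1 : (if (∅ : Finset (I × J)) ⊆ univ.filter (fun u => r u = k) then ww z ∅ else 0)
        = 1 := by simp [ww]
    have e2 : (if ((∅ : Finset (I × J)).Nonempty ∧ ∀ u ∈ (∅ : Finset (I × J)), r u = k)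
        then ww z ∅ else 0) = 0 := by simp
    rw [e1, e2]
    have e3 : ∑ A ∈ univ.erase (∅ : Finset (I × J)),
        (if A ⊆ univ.filter (fun u => r u = k) then ww z A else 0)
        = ∑ A ∈ univ.erase (∅ : Finset (I × J)),
          (if (A.Nonempty ∧ ∀ u ∈ A, r u = k) then ww z A else 0) := by
      refine Finset.sum_congr rfl fun A hA => ?_
      rw [Finset.mem_erase] at hA
      have hne : A.Nonempty := Finset.nonempty_iff_ne_empty.mpr hA.1
      have : (A ⊆ univ.filter (fun u => r u = k)) ↔ (A.Nonempty ∧ ∀ u ∈ A, r u = k) := by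
        constructor
        · intro h
          refine ⟨hne, fun u hu => ?_⟩
          have := h hu
          rw [Finset.mem_filter] at this
          exact this.2
        · rintro ⟨_, h⟩ u hu
          rw [Finset.mem_filter]
          exact ⟨Finset.mem_univ u, h u hu⟩
      simp only [this]
    rw [e3]; ring
  simp only [h1]
  rw [Finset.sum_comm]
  refine Finset.sum_congr rfl fun A _ => ?_
  by_cases hA : A.Nonempty
  · obtain ⟨a, ha⟩ := hA
    by_cases hL : inL r A
    · rw [if_pos ⟨⟨a, ha⟩, hL⟩, Finset.sum_eq_single (r a)]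
      · rw [if_pos]
        exact ⟨⟨a, ha⟩, fun u hu => hL u hu a ha⟩
      · intro k _ hk
        rw [if_neg]
        rintro ⟨_, h⟩
        exact hk (h a ha).symm
      · intro h; exact absurd (Finset.mem_univ _) h
    · rw [if_neg (fun h => hL h.2)]
      apply Finset.sum_eq_zero
      intro k _
      rw [if_neg]
      rintro ⟨_, h⟩
      apply hL
      intro u hu v hv
      rw [h u hu, h v hv]
  · rw [if_neg (fun h => hA h.1)]
    apply Finset.sum_eq_zero
    intro k _
    rw [if_neg (fun h => hA h.1)]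

lemma rowsum_eq (z : I × J → ℝ) : ∑ i : I, (∏ j : J, (1 + z (i, j)) - 1) = rowsum z := by
  unfold rowsum
  rw [← line_sum (Prod.fst : I × J → I) z]
  refine Finset.sum_congr rfl fun i _ => ?_
  congr 1
  rw [Finset.prod_filter, Fintype.prod_prod_type]
  rw [Finset.prod_eq_single i]
  · simp
  · intro k _ hk
    simp [hk]
  · simp

lemma colsum_eq (z : I × J → ℝ) : ∑ j : J, (∏ i : I, (1 + z (i, j)) - 1) = colsum z := by
  unfold colsum
  rw [← line_sum (Prod.snd : I × J → J) z]
  refine Finset.sum_congr rfl fun j _ => ?_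
  congr 1
  rw [Finset.prod_filter, Fintype.prod_prod_type_right]
  rw [Finset.prod_eq_single j]
  · simp
  · intro k _ hk
    simp [hk]
  · simp

lemma s_eq (z : I × J → ℝ) :
    ∑ u, z u = ∑ A : Finset (I × J), if A.card = 1 then ww z A else 0 := by
  rw [ord1 (fun A => ww z A)]
  refine Finset.sum_congr rfl fun u _ => ?_
  simp [ww]

lemma QF_card (A : Finset (I × J)) (h : QF A) : 2 ≤ A.card := by
  by_contra hlt
  push Not at hlt
  have h1 : A.card ≤ 1 := by omega
  rw [Finset.card_le_one] at h1
  apply h.1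
  intro u hu v hv
  rw [h1 u hu v hv]

lemma total_eq (z : I × J → ℝ) :
    ∏ u, (1 + z u) - 1 = (∑ u, z u) + e2 z + E3 z := by
  rw [prod_eq_sum_ww, s_eq, e2, E3, ← Finset.sum_add_distrib, ← Finset.sum_add_distrib,
    sub_eq_iff_eq_add]
  have h1 : (1 : ℝ) = ∑ A : Finset (I × J), if A.card = 0 then ww z A else 0 := by
    rw [Finset.sum_eq_single ∅]
    · simp [ww]
    · intro A _ hA
      rw [if_neg]
      exact fun h => hA (Finset.card_eq_zero.mp h)
    · simp
  refine Eq.trans ?_ (congrArg (fun t => _ + t) h1.symm)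
  rw [← Finset.sum_add_distrib]
  refine Finset.sum_congr rfl fun A _ => ?_
  rw [if_pos (Finset.subset_univ A)]
  rcases Nat.lt_or_ge A.card 3 with h | h
  · interval_cases A.card <;> simp
  · have h0 : ¬ A.card = 0 := by omega
    have h1 : ¬ A.card = 1 := by omega
    have h2 : ¬ A.card = 2 := by omega
    simp [h, h0, h1, h2]

lemma total_eq2 (z : I × J → ℝ) :
    ∏ u, (1 + z u) - 1 = rowsum z + colsum z - (∑ u, z u) + (NN z + Q3 z + Q4 z) := by
  rw [prod_eq_sum_ww, s_eq, rowsum, colsum, NN, Q3, Q4, sub_eq_iff_eq_add]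
  have h1 : (1 : ℝ) = ∑ A : Finset (I × J), if A.card = 0 then ww z A else 0 := by
    rw [Finset.sum_eq_single ∅]
    · simp [ww]
    · intro A _ hA
      rw [if_neg]
      exact fun h => hA (Finset.card_eq_zero.mp h)
    · simp
  refine Eq.trans ?_ (congrArg (fun t => _ + t) h1.symm)
  rw [← Finset.sum_add_distrib, ← Finset.sum_add_distrib, ← Finset.sum_add_distrib,
    ← Finset.sum_sub_distrib, ← Finset.sum_add_distrib, ← Finset.sum_add_distrib]
  refine Finset.sum_congr rfl fun A _ => ?_
  rw [if_pos (Finset.subset_univ A)]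
  rcases Nat.lt_or_ge A.card 2 with h | h
  · have hQ : ¬ QF A := fun hQ => by have := QF_card A hQ; omega
    rcases Nat.lt_or_ge A.card 1 with h' | h'
    · have hA : A = ∅ := Finset.card_eq_zero.mp (by omega)
      subst hA
      simp
    · have hA1 : A.card = 1 := by omega
      obtain ⟨a, rfl⟩ := Finset.card_eq_one.mp hA1
      have hR : inL (Prod.fst : I × J → I) {a} := by
        intro u hu v hv
        rw [Finset.mem_singleton] at hu hv
        rw [hu, hv]
      have hC : inL (Prod.snd : I × J → J) {a} := by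
        intro u hu v hv
        rw [Finset.mem_singleton] at hu hv
        rw [hu, hv]
      rw [if_pos ⟨Finset.singleton_nonempty a, hR⟩, if_pos ⟨Finset.singleton_nonempty a, hC⟩]
      simp
  · have hne : A.Nonempty := by rw [← Finset.card_pos]; omega
    have h1 : ¬ A.card = 1 := by omega
    have h0 : ¬ A.card = 0 := by omega
    have hsum : (if A.card = 2 then (if QF A then ww z A else 0) else 0)
        + (if A.card = 3 then (if QF A then ww z A else 0) else 0)
        + (if 4 ≤ A.card then (if QF A then ww z A else 0) else 0)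
        = if QF A then ww z A else 0 := by
      rcases Nat.lt_or_ge A.card 4 with h4 | h4
      · have : ¬ 4 ≤ A.card := by omega
        rcases Nat.lt_or_ge A.card 3 with h3 | h3
        · have h2 : A.card = 2 := by omega
          simp [h2]
        · have h3 : A.card = 3 := by omega
          simp [h3]
      · have h2 : ¬ A.card = 2 := by omega
        have h3 : ¬ A.card = 3 := by omega
        simp [h2, h3, h4]
    rw [hsum, if_neg h1, if_neg h0]
    by_cases hR : inL (Prod.fst : I × J → I) A
    · have hC : ¬ inL (Prod.snd : I × J → J) A := by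
        intro hC
        have : A.card ≤ 1 := by
          rw [Finset.card_le_one]
          intro a ha b hb
          exact Prod.ext (hR a ha b hb) (hC a ha b hb)
        omega
      have hQ : ¬ QF A := fun hQ => hQ.1 hR
      rw [if_pos ⟨hne, hR⟩, if_neg (fun h => hC h.2), if_neg hQ]; ring
    · by_cases hC : inL (Prod.snd : I × J → J) A
      · have hQ : ¬ QF A := fun hQ => hQ.2 hC
        rw [if_neg (fun h => hR h.2), if_pos ⟨hne, hC⟩, if_neg hQ]; ring
      · rw [if_neg (fun h => hR h.2), if_neg (fun h => hC h.2), if_pos ⟨hR, hC⟩]; ring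

lemma row_ge2 (z : I × J → ℝ) : rowsum z - ∑ u, z u
    = ∑ A : Finset (I × J), if (2 ≤ A.card ∧ inL (Prod.fst : I × J → I) A) then ww z A else 0 := by
  rw [s_eq, rowsum, ← Finset.sum_sub_distrib]
  refine Finset.sum_congr rfl fun A _ => ?_
  rcases Nat.lt_or_ge A.card 2 with h | h
  · rw [if_neg (fun h' : 2 ≤ A.card ∧ _ => by omega)]
    rcases Nat.lt_or_ge A.card 1 with h' | h'
    · have hA : A = ∅ := Finset.card_eq_zero.mp (by omega)
      subst hA
      simp
    · have hA1 : A.card = 1 := by omega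
      obtain ⟨a, rfl⟩ := Finset.card_eq_one.mp hA1
      have hR : inL (Prod.fst : I × J → I) {a} := by
        intro u hu v hv
        rw [Finset.mem_singleton] at hu hv
        rw [hu, hv]
      rw [if_pos ⟨Finset.singleton_nonempty a, hR⟩]
      simp
  · have hne : A.Nonempty := by rw [← Finset.card_pos]; omega
    have h1 : ¬ A.card = 1 := by omega
    rw [if_neg h1, sub_zero]
    by_cases hR : inL (Prod.fst : I × J → I) A
    · rw [if_pos ⟨hne, hR⟩, if_pos ⟨h, hR⟩]
    · rw [if_neg (fun h => hR h.2), if_neg (fun h => hR h.2)]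

lemma col_ge2 (z : I × J → ℝ) : colsum z - ∑ u, z u
    = ∑ A : Finset (I × J), if (2 ≤ A.card ∧ inL (Prod.snd : I × J → J) A) then ww z A else 0 := by
  rw [s_eq, colsum, ← Finset.sum_sub_distrib]
  refine Finset.sum_congr rfl fun A _ => ?_
  rcases Nat.lt_or_ge A.card 2 with h | h
  · rw [if_neg (fun h' : 2 ≤ A.card ∧ _ => by omega)]
    rcases Nat.lt_or_ge A.card 1 with h' | h'
    · have hA : A = ∅ := Finset.card_eq_zero.mp (by omega)
      subst hA
      simp
    · have hA1 : A.card = 1 := by omega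
      obtain ⟨a, rfl⟩ := Finset.card_eq_one.mp hA1
      have hR : inL (Prod.snd : I × J → J) {a} := by
        intro u hu v hv
        rw [Finset.mem_singleton] at hu hv
        rw [hu, hv]
      rw [if_pos ⟨Finset.singleton_nonempty a, hR⟩]
      simp
  · have hne : A.Nonempty := by rw [← Finset.card_pos]; omega
    have h1 : ¬ A.card = 1 := by omega
    rw [if_neg h1, sub_zero]
    by_cases hR : inL (Prod.snd : I × J → J) A
    · rw [if_pos ⟨hne, hR⟩, if_pos ⟨h, hR⟩]
    · rw [if_neg (fun h => hR h.2), if_neg (fun h => hR h.2)]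

lemma prod_ge2 (z : I × J → ℝ) :
    (rowsum z - ∑ u, z u) * (colsum z - ∑ u, z u) = R2 z * C2 z + XX z := by
  rw [row_ge2, col_ge2]
  unfold R2 C2 XX PT
  rw [Finset.sum_mul_sum, Finset.sum_mul_sum, Finset.sum_filter, Fintype.sum_prod_type,
    ← Finset.sum_add_distrib]
  refine Finset.sum_congr rfl fun A _ => ?_
  rw [← Finset.sum_add_distrib]
  refine Finset.sum_congr rfl fun B _ => ?_
  simp only
  have key : ∀ (a b : ℕ) (p q : Prop) [Decidable p] [Decidable q] (x y : ℝ),
      (if (2 ≤ a ∧ p) then x else 0) * (if (2 ≤ b ∧ q) then y else 0)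
        = (if a = 2 then (if p then x else 0) else 0) * (if b = 2 then (if q then y else 0) else 0)
          + if ((2 ≤ a ∧ p) ∧ (2 ≤ b ∧ q) ∧ 5 ≤ a + b) then x * y else 0 := by
    intro a b p q _ _ x y
    by_cases hp : p
    swap
    · simp [hp]
    by_cases hq : q
    swap
    · simp [hq]
    by_cases ha : 2 ≤ a
    swap
    · have : ¬ a = 2 := by omega
      simp [ha, this]
    by_cases hb : 2 ≤ b
    swap
    · have : ¬ b = 2 := by omega
      simp [hb, this]
    by_cases h5 : 5 ≤ a + b
    · have hc : (2 ≤ a ∧ p) ∧ (2 ≤ b ∧ q) ∧ 5 ≤ a + b := ⟨⟨ha, hp⟩, ⟨hb, hq⟩, h5⟩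
      by_cases hA2 : a = 2
      · have hB2 : ¬ b = 2 := by omega
        rw [if_pos hc, if_pos hc.1, if_pos hc.2.1, if_neg hB2]
        ring
      · rw [if_pos hc, if_pos hc.1, if_pos hc.2.1, if_neg hA2]
        ring
    · have hA2 : a = 2 := by omega
      have hB2 : b = 2 := by omega
      rw [if_pos ⟨ha, hp⟩, if_pos ⟨hb, hq⟩, if_pos hA2, if_pos hB2, if_pos hp, if_pos hq,
        if_neg (fun h => h5 h.2.2)]
      ring
  exact key A.card B.card _ _ _ _

/-- The matrix inequality. -/
theorem matrix_ineq (z : I × J → ℝ) (hz : ∀ u, 0 ≤ z u) :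
    (∏ u, (1 + z u) - 1) * ((∑ u, z u) - NN z)
      ≤ (∑ i : I, (∏ j : J, (1 + z (i, j)) - 1)) * (∑ j : J, (∏ i : I, (1 + z (i, j)) - 1)) := by
  rw [rowsum_eq, colsum_eq]
  have h1 := total_eq z
  have h2 := total_eq2 z
  have h3 := prod_ge2 z
  have h4 := D4 z hz
  have h5 := high z hz
  set P := ∏ u, (1 + z u) - 1
  set s := ∑ u, z u
  -- `Q s ≤ (ρ - s)(κ - s) + N P`
  have h6 : (NN z + Q3 z + Q4 z) * s ≤ (rowsum z - s) * (colsum z - s) + NN z * P := by
    rw [h3, h1]; linarith
  have h7 : P * s = (rowsum z + colsum z - s + (NN z + Q3 z + Q4 z)) * s := by rw [← h2]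
  linarith [h6, h7, mul_comm P (NN z)]

end Pool.Agent.Helper28.Rank3
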