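import Pool.Agent.Helper28.Rank3.Matrix

set_option autoImplicit false
set_option linter.unusedSectionVars false

namespace Pool.Agent.Helper28.Rank3

open Finset

variable {α K : Type*} [DecidableEq α] [Fintype K] [DecidableEq K]

/-- weight of the elements of `S` with label `u` -/
def Zc (π : α → K) (z : α → ℝ) (S : Finset α) (u : K) : ℝ :=
  ∏ p ∈ S.filter (fun p => π p = u), (1 + z p) - 1

lemma sum_split_insert (c : K) (H : Finset K → ℝ) :
    ∑ A : Finset K, H A = ∑ A ∈ (univ.erase c).powerset, (H A + H (insert c A)) := by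
  have h1 : (univ : Finset (Finset K)) = (insert c (univ.erase c)).powerset := by
    rw [Finset.insert_erase (Finset.mem_univ c)]
    simp
  rw [h1, Finset.sum_powerset_insert (Finset.notMem_erase c univ), Finset.sum_add_distrib]

lemma merge (π : α → K) (z : α → ℝ) (S : Finset α) :
    ∀ F : Finset K → ℝ, ∑ B ∈ S.powerset, F (B.image π) * ∏ p ∈ B, z p
      = ∑ A : Finset K, F A * ∏ u ∈ A, Zc π z S u := by
  induction S using Finset.induction_on with
  | empty =>
    intro F
    rw [Finset.powerset_empty, Finset.sum_singleton]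
    rw [Finset.sum_eq_single ∅]
    · simp
    · intro A _ hA
      obtain ⟨a, ha⟩ := Finset.nonempty_iff_ne_empty.mpr hA
      rw [Finset.prod_eq_zero ha]
      · simp
      · simp [Zc]
    · simp
  | insert a S ha ih =>
    intro F
    rw [Finset.sum_powerset_insert ha]
    have h1 : ∑ B ∈ S.powerset, F ((insert a B).image π) * ∏ p ∈ insert a B, z p
        = z a * ∑ B ∈ S.powerset, F (insert (π a) (B.image π)) * ∏ p ∈ B, z p := by
      rw [Finset.mul_sum]
      refine Finset.sum_congr rfl fun B hB => ?_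
      have haB : a ∉ B := fun h => ha (Finset.mem_powerset.mp hB h)
      rw [Finset.image_insert, Finset.prod_insert haB]; ring
    rw [h1, ih F, ih (fun A => F (insert (π a) A))]
    set c := π a with hc
    have hZne : ∀ u, u ≠ c → Zc π z (insert a S) u = Zc π z S u := by
      intro u hu
      unfold Zc
      rw [Finset.filter_insert, if_neg (fun h => hu (by rw [← h]))]
    have hZc : Zc π z (insert a S) c = Zc π z S c + z a * (1 + Zc π z S c) := by
      unfold Zc
      rw [Finset.filter_insert, if_pos hc.symm, Finset.prod_insert]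
      · ring
      · simp [ha]
    rw [sum_split_insert c, sum_split_insert c (fun A => F (insert c A) * ∏ u ∈ A, Zc π z S u),
      sum_split_insert c (fun A => F A * ∏ u ∈ A, Zc π z (insert a S) u), Finset.mul_sum,
      ← Finset.sum_add_distrib]
    refine Finset.sum_congr rfl fun A hA => ?_
    have hcA : c ∉ A := by
      rw [Finset.mem_powerset] at hA
      intro h
      exact Finset.notMem_erase c univ (hA h)
    have hprod : ∏ u ∈ A, Zc π z (insert a S) u = ∏ u ∈ A, Zc π z S u := by
      refine Finset.prod_congr rfl fun u hu => hZne u ?_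
      rintro rfl
      exact hcA hu
    rw [Finset.prod_insert hcA, Finset.prod_insert hcA, hprod, hZc, Finset.insert_idem]
    ring

lemma sum_powerset_union (O K' : Finset α) (h : Disjoint O K') (H : Finset α → ℝ) :
    ∑ A ∈ (O ∪ K').powerset, H A = ∑ B ∈ O.powerset, ∑ C ∈ K'.powerset, H (B ∪ C) := by
  rw [← Finset.sum_product']
  symm
  refine Finset.sum_nbij' (fun p => p.1 ∪ p.2) (fun A => (A ∩ O, A ∩ K')) ?_ ?_ ?_ ?_ ?_
  · rintro ⟨B, C⟩ hp
    rw [Finset.mem_product, Finset.mem_powerset, Finset.mem_powerset] at hp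
    rw [Finset.mem_powerset]
    exact Finset.union_subset_union hp.1 hp.2
  · intro A hA
    rw [Finset.mem_product, Finset.mem_powerset, Finset.mem_powerset]
    exact ⟨Finset.inter_subset_right, Finset.inter_subset_right⟩
  · rintro ⟨B, C⟩ hp
    rw [Finset.mem_product, Finset.mem_powerset, Finset.mem_powerset] at hp
    simp only at hp
    rw [Finset.disjoint_left] at h
    simp only [Prod.mk.injEq]
    constructor
    · ext x
      simp only [Finset.mem_inter, Finset.mem_union]
      constructor
      · rintro ⟨h1 | h1, h2⟩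
        · exact h1
        · exact absurd (hp.2 h1) (h h2)
      · intro h1; exact ⟨Or.inl h1, hp.1 h1⟩
    · ext x
      simp only [Finset.mem_inter, Finset.mem_union]
      constructor
      · rintro ⟨h1 | h1, h2⟩
        · exact absurd h2 (h (hp.1 h1))
        · exact h1
      · intro h1; exact ⟨Or.inr h1, hp.2 h1⟩
  · intro A hA
    rw [Finset.mem_powerset] at hA
    simp only
    rw [← Finset.inter_union_distrib_left]
    exact Finset.inter_eq_left.mpr hA
  · rintro ⟨B, C⟩ _; rfl

/-- sum over the subsets of `K'` contained in `K₀ ⊆ K'` -/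
lemma sum_sub (z : α → ℝ) (K' K₀ : Finset α) (h : K₀ ⊆ K') :
    ∑ C ∈ K'.powerset, (if C ⊆ K₀ then ∏ p ∈ C, z p else 0) = ∏ p ∈ K₀, (1 + z p) := by
  rw [Finset.prod_one_add, ← Finset.sum_filter]
  refine Finset.sum_congr ?_ fun A _ => rfl
  ext A
  simp only [Finset.mem_filter, Finset.mem_powerset]
  constructor
  · rintro ⟨_, h1⟩; exact h1
  · intro h1; exact ⟨h1.trans h, h1⟩

/-- sum over the subsets of `K'` which have exactly one element outside `K₀`, that element
belonging to `K₃` -/
lemma sum_one (z : α → ℝ) (hz : ∀ p, 0 ≤ z p) (K' K₀ K₃ : Finset α) (h : K₀ ⊆ K') (h3 : K₃ ⊆ K')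
    (hd : Disjoint K₀ K₃) (Q : Finset α → Prop) [DecidablePred Q]
    (hQ : ∀ C, C ⊆ K' → (∃ p ∈ K₃, p ∈ C ∧ ∀ x ∈ C, x ∈ K₀ ∨ x = p) → Q C) :
    (∑ p ∈ K₃, z p) * ∏ p ∈ K₀, (1 + z p)
      ≤ ∑ C ∈ K'.powerset, (if Q C then ∏ p ∈ C, z p else 0) := by
  rw [Finset.prod_one_add, Finset.sum_mul_sum, ← Finset.sum_product', ← Finset.sum_filter]
  rw [Finset.disjoint_left] at hd
  apply sum_le_of_inj _ _ (fun q : α × Finset α => insert q.1 q.2)
  · rintro ⟨p, C⟩ hp
    rw [Finset.mem_product, Finset.mem_powerset] at hp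
    simp only at hp
    have hsub : insert p C ⊆ K' := by
      intro x hx
      rw [Finset.mem_insert] at hx
      rcases hx with rfl | hx
      · exact h3 hp.1
      · exact h (hp.2 hx)
    rw [Finset.mem_filter, Finset.mem_powerset]
    refine ⟨hsub, hQ _ hsub ⟨p, hp.1, Finset.mem_insert_self p C, ?_⟩⟩
    intro x hx
    rw [Finset.mem_insert] at hx
    rcases hx with rfl | hx
    · right; rfl
    · left; exact hp.2 hx
  · rintro ⟨p, C⟩ hp ⟨p', C'⟩ hp' heq
    rw [Finset.mem_product, Finset.mem_powerset] at hp hp'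
    simp only at hp hp' heq
    have hpC : p ∉ C := fun hh => hd (hp.2 hh) hp.1
    have hpC' : p' ∉ C' := fun hh => hd (hp'.2 hh) hp'.1
    have e1 : p = p' := by
      have : p ∈ insert p' C' := by rw [← heq]; exact Finset.mem_insert_self p C
      rw [Finset.mem_insert] at this
      rcases this with h1 | h1
      · exact h1
      · exact absurd hp.1 (hd (hp'.2 h1))
    subst e1
    have e2 : C = C' := by
      rw [← Finset.erase_insert hpC, heq, Finset.erase_insert hpC']
    rw [e2]
  · rintro ⟨p, C⟩ hp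
    rw [Finset.mem_product, Finset.mem_powerset] at hp
    simp only at hp
    have hpC : p ∉ C := fun hh => hd (hp.2 hh) hp.1
    simp only
    rw [Finset.prod_insert hpC]
  · intro C _
    exact Finset.prod_nonneg fun p _ => hz p

lemma one_sub_mul_prod_le (z : α → ℝ) (hz : ∀ p, 0 ≤ z p) (S : Finset α) :
    (1 - ∑ p ∈ S, z p) * ∏ p ∈ S, (1 + z p) ≤ 1 := by
  induction S using Finset.induction_on with
  | empty => simp
  | insert a S ha ih =>
    rw [Finset.sum_insert ha, Finset.prod_insert ha]
    have h1 : 0 ≤ ∏ p ∈ S, (1 + z p) := Finset.prod_nonneg fun p _ => by linarith [hz p]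
    have h2 : 0 ≤ ∑ p ∈ S, z p := Finset.sum_nonneg fun p _ => hz p
    have h3 := hz a
    have h4 : (1 - (z a + ∑ p ∈ S, z p)) * (1 + z a) ≤ 1 - ∑ p ∈ S, z p := by nlinarith
    calc (1 - (z a + ∑ p ∈ S, z p)) * ((1 + z a) * ∏ p ∈ S, (1 + z p))
        = ((1 - (z a + ∑ p ∈ S, z p)) * (1 + z a)) * ∏ p ∈ S, (1 + z p) := by ring
      _ ≤ (1 - ∑ p ∈ S, z p) * ∏ p ∈ S, (1 + z p) := mul_le_mul_of_nonneg_right h4 h1
      _ ≤ 1 := ih

end Pool.Agent.Helper28.Rank3
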