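import Pool.Agent.Helper28.Rank3.Mat

set_option autoImplicit false
set_option linter.unusedSectionVars false

namespace Pool.Agent.Helper28.Rank3

open Finset

section general
variable {α : Type*} [DecidableEq α]

lemma factor (z : α → ℝ) (O K : Finset α) (hd : Disjoint O K) (φ ψ : Finset α → Prop)
    [DecidablePred φ] [DecidablePred ψ] :
    ∑ B ∈ O.powerset, ∑ C ∈ K.powerset, (if (φ B ∧ ψ C) then ∏ p ∈ B ∪ C, z p else 0)
      = (∑ B ∈ O.powerset, if φ B then ∏ p ∈ B, z p else 0)
        * (∑ C ∈ K.powerset, if ψ C then ∏ p ∈ C, z p else 0) := by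
  rw [Finset.sum_mul_sum]
  refine Finset.sum_congr rfl fun B hB => Finset.sum_congr rfl fun C hC => ?_
  rw [Finset.mem_powerset] at hB hC
  rw [Finset.prod_union (Finset.disjoint_of_subset_left hB (Finset.disjoint_of_subset_right hC hd))]
  by_cases h1 : φ B <;> by_cases h2 : ψ C <;> simp [h1, h2]

/-- the basic algebraic reduction of the correlation inequality -/
lemma corr_of (E' : Finset α) (w : Finset α → ℝ) (q qe qf qef : Finset α → Prop)
    [DecidablePred q] [DecidablePred qe] [DecidablePred qf] [DecidablePred qef]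
    (h1 : ∀ A, q A → qe A) (h2 : ∀ A, q A → qf A) (h3 : ∀ A, qe A → qef A) (h4 : ∀ A, qf A → qef A)
    (h : (∑ A ∈ E'.powerset, if qef A then w A else 0) *
        ((∑ A ∈ E'.powerset, if (qef A ∧ ¬ qe A ∧ ¬ qf A) then w A else 0)
          - ∑ A ∈ E'.powerset, if (qe A ∧ qf A ∧ ¬ q A) then w A else 0)
      ≤ (∑ A ∈ E'.powerset, if (qef A ∧ ¬ qe A) then w A else 0)
        * (∑ A ∈ E'.powerset, if (qef A ∧ ¬ qf A) then w A else 0)) :
    (∑ A ∈ E'.powerset, if qef A then w A else 0) * (∑ A ∈ E'.powerset, if q A then w A else 0)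
      ≤ (∑ A ∈ E'.powerset, if qe A then w A else 0)
        * (∑ A ∈ E'.powerset, if qf A then w A else 0) := by
  have e1 : (∑ A ∈ E'.powerset, if qe A then w A else 0)
      = (∑ A ∈ E'.powerset, if qef A then w A else 0)
        - ∑ A ∈ E'.powerset, if (qef A ∧ ¬ qe A) then w A else 0 := by
    rw [← Finset.sum_sub_distrib]
    refine Finset.sum_congr rfl fun A _ => ?_
    have := h3 A
    by_cases a : qe A <;> by_cases b : qef A <;> simp_all
  have e2 : (∑ A ∈ E'.powerset, if qf A then w A else 0)
      = (∑ A ∈ E'.powerset, if qef A then w A else 0)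
        - ∑ A ∈ E'.powerset, if (qef A ∧ ¬ qf A) then w A else 0 := by
    rw [← Finset.sum_sub_distrib]
    refine Finset.sum_congr rfl fun A _ => ?_
    have := h4 A
    by_cases a : qf A <;> by_cases b : qef A <;> simp_all
  have e3 : (∑ A ∈ E'.powerset, if q A then w A else 0)
      = (∑ A ∈ E'.powerset, if qef A then w A else 0)
        - (∑ A ∈ E'.powerset, if (qef A ∧ ¬ qe A) then w A else 0)
        - (∑ A ∈ E'.powerset, if (qef A ∧ ¬ qf A) then w A else 0)
        + (∑ A ∈ E'.powerset, if (qef A ∧ ¬ qe A ∧ ¬ qf A) then w A else 0)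
        - ∑ A ∈ E'.powerset, if (qe A ∧ qf A ∧ ¬ q A) then w A else 0 := by
    rw [← Finset.sum_sub_distrib, ← Finset.sum_sub_distrib, ← Finset.sum_add_distrib,
      ← Finset.sum_sub_distrib]
    refine Finset.sum_congr rfl fun A _ => ?_
    have t1 := h1 A
    have t2 := h2 A
    have t3 := h3 A
    have t4 := h4 A
    by_cases a : q A
    · have a1 := t1 a
      have a2 := t2 a
      have a3 := t3 a1
      simp [a, a1, a2, a3]
    · by_cases b : qe A
      · have b1 := t3 b
        by_cases c : qf A
        · simp [a, b, c, b1]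
        · simp [a, b, c, b1]
      · by_cases c : qf A
        · have c1 := t4 c
          simp [a, b, c, c1]
        · by_cases d : qef A
          · simp [a, b, c, d]
          · simp [a, b, c, d]
  rw [e1, e2, e3]
  nlinarith [h]

end general

section
variable {α : Type*} [Fintype α] [DecidableEq α]

/-- from sums over all subsets to sums over subsets avoiding `e` and `f` -/
lemma sum_all (e f : α) (hne : e ≠ f) (H : Finset α → ℝ) :
    ∑ A : Finset α, H A = ∑ A ∈ ((univ.erase e).erase f).powerset,
      (H A + H (insert e A) + H (insert f A) + H (insert e (insert f A))) := by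
  have h1 : (univ : Finset (Finset α)) = (insert e (univ.erase e)).powerset := by
    rw [Finset.insert_erase (Finset.mem_univ e)]
    simp
  have hf : f ∈ univ.erase e := by simp [hne.symm]
  rw [h1, Finset.sum_powerset_insert (Finset.notMem_erase e univ)]
  have h2 : univ.erase e = insert f ((univ.erase e).erase f) := (Finset.insert_erase hf).symm
  have h3 : ∀ G : Finset α → ℝ, ∑ A ∈ (univ.erase e).powerset, G A
      = (∑ A ∈ ((univ.erase e).erase f).powerset, G A)
        + ∑ A ∈ ((univ.erase e).erase f).powerset, G (insert f A) := by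
    intro G
    conv_lhs => rw [h2]
    rw [Finset.sum_powerset_insert (Finset.notMem_erase f _)]
  rw [h3, h3]
  rw [← Finset.sum_add_distrib, ← Finset.sum_add_distrib, ← Finset.sum_add_distrib]
  refine Finset.sum_congr rfl fun A _ => by ring

end

end Pool.Agent.Helper28.Rank3
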