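import Pool.Agent.Helper28.Rank3.D4
import Pool.Agent.Helper28.Rank3.Count

set_option autoImplicit false
set_option linter.unusedSectionVars false

namespace Pool.Agent.Helper28.Rank3

open Finset

section
variable {U : Type*} [Fintype U] [DecidableEq U]

lemma reindex (F : Finset U → U → ℝ) :
    ∑ A : Finset U, ∑ x ∈ A, F A x = ∑ B : Finset U, ∑ x ∈ Bᶜ, F (insert x B) x := by
  have h1 : ∑ A : Finset U, ∑ x ∈ A, F A x
      = ∑ x : U, ∑ A ∈ (univ : Finset (Finset U)).filter (fun A => x ∈ A), F A x := by
    have : ∀ A : Finset U, ∑ x ∈ A, F A x = ∑ x : U, if x ∈ A then F A x else 0 := by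
      intro A
      rw [Finset.sum_ite_mem, Finset.univ_inter]
    simp only [this]
    rw [Finset.sum_comm]
    refine Finset.sum_congr rfl fun x _ => ?_
    rw [Finset.sum_filter]
  have h2 : ∑ B : Finset U, ∑ x ∈ Bᶜ, F (insert x B) x
      = ∑ x : U, ∑ B ∈ (univ : Finset (Finset U)).filter (fun B => x ∉ B), F (insert x B) x := by
    have : ∀ B : Finset U, ∑ x ∈ Bᶜ, F (insert x B) x
        = ∑ x : U, if x ∈ Bᶜ then F (insert x B) x else 0 := by
      intro B
      rw [Finset.sum_ite_mem, Finset.univ_inter]
    simp only [this]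
    rw [Finset.sum_comm]
    refine Finset.sum_congr rfl fun x _ => ?_
    rw [Finset.sum_filter]
    simp only [Finset.mem_compl]
  rw [h1, h2]
  refine Finset.sum_congr rfl fun x _ => ?_
  refine Finset.sum_nbij' (fun A => A.erase x) (fun B => insert x B) ?_ ?_ ?_ ?_ ?_
  · intro A hA
    simp
  · intro B hB
    simp
  · intro A hA
    rw [Finset.mem_filter] at hA
    exact Finset.insert_erase hA.2
  · intro B hB
    rw [Finset.mem_filter] at hB
    exact Finset.erase_insert hB.2
  · intro A hA
    rw [Finset.mem_filter] at hA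
    rw [Finset.insert_erase hA.2]

lemma sum_compl_eq (F : Finset U → U → ℝ) :
    ∑ B : Finset U, ∑ x ∈ Bᶜ, F B x = ∑ A : Finset U, ∑ x ∈ A, F (A.erase x) x := by
  rw [reindex (fun A x => F (A.erase x) x)]
  refine Finset.sum_congr rfl fun B _ => Finset.sum_congr rfl fun x hx => ?_
  rw [Finset.mem_compl] at hx
  rw [Finset.erase_insert hx]

lemma card_step (k : ℕ) (G : Finset U → ℝ) :
    ((k : ℝ) + 1) * ∑ A : Finset U, (if A.card = k + 1 then G A else 0)
      = ∑ x : U, ∑ B : Finset U, if B.card = k then (if x ∉ B then G (insert x B) else 0) else 0 := by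
  have h1 : ((k : ℝ) + 1) * ∑ A : Finset U, (if A.card = k + 1 then G A else 0)
      = ∑ A : Finset U, ∑ x ∈ A, (if A.card = k + 1 then G A else 0) := by
    rw [Finset.mul_sum]
    refine Finset.sum_congr rfl fun A _ => ?_
    rw [Finset.sum_const, nsmul_eq_mul]
    by_cases h : A.card = k + 1
    · rw [if_pos h, h]; push_cast; ring
    · simp [h]
  rw [h1, reindex (fun A _ => if A.card = k + 1 then G A else 0), Finset.sum_comm]
  refine Finset.sum_congr rfl fun B _ => ?_
  have h2 : ∀ x : U, (if B.card = k then (if x ∉ B then G (insert x B) else 0) else 0)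
      = if x ∈ Bᶜ then (if B.card = k then G (insert x B) else 0) else 0 := by
    intro x
    simp only [Finset.mem_compl]
    by_cases h : x ∈ B <;> simp [h]
  simp only [h2]
  rw [Finset.sum_ite_mem, Finset.univ_inter]
  refine Finset.sum_congr rfl fun x hx => ?_
  rw [Finset.mem_compl] at hx
  rw [Finset.card_insert_of_notMem hx]
  simp

lemma ord1 (G : Finset U → ℝ) :
    ∑ A : Finset U, (if A.card = 1 then G A else 0) = ∑ u : U, G {u} := by
  have := card_step 0 G
  simp only [Nat.cast_zero, zero_add, one_mul] at this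
  rw [this]
  refine Finset.sum_congr rfl fun x _ => ?_
  rw [Finset.sum_eq_single ∅]
  · simp
  · intro B _ hB
    rw [if_neg]
    exact fun h => hB (Finset.card_eq_zero.mp h)
  · simp

lemma ord2 (G : Finset U → ℝ) :
    2 * ∑ A : Finset U, (if A.card = 2 then G A else 0)
      = ∑ u : U, ∑ v : U, if u ≠ v then G {u, v} else 0 := by
  have := card_step 1 G
  have h2 : ((1 : ℕ) : ℝ) + 1 = 2 := by norm_num
  rw [h2] at this
  rw [this]
  refine Finset.sum_congr rfl fun x _ => ?_
  rw [ord1 (fun B => if x ∉ B then G (insert x B) else 0)]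
  refine Finset.sum_congr rfl fun y _ => ?_
  simp

lemma ord3 (G : Finset U → ℝ) :
    6 * ∑ A : Finset U, (if A.card = 3 then G A else 0)
      = ∑ u : U, ∑ v : U, ∑ w : U,
        if v ≠ w then (if u ∉ ({v, w} : Finset U) then G {u, v, w} else 0) else 0 := by
  have := card_step 2 G
  have h2 : (6 : ℝ) = 2 * (((2 : ℕ) : ℝ) + 1) := by norm_num
  rw [h2, mul_assoc, this, Finset.mul_sum]
  refine Finset.sum_congr rfl fun x _ => ?_
  rw [ord2 (fun B => if x ∉ B then G (insert x B) else 0)]

end

section
variable {I J : Type*} [Fintype I] [Fintype J] [DecidableEq I] [DecidableEq J]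

abbrev QF (V : Finset (I × J)) : Prop := QQ (Prod.fst : I × J → I) (Prod.snd : I × J → J) V

def ww (z : I × J → ℝ) (A : Finset (I × J)) : ℝ := ∏ u ∈ A, z u

def e2 (z : I × J → ℝ) : ℝ := ∑ A : Finset (I × J), if A.card = 2 then ww z A else 0
def R2 (z : I × J → ℝ) : ℝ := ∑ A : Finset (I × J), if A.card = 2 then
  (if inL (Prod.fst : I × J → I) A then ww z A else 0) else 0
def C2 (z : I × J → ℝ) : ℝ := ∑ A : Finset (I × J), if A.card = 2 then
  (if inL (Prod.snd : I × J → J) A then ww z A else 0) else 0
def NN (z : I × J → ℝ) : ℝ := ∑ A : Finset (I × J), if A.card = 2 then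
  (if QF A then ww z A else 0) else 0
def Q3 (z : I × J → ℝ) : ℝ := ∑ A : Finset (I × J), if A.card = 3 then
  (if QF A then ww z A else 0) else 0

lemma ww_pair (z : I × J → ℝ) (u v : I × J) (h : u ≠ v) : ww z {u, v} = z u * z v := by
  unfold ww; rw [Finset.prod_pair h]

lemma rrcc_eq (u v : I × J) : rr u v * cc u v = if u = v then 1 else 0 := by
  unfold rr cc
  by_cases h : u = v
  · subst h; simp
  · have : ¬ (u.1 = v.1 ∧ u.2 = v.2) := fun h' => h (Prod.ext h'.1 h'.2)
    by_cases h1 : u.1 = v.1
    · have h2 : ¬ u.2 = v.2 := fun h2 => this ⟨h1, h2⟩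
      simp [h, h2]
    · simp [h, h1]

lemma inL_pair {K : Type*} [DecidableEq K] (r : I × J → K) (u v : I × J) :
    inL r {u, v} ↔ r u = r v := by
  unfold inL
  constructor
  · intro h; exact h u (by simp) v (by simp)
  · intro h a ha b hb
    simp only [Finset.mem_insert, Finset.mem_singleton] at ha hb
    rcases ha with rfl | rfl <;> rcases hb with rfl | rfl <;> simp [h]

lemma e2_eq (z : I × J → ℝ) : 2 * e2 z = (∑ u, z u) ^ 2 - ∑ u, z u * z u := by
  unfold e2
  rw [ord2 (fun A => ww z A)]
  have h : ∀ u v : I × J, (if u ≠ v then ww z {u, v} else 0)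
      = z u * z v - z u * (z v * (rr u v * cc u v)) := by
    intro u v
    rw [rrcc_eq]
    by_cases h : u = v
    · simp [h]
    · rw [if_pos h, ww_pair z u v h]; simp [h]
  simp only [h, Finset.sum_sub_distrib, ← Finset.mul_sum, sum_rrcc]
  rw [← Finset.sum_mul]; ring

lemma R2_eq (z : I × J → ℝ) : 2 * R2 z = (∑ u, z u * ra z u) - ∑ u, z u * z u := by
  unfold R2
  rw [ord2 (fun A => if inL (Prod.fst : I × J → I) A then ww z A else 0)]
  have h : ∀ u v : I × J, (if u ≠ v then
      (if inL (Prod.fst : I × J → I) {u, v} then ww z {u, v} else 0) else 0)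
      = z u * (z v * rr u v) - z u * (z v * (rr u v * cc u v)) := by
    intro u v
    rw [rrcc_eq]
    simp only [inL_pair]
    by_cases h : u = v
    · subst h; simp [rr]
    · rw [if_pos h, ww_pair z u v h]
      by_cases h' : u.1 = v.1
      · simp [h, h', rr]
      · simp [h, h', rr]
  simp only [h, Finset.sum_sub_distrib, ← Finset.mul_sum, sum_rrcc]
  rfl

lemma C2_eq (z : I × J → ℝ) : 2 * C2 z = (∑ u, z u * ca z u) - ∑ u, z u * z u := by
  unfold C2
  rw [ord2 (fun A => if inL (Prod.snd : I × J → J) A then ww z A else 0)]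
  have h : ∀ u v : I × J, (if u ≠ v then
      (if inL (Prod.snd : I × J → J) {u, v} then ww z {u, v} else 0) else 0)
      = z u * (z v * cc u v) - z u * (z v * (rr u v * cc u v)) := by
    intro u v
    rw [rrcc_eq]
    simp only [inL_pair]
    by_cases h : u = v
    · subst h; simp [cc]
    · rw [if_pos h, ww_pair z u v h]
      by_cases h' : u.2 = v.2
      · simp [h, h', cc]
      · simp [h, h', cc]
  simp only [h, Finset.sum_sub_distrib, ← Finset.mul_sum, sum_rrcc]
  rfl

lemma NN_eq (z : I × J → ℝ) : 2 * NN z =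
    (∑ u, z u) ^ 2 - (∑ u, z u * ra z u) - (∑ u, z u * ca z u) + ∑ u, z u * z u := by
  unfold NN
  rw [ord2 (fun A => if QF A then ww z A else 0)]
  have h : ∀ u v : I × J, (if u ≠ v then (if QF {u, v} then ww z {u, v} else 0) else 0)
      = z u * z v - z u * (z v * rr u v) - z u * (z v * cc u v)
        + z u * (z v * (rr u v * cc u v)) := by
    intro u v
    rw [rrcc_eq]
    simp only [QF, QQ, inL_pair]
    by_cases h : u = v
    · subst h; simp [rr, cc]
    · rw [if_pos h, ww_pair z u v h]
      by_cases h' : u.1 = v.1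
      · have h2 : ¬ u.2 = v.2 := fun h2 => h (Prod.ext h' h2)
        simp [h, h', h2, rr, cc]
      · by_cases h2 : u.2 = v.2
        · simp [h, h', h2, rr, cc]
        · simp [h, h', h2, rr, cc]
  simp only [h, Finset.sum_sub_distrib, Finset.sum_add_distrib, ← Finset.mul_sum, sum_rrcc]
  rw [← Finset.sum_mul]
  have hra : ∀ u, ∑ v, z v * rr u v = ra z u := fun u => rfl
  have hca : ∀ u, ∑ v, z v * cc u v = ca z u := fun u => rfl
  simp only [hra, hca]
  ring

lemma inL_triple {K : Type*} [DecidableEq K] (r : I × J → K) (u v w : I × J) :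
    inL r {u, v, w} ↔ (r u = r v ∧ r u = r w) := by
  unfold inL
  constructor
  · intro h; exact ⟨h u (by simp) v (by simp), h u (by simp) w (by simp)⟩
  · rintro ⟨h1, h2⟩ a ha b hb
    have key : ∀ a ∈ ({u, v, w} : Finset (I × J)), r a = r u := by
      intro a ha
      simp only [Finset.mem_insert, Finset.mem_singleton] at ha
      rcases ha with h | h | h
      · rw [h]
      · rw [h, h1]
      · rw [h, h2]
    rw [key a ha, key b hb]

lemma Q3_eq (z : I × J → ℝ) : 6 * Q3 z =
    (∑ u, z u) ^ 3 - 3 * (∑ u, z u) * (∑ u, z u * z u) - 2 * (∑ u, z u * z u * z u)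
      - (∑ u, z u * ra z u ^ 2) - (∑ u, z u * ca z u ^ 2)
      + 3 * (∑ u, z u * z u * ra z u) + 3 * (∑ u, z u * z u * ca z u) := by
  unfold Q3
  rw [ord3 (fun A => if QF A then ww z A else 0)]
  have hE : ∀ u v w : I × J, (if v ≠ w then (if u ∉ ({v, w} : Finset (I × J)) then
      (if QF {u, v, w} then ww z {u, v, w} else 0) else 0) else 0)
      = z u * z v * z w * (1 - rr u v * cc u v - rr u w * cc u w - rr v w * cc v w
        + 2 * ((rr u v * cc u v) * (rr u w * cc u w))
        - (rr u v * rr u w - (rr u v * cc u v) * rr u w - rr u v * (rr u w * cc u w)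
            - (rr v w * cc v w) * rr v u + 2 * ((rr u v * cc u v) * (rr u w * cc u w)))
        - (cc u v * cc u w - (rr u v * cc u v) * cc u w - cc u v * (rr u w * cc u w)
            - (rr v w * cc v w) * cc v u + 2 * ((rr u v * cc u v) * (rr u w * cc u w)))) := by
    intro u v w
    simp only [rrcc_eq]
    by_cases hvw : v = w
    · subst hvw
      by_cases huv : u = v
      · subst huv
        simp [rr, cc]; right; norm_num
      · have huv' : ¬ v = u := fun h => huv h.symm
        simp only [ne_eq, not_true_eq_false, if_false, huv]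
        have h1 : rr u v * rr u v = rr v u := by
          unfold rr; by_cases h : u.1 = v.1
          · simp [h]
          · have : ¬ v.1 = u.1 := fun h' => h h'.symm
            simp [h, this]
        have h2 : cc u v * cc u v = cc v u := by
          unfold cc; by_cases h : u.2 = v.2
          · simp [h]
          · have : ¬ v.2 = u.2 := fun h' => h h'.symm
            simp [h, this]
        rw [h1, h2]
        simp
    · rw [if_pos hvw]
      by_cases huv : u = v
      · subst huv
        simp [hvw, rr, cc]
      · by_cases huw : u = w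
        · subst huw
          have huv' : ¬ v = u := fun h => huv h.symm
          simp [huv, huv', rr, cc]
        · have hnot : u ∉ ({v, w} : Finset (I × J)) := by simp [huv, huw]
          rw [if_pos hnot]
          have hw : ww z {u, v, w} = z u * z v * z w := by
            unfold ww
            rw [Finset.prod_insert hnot, Finset.prod_pair hvw]; ring
          simp only [QF, QQ, inL_triple, hw, huv, huw, hvw, if_false]
          by_cases h1 : u.1 = v.1 ∧ u.1 = w.1
          · have h2 : ¬ (u.2 = v.2 ∧ u.2 = w.2) := fun h2 => huv (Prod.ext h1.1 h2.1)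
            have h3 : rr u v * rr u w = 1 := by
              unfold rr; rw [if_pos h1.1, if_pos h1.2]; norm_num
            have h4 : cc u v * cc u w = 0 := by
              unfold cc
              by_cases h5 : u.2 = v.2
              · have : ¬ u.2 = w.2 := fun h6 => h2 ⟨h5, h6⟩
                simp [this]
              · simp [h5]
            rw [h3, h4, if_neg (by tauto)]
            simp
          · have h3 : rr u v * rr u w = 0 := by
              unfold rr
              by_cases h5 : u.1 = v.1
              · have : ¬ u.1 = w.1 := fun h6 => h1 ⟨h5, h6⟩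
                simp [this]
              · simp [h5]
            by_cases h2 : u.2 = v.2 ∧ u.2 = w.2
            · have h4 : cc u v * cc u w = 1 := by
                unfold cc; rw [if_pos h2.1, if_pos h2.2]; norm_num
              rw [h3, h4, if_neg (by tauto)]
              simp
            · have h4 : cc u v * cc u w = 0 := by
                unfold cc
                by_cases h5 : u.2 = v.2
                · have : ¬ u.2 = w.2 := fun h6 => h2 ⟨h5, h6⟩
                  simp [this]
                · simp [h5]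
              rw [h3, h4, if_pos ⟨h1, h2⟩]
              simp
  simp only [hE]
  have hEE : (∑ u, ∑ v, ∑ w,
      z u * z v * z w * (1 - rr u v * cc u v - rr u w * cc u w - rr v w * cc v w
        + 2 * ((rr u v * cc u v) * (rr u w * cc u w))
        - (rr u v * rr u w - (rr u v * cc u v) * rr u w - rr u v * (rr u w * cc u w)
            - (rr v w * cc v w) * rr v u + 2 * ((rr u v * cc u v) * (rr u w * cc u w)))
        - (cc u v * cc u w - (rr u v * cc u v) * cc u w - cc u v * (rr u w * cc u w)
            - (rr v w * cc v w) * cc v u + 2 * ((rr u v * cc u v) * (rr u w * cc u w)))))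
      = EE z (fun u v w => (1 - rr u v * cc u v - rr u w * cc u w - rr v w * cc v w
        + 2 * ((rr u v * cc u v) * (rr u w * cc u w))
        - (rr u v * rr u w - (rr u v * cc u v) * rr u w - rr u v * (rr u w * cc u w)
            - (rr v w * cc v w) * rr v u + 2 * ((rr u v * cc u v) * (rr u w * cc u w)))
        - (cc u v * cc u w - (rr u v * cc u v) * cc u w - cc u v * (rr u w * cc u w)
            - (rr v w * cc v w) * cc v u
            + 2 * ((rr u v * cc u v) * (rr u w * cc u w))))) := rfl
  rw [hEE]
  simp only [EE_add, EE_sub, EE_smul]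
  rw [EE_one, EE_p12 z (fun u v => rr u v * cc u v), EE_p13 z (fun u v => rr u v * cc u v),
    EE_p23 z (fun u v => rr u v * cc u v),
    EE_cen2 z (fun u v => rr u v * cc u v) (fun u v => rr u v * cc u v),
    EE_cen2 z rr rr, EE_cen2 z cc cc, EE_cen2 z (fun u v => rr u v * cc u v) cc,
    EE_cen2 z cc (fun u v => rr u v * cc u v), EE_cen2 z (fun u v => rr u v * cc u v) rr,
    EE_cen2 z rr (fun u v => rr u v * cc u v), EE_d1, EE_d2]
  simp only [sum_rrcc]
  have hra : ∀ u, ∑ v, z v * rr u v = ra z u := fun u => rfl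
  have hca : ∀ u, ∑ v, z v * cc u v = ca z u := fun u => rfl
  simp only [hra, hca]
  have n2 : ∑ u, z u * ra z u * ra z u = ∑ u, z u * ra z u ^ 2 :=
    Finset.sum_congr rfl fun u _ => by ring
  have n3 : ∑ u, z u * ca z u * ca z u = ∑ u, z u * ca z u ^ 2 :=
    Finset.sum_congr rfl fun u _ => by ring
  have n4 : ∑ u, z u * ca z u * z u = ∑ u, z u * z u * ca z u :=
    Finset.sum_congr rfl fun u _ => by ring
  have n5 : ∑ u, z u * ra z u * z u = ∑ u, z u * z u * ra z u :=
    Finset.sum_congr rfl fun u _ => by ring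
  simp only [n2, n3, n4, n5]
  ring

lemma sum_ra (z : I × J → ℝ) : ∑ u, z u * ra z u = ∑ i : I, (∑ j : J, z (i, j)) ^ 2 := by
  have h : ∀ u : I × J, ra z u = ∑ j : J, z (u.1, j) := by
    intro u
    unfold ra rr
    rw [Fintype.sum_prod_type]
    rw [Finset.sum_eq_single u.1]
    · simp
    · intro i _ hi
      simp [hi.symm]
    · simp
  simp only [h]
  rw [Fintype.sum_prod_type]
  refine Finset.sum_congr rfl fun i _ => ?_
  simp only
  rw [← Finset.sum_mul]; ring

lemma sum_ca (z : I × J → ℝ) : ∑ u, z u * ca z u = ∑ j : J, (∑ i : I, z (i, j)) ^ 2 := by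
  have h : ∀ u : I × J, ca z u = ∑ i : I, z (i, u.2) := by
    intro u
    unfold ca cc
    rw [Fintype.sum_prod_type_right]
    rw [Finset.sum_eq_single u.2]
    · simp
    · intro i _ hi
      simp [hi.symm]
    · simp
  simp only [h]
  rw [Fintype.sum_prod_type_right]
  refine Finset.sum_congr rfl fun i _ => ?_
  simp only
  rw [← Finset.sum_mul]; ring

lemma sum_raca (z : I × J → ℝ) :
    ∑ u, (ra z u * ca z u) ^ 2 = (∑ u, z u * ra z u) * (∑ u, z u * ca z u) := by
  have h : ∀ u : I × J, ra z u = ∑ j : J, z (u.1, j) := by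
    intro u
    unfold ra rr
    rw [Fintype.sum_prod_type]
    rw [Finset.sum_eq_single u.1]
    · simp
    · intro i _ hi
      simp [hi.symm]
    · simp
  have h' : ∀ u : I × J, ca z u = ∑ i : I, z (i, u.2) := by
    intro u
    unfold ca cc
    rw [Fintype.sum_prod_type_right]
    rw [Finset.sum_eq_single u.2]
    · simp
    · intro i _ hi
      simp [hi.symm]
    · simp
  rw [sum_ra, sum_ca, Finset.sum_mul_sum, Fintype.sum_prod_type]
  refine Finset.sum_congr rfl fun i _ => Finset.sum_congr rfl fun j _ => ?_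
  rw [h, h']; ring

/-- The degree four inequality (equivalent to the Rayleigh property of rank three matroids). -/
theorem D4 (z : I × J → ℝ) (hz : ∀ u, 0 ≤ z u) :
    Q3 z * (∑ u, z u) ≤ R2 z * C2 z + NN z * e2 z := by
  have h0 : 0 ≤ ∑ u, z u := Finset.sum_nonneg fun u _ => hz u
  have h1 := T3g_nonneg z hz
  have h2 : 0 ≤ ∑ u, ((∑ v, z v) * z u - ra z u * ca z u) ^ 2 :=
    Finset.sum_nonneg fun u _ => sq_nonneg _
  have h3 : ∑ u, ((∑ v, z v) * z u - ra z u * ca z u) ^ 2
      = (∑ u, z u) ^ 2 * (∑ u, z u * z u) - 2 * (∑ u, z u) * (∑ u, z u * ra z u * ca z u)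
        + (∑ u, z u * ra z u) * (∑ u, z u * ca z u) := by
    rw [← sum_raca, Finset.mul_sum, Finset.mul_sum, ← Finset.sum_sub_distrib,
      ← Finset.sum_add_distrib]
    refine Finset.sum_congr rfl fun u _ => by ring
  have e := e2_eq z
  have r := R2_eq z
  have c := C2_eq z
  have n := NN_eq z
  have q := Q3_eq z
  have h4 := mul_nonneg h0 h1
  set s := ∑ u, z u
  set p2 := ∑ u, z u * z u
  set p3 := ∑ u, z u * z u * z u
  set S2 := ∑ u, z u * ra z u
  set T2 := ∑ u, z u * ca z u
  set S3 := ∑ u, z u * ra z u ^ 2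
  set T3 := ∑ u, z u * ca z u ^ 2
  set X := ∑ u, z u * ra z u * ca z u
  set Y1 := ∑ u, z u * z u * ra z u
  set Y2 := ∑ u, z u * z u * ca z u
  have e' : e2 z = (s ^ 2 - p2) / 2 := by linarith
  have r' : R2 z = (S2 - p2) / 2 := by linarith
  have c' : C2 z = (T2 - p2) / 2 := by linarith
  have n' : NN z = (s ^ 2 - S2 - T2 + p2) / 2 := by linarith
  have q' : Q3 z = (s ^ 3 - 3 * s * p2 - 2 * p3 - S3 - T3 + 3 * Y1 + 3 * Y2) / 6 := by linarith
  rw [e', r', c', n', q']
  rw [h3] at h2
  nlinarith [h2, h4]

end

end Pool.Agent.Helper28.Rank3
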