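import Pool.Agent.Helper28.Rank3.Final

set_option autoImplicit false
set_option linter.unusedSectionVars false

namespace Pool.Agent.Helper28.Rank3

open Finset

section
variable {α : Type*} [Fintype α] [DecidableEq α] (M : Matroid α)

lemma not_span_single (hE : M.E = Set.univ) (h2 : M.eRank = 2) {a : α} {X : Set α}
    (hX : X ⊆ M.closure {a}) : ¬ M.Spanning X := by
  intro h
  have h1 := h.closure_eq
  have h3 : M.closure X ⊆ M.closure {a} := M.closure_subset_closure_of_subset_closure hX
  rw [h1, hE] at h3
  have h4 : M.closure {a} = Set.univ := Set.univ_subset_iff.mp h3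
  have h5 : M.eRk {a} = 2 := by
    rw [← h2, ← M.eRk_closure_eq, h4, M.eRk_univ_eq]
  have h6 : M.eRk {a} ≤ 1 := by
    refine (M.eRk_le_encard _).trans ?_
    rw [Set.encard_singleton]
  rw [h5] at h6
  exact absurd h6 (by decide)

lemma span_pair (hE : M.E = Set.univ) (h2 : M.eRank = 2) {a b : α} (hab : M.Indep {a, b})
    (hne : a ≠ b) {X : Set α} (ha : a ∈ X) (hb : b ∈ X) : M.Spanning X := by
  have h4 : M.IsBase {a, b} := by
    apply hab.isBase_of_eRk_ge (Set.toFinite _)
    rw [hab.eRk_eq_encard, Set.encard_pair hne, h2]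
  apply h4.spanning_of_superset
  · intro x hx
    rcases hx with rfl | rfl
    · exact ha
    · exact hb

lemma not_span_insert2 (hE : M.E = Set.univ) (h2 : M.eRank = 2) {e f : α} (hef : M.Indep {e, f})
    (hne : e ≠ f) {A : Set α} : ¬ M.Spanning (insert e A) ↔ A ⊆ M.closure {e} := by
  have hee : e ∉ M.closure ∅ := fun h =>
    e_notMem hE hef hne (M.closure_subset_closure (Set.empty_subset _) h)
  have he : e ∈ M.closure {e} := M.mem_closure_of_mem rfl (by rw [hE]; exact Set.subset_univ _)
  constructor
  · intro h q hq
    by_contra hqn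
    have hqe : e ≠ q := by rintro rfl; exact hqn he
    exact h (span_pair M hE h2 (pair_indep hE hee hqn) hqe (by simp) (Set.mem_insert_of_mem _ hq))
  · intro h
    apply not_span_single M hE h2 (a := e)
    intro x hx
    rcases hx with rfl | hx
    · exact he
    · exact h hx

open Classical in
/-- Rank two: the core inequality. -/
lemma core2 (hE : M.E = Set.univ) (h2 : M.eRank = 2) {e f : α} (hef : M.Indep {e, f})
    (hne : e ≠ f) (z : α → ℝ) (hz : ∀ x, 0 ≤ z x) :
    (∑ A ∈ ((univ.erase e).erase f).powerset,
        if M.Spanning (insert e (insert f (A : Set α))) then ∏ p ∈ A, z p else 0) *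
      ((∑ A ∈ ((univ.erase e).erase f).powerset,
          if (M.Spanning (insert e (insert f (A : Set α))) ∧ ¬ M.Spanning (insert e (A : Set α))
            ∧ ¬ M.Spanning (insert f (A : Set α))) then ∏ p ∈ A, z p else 0)
        - ∑ A ∈ ((univ.erase e).erase f).powerset,
          if (M.Spanning (insert e (A : Set α)) ∧ M.Spanning (insert f (A : Set α))
            ∧ ¬ M.Spanning (A : Set α)) then ∏ p ∈ A, z p else 0)
      ≤ (∑ A ∈ ((univ.erase e).erase f).powerset,
          if (M.Spanning (insert e (insert f (A : Set α))) ∧ ¬ M.Spanning (insert e (A : Set α)))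
            then ∏ p ∈ A, z p else 0)
        * (∑ A ∈ ((univ.erase e).erase f).powerset,
          if (M.Spanning (insert e (insert f (A : Set α))) ∧ ¬ M.Spanning (insert f (A : Set α)))
            then ∏ p ∈ A, z p else 0) := by
  set K := (univ.erase e).erase f with hK
  have hfe : M.Indep {f, e} := by rw [Set.pair_comm]; exact hef
  set K0 := K.filter (fun p => p ∈ M.closure {e} ∧ p ∈ M.closure {f}) with hK0
  set K1 := K.filter (fun p => p ∈ M.closure {e}) with hK1
  set K2 := K.filter (fun p => p ∈ M.closure {f}) with hK2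
  set K3 := K.filter (fun p => p ∉ M.closure {e} ∧ p ∉ M.closure {f}) with hK3
  have hK0K : K0 ⊆ K := Finset.filter_subset _ _
  have hK1K : K1 ⊆ K := Finset.filter_subset _ _
  have hK2K : K2 ⊆ K := Finset.filter_subset _ _
  have hK3K : K3 ⊆ K := Finset.filter_subset _ _
  have k0 : ∀ A : Finset α, M.Spanning (insert e (insert f (A : Set α))) := fun A =>
    span_pair M hE h2 hef hne (by simp) (by simp)
  have k1 : ∀ A ∈ K.powerset, (¬ M.Spanning (insert e (A : Set α)) ↔ A ⊆ K1) := by
    intro A hA
    rw [Finset.mem_powerset] at hA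
    rw [not_span_insert2 M hE h2 hef hne]
    constructor
    · intro h x hx
      rw [hK1, Finset.mem_filter]
      exact ⟨hA hx, h hx⟩
    · intro h x hx
      have := h hx
      rw [hK1, Finset.mem_filter] at this
      exact this.2
  have k2 : ∀ A ∈ K.powerset, (¬ M.Spanning (insert f (A : Set α)) ↔ A ⊆ K2) := by
    intro A hA
    rw [Finset.mem_powerset] at hA
    rw [not_span_insert2 M hE h2 hfe hne.symm]
    constructor
    · intro h x hx
      rw [hK2, Finset.mem_filter]
      exact ⟨hA hx, h hx⟩
    · intro h x hx
      have := h hx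
      rw [hK2, Finset.mem_filter] at this
      exact this.2
  have hK012 : ∀ C : Finset α, (C ⊆ K1 ∧ C ⊆ K2) ↔ C ⊆ K0 := by
    intro C
    rw [hK0, hK1, hK2]
    constructor
    · rintro ⟨h1, h2⟩ x hx
      have a1 := h1 hx
      have a2 := h2 hx
      rw [Finset.mem_filter] at a1 a2 ⊢
      exact ⟨a1.1, a1.2, a2.2⟩
    · intro h
      constructor
      · intro x hx
        have a1 := h hx
        rw [Finset.mem_filter] at a1 ⊢
        exact ⟨a1.1, a1.2.1⟩
      · intro x hx
        have a1 := h hx
        rw [Finset.mem_filter] at a1 ⊢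
        exact ⟨a1.1, a1.2.2⟩
  have hT : (∑ A ∈ K.powerset,
        if M.Spanning (insert e (insert f (A : Set α))) then ∏ p ∈ A, z p else 0)
      = 1 * ∏ p ∈ K, (1 + z p) := by
    rw [one_mul, Finset.prod_one_add]
    refine Finset.sum_congr rfl fun A _ => ?_
    rw [if_pos (k0 A)]
  have hTe : (∑ A ∈ K.powerset,
      if (M.Spanning (insert e (insert f (A : Set α))) ∧ ¬ M.Spanning (insert e (A : Set α)))
        then ∏ p ∈ A, z p else 0) = 1 * ∏ p ∈ K1, (1 + z p) := by
    rw [one_mul, ← sum_sub z K K1 hK1K]
    refine Finset.sum_congr rfl fun A hA => ?_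
    have := k1 A hA
    by_cases h : A ⊆ K1
    · rw [if_pos h, if_pos ⟨k0 A, this.mpr h⟩]
    · rw [if_neg h, if_neg (fun h' => h (this.mp h'.2))]
  have hTf : (∑ A ∈ K.powerset,
      if (M.Spanning (insert e (insert f (A : Set α))) ∧ ¬ M.Spanning (insert f (A : Set α)))
        then ∏ p ∈ A, z p else 0) = 1 * ∏ p ∈ K2, (1 + z p) := by
    rw [one_mul, ← sum_sub z K K2 hK2K]
    refine Finset.sum_congr rfl fun A hA => ?_
    have := k2 A hA
    by_cases h : A ⊆ K2
    · rw [if_pos h, if_pos ⟨k0 A, this.mpr h⟩]
    · rw [if_neg h, if_neg (fun h' => h (this.mp h'.2))]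
  have hnn : (∑ A ∈ K.powerset,
          if (M.Spanning (insert e (insert f (A : Set α))) ∧ ¬ M.Spanning (insert e (A : Set α))
            ∧ ¬ M.Spanning (insert f (A : Set α))) then ∏ p ∈ A, z p else 0)
      = 1 * ∏ p ∈ K0, (1 + z p) := by
    rw [one_mul, ← sum_sub z K K0 hK0K]
    refine Finset.sum_congr rfl fun A hA => ?_
    have h1 := k1 A hA
    have h2' := k2 A hA
    by_cases h : A ⊆ K0
    · have h' := (hK012 A).mpr h
      rw [if_pos h, if_pos ⟨k0 A, h1.mpr h'.1, h2'.mpr h'.2⟩]
    · rw [if_neg h, if_neg (fun h' => h ((hK012 A).mp ⟨h1.mp h'.2.1, h2'.mp h'.2.2⟩))]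
  have hnb := sum_one z hz K K0 K3 hK0K hK3K (by
      rw [Finset.disjoint_left]
      intro x hx hx'
      rw [hK0, Finset.mem_filter] at hx
      rw [hK3, Finset.mem_filter] at hx'
      exact hx'.2.1 hx.2.1) (fun A => M.Spanning (insert e (A : Set α)) ∧
        M.Spanning (insert f (A : Set α)) ∧ ¬ M.Spanning (A : Set α)) (by
      rintro C hCK ⟨p, hp, hpC, hall⟩
      have hC : C ∈ K.powerset := Finset.mem_powerset.mpr hCK
      rw [hK3, Finset.mem_filter] at hp
      refine ⟨?_, ?_, ?_⟩
      · by_contra h
        have := (k1 C hC).mp h hpC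
        rw [hK1, Finset.mem_filter] at this
        exact hp.2.1 this.2
      · by_contra h
        have := (k2 C hC).mp h hpC
        rw [hK2, Finset.mem_filter] at this
        exact hp.2.2 this.2
      · apply not_span_single M hE h2 (a := p)
        intro x hx
        rcases hall x hx with h | h
        · rw [hK0, Finset.mem_filter] at h
          exact M.closure_subset_closure (Set.empty_subset _) (inter_cl hE hef hne h.2.1 h.2.2)
        · rw [h]; exact mem_self_cl hE hef hne p _ rfl)
  have hprod : (∏ p ∈ K, (1 + z p)) * ∏ p ∈ K0, (1 + z p)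
      = (∏ p ∈ K1, (1 + z p)) * (∏ p ∈ K2, (1 + z p)) * ∏ p ∈ K3, (1 + z p) :=
    prod_identity K z (fun p => p ∈ M.closure {e}) (fun p => p ∈ M.closure {f})
  have hy := one_sub_mul_prod_le z hz K3
  have pos : ∀ S : Finset α, 0 < ∏ p ∈ S, (1 + z p) := fun S =>
    Finset.prod_pos fun p _ => by linarith [hz p]
  rw [hT, hTe, hTf, hnn]
  exact final_arith 1 1 0 (∑ p ∈ K3, z p) _ _ _ _ (∏ p ∈ K3, (1 + z p)) 1 1 _ zero_le_one
    zero_le_one le_rfl (Finset.sum_nonneg fun p _ => hz p) (pos K) (pos K1) (pos K2) (pos K3)
    zero_le_one zero_le_one hprod hy (by norm_num) (by linarith [hnb])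

open Classical in
/-- Every matroid of rank at most three is spanning-correlated. -/
theorem spanning_correlated (hE : M.E = Set.univ) (hr : M.eRank ≤ 3) (e f : α) (hne : e ≠ f)
    (z : α → ℝ) (hz : ∀ x, 0 < z x) :
    (∑ A : Finset α,
        if M.Spanning (A : Set α) ∧ e ∈ A ∧ f ∈ A then ∏ a ∈ A, z a else 0) *
      (∑ A : Finset α, if M.Spanning (A : Set α) then ∏ a ∈ A, z a else 0) ≤
    (∑ A : Finset α, if M.Spanning (A : Set α) ∧ e ∈ A then ∏ a ∈ A, z a else 0) *
      (∑ A : Finset α, if M.Spanning (A : Set α) ∧ f ∈ A then ∏ a ∈ A, z a else 0) := by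
  set E' := (univ.erase e).erase f with hE'
  have hz0 : ∀ x, 0 ≤ z x := fun x => (hz x).le
  -- membership facts
  have mE : ∀ A ∈ E'.powerset, e ∉ A ∧ f ∉ A := by
    intro A hA
    rw [Finset.mem_powerset] at hA
    constructor
    · intro h; have := hA h; simp [hE'] at this
    · intro h; have := hA h; simp [hE'] at this
  have sub_univ : ∀ X : Set α, X ⊆ M.E := fun X => by rw [hE]; exact Set.subset_univ _
  -- main inequality
  have hmain : (∑ A ∈ E'.powerset,
        if M.Spanning (insert e (insert f (A : Set α))) then ∏ p ∈ A, z p else 0) *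
      (∑ A ∈ E'.powerset, if M.Spanning (A : Set α) then ∏ p ∈ A, z p else 0)
      ≤ (∑ A ∈ E'.powerset, if M.Spanning (insert e (A : Set α)) then ∏ p ∈ A, z p else 0)
        * (∑ A ∈ E'.powerset, if M.Spanning (insert f (A : Set α)) then ∏ p ∈ A, z p else 0) := by
    apply corr_of E' (fun A => ∏ p ∈ A, z p) (fun A => M.Spanning (A : Set α))
      (fun A => M.Spanning (insert e (A : Set α))) (fun A => M.Spanning (insert f (A : Set α)))
      (fun A => M.Spanning (insert e (insert f (A : Set α))))
    · intro A h
      exact h.superset (Set.subset_insert _ _) (sub_univ _)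
    · intro A h
      exact h.superset (Set.subset_insert _ _) (sub_univ _)
    · intro A h
      exact h.superset (Set.insert_subset_insert (Set.subset_insert _ _)) (sub_univ _)
    · intro A h
      exact h.superset (Set.subset_insert _ _) (sub_univ _)
    · by_cases hef : M.Indep {e, f}
      · have h2 : 2 ≤ M.eRank := by
          have := hef.encard_le_eRank
          rwa [Set.encard_pair hne] at this
        by_cases h3 : M.eRank = 3
        · exact core3 M hE h3 hef hne z hz0
        · have h3' : M.eRank = 2 := by
            have hlt : M.eRank < 3 := lt_of_le_of_ne hr h3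
            apply le_antisymm _ h2
            have h5 : M.eRank < 2 + 1 := by
              have : (2 : ℕ∞) + 1 = 3 := by norm_num
              rw [this]; exact hlt
            exact ENat.lt_add_one_iff (by simp) |>.mp h5
          exact core2 M hE h3' hef hne z hz0
      · -- no set is counted in the first difference
        have hor : e ∈ M.closure {f} ∨ f ∈ M.closure {e} := by
          by_contra hno
          push Not at hno
          apply hef
          apply pair_indep hE _ hno.2
          intro h
          exact hno.1 (M.closure_subset_closure (Set.empty_subset _) h)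
        have hz1 : (∑ A ∈ E'.powerset,
          if (M.Spanning (insert e (insert f (A : Set α))) ∧ ¬ M.Spanning (insert e (A : Set α))
            ∧ ¬ M.Spanning (insert f (A : Set α))) then ∏ p ∈ A, z p else 0) = 0 := by
          apply Finset.sum_eq_zero
          intro A hA
          rw [if_neg]
          rintro ⟨h1, h2, h3⟩
          rcases hor with h | h
          · apply h3
            have hmem : e ∈ M.closure (insert f (A : Set α)) :=
              M.closure_subset_closure (by simp) h
            rw [Matroid.spanning_iff_closure_eq (sub_univ _)] at h1 ⊢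
            rw [M.closure_insert_eq_of_mem_closure hmem] at h1
            exact h1
          · apply h2
            have hmem : f ∈ M.closure (insert e (A : Set α)) :=
              M.closure_subset_closure (by simp) h
            rw [Matroid.spanning_iff_closure_eq (sub_univ _)] at h1 ⊢
            rw [Set.insert_comm, M.closure_insert_eq_of_mem_closure hmem] at h1
            exact h1
        have nonneg : ∀ (R : Finset α → Prop) [DecidablePred R], 0 ≤ ∑ A ∈ E'.powerset,
            if R A then ∏ p ∈ A, z p else 0 := by
          intro R _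
          refine Finset.sum_nonneg fun A _ => ?_
          split_ifs
          · exact Finset.prod_nonneg fun p _ => hz0 p
          · exact le_refl _
        rw [hz1, zero_sub, mul_neg]
        have n1 := mul_nonneg (nonneg (fun A => M.Spanning (insert e (insert f (A : Set α)))))
          (nonneg (fun A => M.Spanning (insert e (A : Set α)) ∧ M.Spanning (insert f (A : Set α))
            ∧ ¬ M.Spanning (A : Set α)))
        have n2 := mul_nonneg
          (nonneg (fun A => M.Spanning (insert e (insert f (A : Set α))) ∧
            ¬ M.Spanning (insert e (A : Set α))))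
          (nonneg (fun A => M.Spanning (insert e (insert f (A : Set α))) ∧
            ¬ M.Spanning (insert f (A : Set α))))
        linarith
  -- rewriting the four sums
  have r1 : (∑ A : Finset α,
        if M.Spanning (A : Set α) ∧ e ∈ A ∧ f ∈ A then ∏ a ∈ A, z a else 0)
      = z e * z f * (∑ A ∈ E'.powerset,
        if M.Spanning (insert e (insert f (A : Set α))) then ∏ p ∈ A, z p else 0) := by
    rw [sum_all e f hne, Finset.mul_sum]
    refine Finset.sum_congr rfl fun A hA => ?_
    obtain ⟨h1, h2⟩ := mE A hA
    have h3 : e ∉ insert f A := by simp [hne, h1]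
    have h4 : f ∉ insert e A := by simp [hne.symm, h2]
    rw [if_neg (fun h => h1 h.2.1), if_neg (fun h => h4 h.2.2), if_neg (fun h => h3 h.2.1)]
    rw [Finset.prod_insert h3, Finset.prod_insert h2]
    simp only [Finset.coe_insert, Finset.mem_insert, true_or, or_true, and_true]
    split_ifs
    · ring
    · ring
  have r2 : (∑ A : Finset α, if M.Spanning (A : Set α) then ∏ a ∈ A, z a else 0)
      = (∑ A ∈ E'.powerset, if M.Spanning (A : Set α) then ∏ p ∈ A, z p else 0)
        + z e * (∑ A ∈ E'.powerset, if M.Spanning (insert e (A : Set α)) then ∏ p ∈ A, z p else 0)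
        + z f * (∑ A ∈ E'.powerset, if M.Spanning (insert f (A : Set α)) then ∏ p ∈ A, z p else 0)
        + z e * z f * (∑ A ∈ E'.powerset,
          if M.Spanning (insert e (insert f (A : Set α))) then ∏ p ∈ A, z p else 0) := by
    rw [sum_all e f hne, Finset.mul_sum, Finset.mul_sum, Finset.mul_sum,
      ← Finset.sum_add_distrib, ← Finset.sum_add_distrib, ← Finset.sum_add_distrib]
    refine Finset.sum_congr rfl fun A hA => ?_
    obtain ⟨h1, h2⟩ := mE A hA
    have h3 : e ∉ insert f A := by simp [hne, h1]
    rw [Finset.prod_insert h3, Finset.prod_insert h2, Finset.prod_insert h1]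
    simp only [Finset.coe_insert]
    congr 1
    · congr 1
      · congr 1
        split_ifs <;> ring
      · split_ifs <;> ring
    · split_ifs <;> ring
  have r3 : (∑ A : Finset α, if M.Spanning (A : Set α) ∧ e ∈ A then ∏ a ∈ A, z a else 0)
      = z e * (∑ A ∈ E'.powerset, if M.Spanning (insert e (A : Set α)) then ∏ p ∈ A, z p else 0)
        + z e * z f * (∑ A ∈ E'.powerset,
          if M.Spanning (insert e (insert f (A : Set α))) then ∏ p ∈ A, z p else 0) := by
    rw [sum_all e f hne, Finset.mul_sum, Finset.mul_sum, ← Finset.sum_add_distrib]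
    refine Finset.sum_congr rfl fun A hA => ?_
    obtain ⟨h1, h2⟩ := mE A hA
    have h3 : e ∉ insert f A := by simp [hne, h1]
    rw [if_neg (fun h => h1 h.2), if_neg (show ¬ (M.Spanning ((insert f A : Finset α) : Set α) ∧
      e ∈ insert f A) from fun h => h3 h.2)]
    rw [Finset.prod_insert h3, Finset.prod_insert h2, Finset.prod_insert h1]
    simp only [Finset.coe_insert, Finset.mem_insert, true_or, and_true, zero_add, add_zero]
    congr 1
    · split_ifs <;> ring
    · split_ifs <;> ring
  have r4 : (∑ A : Finset α, if M.Spanning (A : Set α) ∧ f ∈ A then ∏ a ∈ A, z a else 0)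
      = z f * (∑ A ∈ E'.powerset, if M.Spanning (insert f (A : Set α)) then ∏ p ∈ A, z p else 0)
        + z e * z f * (∑ A ∈ E'.powerset,
          if M.Spanning (insert e (insert f (A : Set α))) then ∏ p ∈ A, z p else 0) := by
    rw [sum_all e f hne, Finset.mul_sum, Finset.mul_sum, ← Finset.sum_add_distrib]
    refine Finset.sum_congr rfl fun A hA => ?_
    obtain ⟨h1, h2⟩ := mE A hA
    have h3 : e ∉ insert f A := by simp [hne, h1]
    have h4 : f ∉ insert e A := by simp [hne.symm, h2]
    rw [if_neg (fun h => h2 h.2), if_neg (fun h => h4 h.2)]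
    rw [Finset.prod_insert h3, Finset.prod_insert h2]
    simp only [Finset.coe_insert, Finset.mem_insert, true_or, or_true, and_true, zero_add]
    congr 1
    · split_ifs <;> ring
    · split_ifs <;> ring
  rw [r1, r2, r3, r4]
  have hpos := mul_pos (hz e) (hz f)
  have := mul_le_mul_of_nonneg_left hmain hpos.le
  nlinarith [this]

end

end Pool.Agent.Helper28.Rank3
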